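import Pool.Agent.LibCod83.Low

/-!
Lattice paths in `ℤᵐ`, and the chains which their images under a map to a group define.
-/

set_option autoImplicit false

namespace Pool.Agent.LibQF83

open Filter Topology

variable {G : Type} [Group G]

/-- left translation of a finitely supported function. -/
noncomputable def Lt (g : G) : (G →₀ ℤ) →+ (G →₀ ℤ) :=
  Finsupp.mapDomain.addMonoidHom (g * ·)

lemma Lt_single (g x : G) (n : ℤ) : Lt g (Finsupp.single x n) = Finsupp.single (g * x) n := by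
  simp [Lt]

lemma Lt_apply (g : G) (u : G →₀ ℤ) (x : G) : Lt g u x = u (g⁻¹ * x) := by
  have h := Finsupp.mapDomain_apply (mul_right_injective g) u (g⁻¹ * x)
  rw [mul_inv_cancel_left] at h
  exact h

/-- the inhomogeneous differential, for an abelian group `A` with additive maps `τ g`. -/
noncomputable def dd {A : Type*} [AddCommGroup A] (τ : G → A →+ A) (n : ℕ) :
    ((Fin (n + 1) → G) →₀ A) →+ ((Fin n → G) →₀ A) :=
  Finsupp.liftAddHom fun g => ((Finsupp.singleAddHom (fun i : Fin n => g i.succ)).comp (τ (g 0)⁻¹) +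
    ∑ j : Fin (n + 1), (-1 : ℤ) ^ ((j : ℕ) + 1) •
      (Finsupp.singleAddHom (Fin.contractNth j (· * ·) g) : A →+ ((Fin n → G) →₀ A)) :
      A →+ ((Fin n → G) →₀ A))

lemma dd_single {A : Type*} [AddCommGroup A] (τ : G → A →+ A) (n : ℕ) (g : Fin (n + 1) → G)
    (a : A) : dd τ n (Finsupp.single g a) = Finsupp.single (fun i : Fin n => g i.succ) (τ (g 0)⁻¹ a) +
      ∑ j : Fin (n + 1), (-1 : ℤ) ^ ((j : ℕ) + 1) • Finsupp.single (Fin.contractNth j (· * ·) g) a := by
  simp [dd]

section path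

variable {m : ℕ} (f : (Fin m → ℤ) → G)

/-- the unit vectors. -/
def ev (i : Fin m) : Fin m → ℤ := Pi.single i 1

/-- the vertices of the lattice path from `p` with directions `d`. -/
def pv {n : ℕ} (d : Fin n → Fin m) (p : Fin m → ℤ) (i : ℕ) : Fin m → ℤ :=
  p + ∑ j : Fin n, if (j : ℕ) < i then ev (d j) else 0

/-- the increments of the image of a lattice path. -/
def stp {n : ℕ} (d : Fin n → Fin m) (p : Fin m → ℤ) (i : Fin n) : G :=
  (f (pv d p i))⁻¹ * f (pv d p (i + 1))

/-- the chain of the image of a lattice path. -/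
noncomputable def elt {n : ℕ} (d : Fin n → Fin m) (p : Fin m → ℤ) : (Fin n → G) →₀ (G →₀ ℤ) :=
  Finsupp.single (stp f d p) (Finsupp.single (f p)⁻¹ 1)

lemma pv_zero {n : ℕ} (d : Fin n → Fin m) (p : Fin m → ℤ) : pv d p 0 = p := by
  simp [pv]

lemma pv_tail {n : ℕ} (d : Fin (n + 1) → Fin m) (p : Fin m → ℤ) (i : ℕ) :
    pv (fun j : Fin n => d j.succ) (p + ev (d 0)) i = pv d p (i + 1) := by
  unfold pv
  rw [Fin.sum_univ_succ, add_assoc]
  congr 1
  rw [if_pos (by simp)]
  congr 1
  refine Finset.sum_congr rfl fun j _ => ?_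
  simp only [Fin.val_succ, Nat.add_lt_add_iff_right]

lemma pv_init {n : ℕ} (d : Fin (n + 1) → Fin m) (p : Fin m → ℤ) (i : ℕ) (hi : i ≤ n) :
    pv (fun j : Fin n => d j.castSucc) p i = pv d p i := by
  unfold pv
  rw [Fin.sum_univ_castSucc, if_neg (by rw [Fin.val_last]; omega), add_zero]
  rfl

lemma pv_swap {n : ℕ} (j : Fin n) (d : Fin (n + 1) → Fin m) (p : Fin m → ℤ) (i : ℕ)
    (hi : i ≠ (j : ℕ) + 1) :
    pv (d ∘ Equiv.swap j.castSucc j.succ) p i = pv d p i := by
  unfold pv
  congr 1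
  rw [← Equiv.sum_comp (Equiv.swap j.castSucc j.succ)
    (fun k : Fin (n + 1) => if (k : ℕ) < i then (ev (d k) : Fin m → ℤ) else 0)]
  refine Finset.sum_congr rfl fun k _ => ?_
  have h1 : ((k : ℕ) < i) ↔ ((Equiv.swap j.castSucc j.succ k : Fin (n + 1)) : ℕ) < i := by
    by_cases h2 : k = j.castSucc
    · subst h2
      rw [Equiv.swap_apply_left, Fin.val_castSucc, Fin.val_succ]
      omega
    · by_cases h3 : k = j.succ
      · subst h3
        rw [Equiv.swap_apply_right, Fin.val_castSucc, Fin.val_succ]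
        omega
      · rw [Equiv.swap_apply_of_ne_of_ne h2 h3]
  simp only [Function.comp_apply, h1]

/-- partial products of the increments. -/
lemma partialProd_stp {n : ℕ} (d : Fin n → Fin m) (p : Fin m → ℤ) (i : Fin (n + 1)) :
    (f p)⁻¹⁻¹ * Fin.partialProd (stp f d p) i = f (pv d p i) := by
  induction i using Fin.induction with
  | zero => simp [pv_zero]
  | succ i ih =>
    rw [Fin.partialProd_succ, ← mul_assoc, ih, stp, Fin.val_castSucc, Fin.val_succ,
      mul_inv_cancel_left]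

/-- the first face. -/
lemma first_face {n : ℕ} (d : Fin (n + 1) → Fin m) (p : Fin m → ℤ) :
    (Finsupp.single (fun i : Fin n => stp f d p i.succ)
      (Lt (stp f d p 0)⁻¹ (Finsupp.single (f p)⁻¹ 1)) : (Fin n → G) →₀ (G →₀ ℤ)) =
      elt f (fun j : Fin n => d j.succ) (p + ev (d 0)) := by
  have h1 : pv d p 1 = p + ev (d 0) := by
    have h := pv_tail d p 0
    rw [pv_zero] at h
    exact h.symm
  have h2 : (stp f d p 0)⁻¹ * (f p)⁻¹ = (f (p + ev (d 0)))⁻¹ := by
    rw [stp, Fin.val_zero, pv_zero, zero_add, h1]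
    group
  have h3 : (fun i : Fin n => stp f d p i.succ) =
      stp f (fun j : Fin n => d j.succ) (p + ev (d 0)) := by
    funext i
    rw [stp, stp, pv_tail, pv_tail, Fin.val_succ]
  rw [Lt_single, h2, h3]
  rfl

/-- the last face. -/
lemma last_face {n : ℕ} (d : Fin (n + 1) → Fin m) (p : Fin m → ℤ) :
    (Finsupp.single (Fin.contractNth (Fin.last n) (· * ·) (stp f d p))
      (Finsupp.single (f p)⁻¹ 1) : (Fin n → G) →₀ (G →₀ ℤ)) =
      elt f (fun j : Fin n => d j.castSucc) p := by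
  have h3 : Fin.contractNth (Fin.last n) (· * ·) (stp f d p) =
      stp f (fun j : Fin n => d j.castSucc) p := by
    funext k
    rw [Fin.contractNth_apply_of_lt _ _ _ _ (by rw [Fin.val_last]; exact k.2)]
    rw [stp, stp, pv_init _ _ _ (by omega), pv_init _ _ _ (by omega), Fin.val_castSucc]
  rw [h3]
  rfl

/-- the middle faces. -/
lemma mid_face {n : ℕ} (j : Fin n) (d : Fin (n + 1) → Fin m) (p : Fin m → ℤ) :
    Fin.contractNth j.castSucc (· * ·) (stp f (d ∘ Equiv.swap j.castSucc j.succ) p) =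
      Fin.contractNth j.castSucc (· * ·) (stp f d p) := by
  funext k
  rcases lt_trichotomy (k : ℕ) (j : ℕ) with h | h | h
  · rw [Fin.contractNth_apply_of_lt _ _ _ _ h, Fin.contractNth_apply_of_lt _ _ _ _ h, stp, stp,
      Fin.val_castSucc, pv_swap _ _ _ _ (by omega), pv_swap _ _ _ _ (by omega)]
  · have hk : k = j := Fin.ext h
    subst hk
    rw [Fin.contractNth_apply_of_eq _ _ _ _ rfl, Fin.contractNth_apply_of_eq _ _ _ _ rfl]
    have h1 : ∀ d' : Fin (n + 1) → Fin m, stp f d' p k.castSucc * stp f d' p k.succ =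
        (f (pv d' p k))⁻¹ * f (pv d' p ((k : ℕ) + 1 + 1)) := by
      intro d'
      rw [stp, stp, Fin.val_castSucc, Fin.val_succ]
      group
    rw [h1, h1, pv_swap _ _ _ _ (by omega), pv_swap _ _ _ _ (by omega)]
  · rw [Fin.contractNth_apply_of_gt _ _ _ _ h, Fin.contractNth_apply_of_gt _ _ _ _ h, stp, stp,
      Fin.val_succ, pv_swap _ _ _ _ (by omega), pv_swap _ _ _ _ (by omega)]

end path

/-- the boundary of the cell at `p`. -/
theorem dd_cell {n : ℕ} (f : (Fin (n + 1) → ℤ) → G) (p : Fin (n + 1) → ℤ) :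
    dd Lt n (∑ π : Equiv.Perm (Fin (n + 1)), (Equiv.Perm.sign π : ℤ) • elt f (fun i => π i) p) =
      ∑ π : Equiv.Perm (Fin (n + 1)), (Equiv.Perm.sign π : ℤ) •
        (elt f (fun j : Fin n => π j.succ) (p + ev (π 0)) -
          elt f (fun j : Fin n => π j.succ) p) := by
  classical
  have h0 : ∀ π : Equiv.Perm (Fin (n + 1)), dd Lt n (elt f (fun i => π i) p) =
      elt f (fun j : Fin n => π j.succ) (p + ev (π 0)) +
      (∑ j : Fin n, (-1 : ℤ) ^ ((j : ℕ) + 1) • (Finsupp.single (Fin.contractNth j.castSucc (· * ·)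
        (stp f (fun i => π i) p)) (Finsupp.single (f p)⁻¹ 1) : (Fin n → G) →₀ (G →₀ ℤ)) +
      (-1 : ℤ) ^ (n + 1) • elt f (fun j : Fin n => π j.castSucc) p) := by
    intro π
    rw [elt, dd_single, first_face f (fun i => π i) p, Fin.sum_univ_castSucc, Fin.val_last,
      last_face f (fun i => π i) p]
    rfl
  rw [map_sum]
  have h1 : ∀ π : Equiv.Perm (Fin (n + 1)), dd Lt n ((Equiv.Perm.sign π : ℤ) •
      elt f (fun i => π i) p) = (Equiv.Perm.sign π : ℤ) •
        elt f (fun j : Fin n => π j.succ) (p + ev (π 0)) +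
      (∑ j : Fin n, (-1 : ℤ) ^ ((j : ℕ) + 1) • ((Equiv.Perm.sign π : ℤ) •
        (Finsupp.single (Fin.contractNth j.castSucc (· * ·)
        (stp f (fun i => π i) p)) (Finsupp.single (f p)⁻¹ 1) : (Fin n → G) →₀ (G →₀ ℤ))) +
      (-1 : ℤ) ^ (n + 1) • ((Equiv.Perm.sign π : ℤ) • elt f (fun j : Fin n => π j.castSucc) p)) := by
    intro π
    rw [map_zsmul, h0, smul_add, smul_add, Finset.smul_sum]
    have e1 : ∀ {X X' Y Y' Z : (Fin n → G) →₀ (G →₀ ℤ)}, X = X' → Y = Y' →
        Z + (X + Y) = Z + (X' + Y') := by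
      rintro X X' Y Y' Z rfl rfl
      rfl
    refine e1 (Finset.sum_congr rfl fun j _ => ?_) ?_
    · rw [smul_comm]
    · rw [smul_comm]
  rw [Finset.sum_congr rfl fun π _ => h1 π, Finset.sum_add_distrib, Finset.sum_add_distrib]
  have h2 : ∑ π : Equiv.Perm (Fin (n + 1)), ∑ j : Fin n, (-1 : ℤ) ^ ((j : ℕ) + 1) •
      ((Equiv.Perm.sign π : ℤ) • (Finsupp.single (Fin.contractNth j.castSucc (· * ·)
        (stp f (fun i => π i) p)) (Finsupp.single (f p)⁻¹ 1) : (Fin n → G) →₀ (G →₀ ℤ))) = 0 := by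
    rw [Finset.sum_comm]
    refine Finset.sum_eq_zero fun j _ => ?_
    rw [← Finset.smul_sum]
    set S := ∑ π : Equiv.Perm (Fin (n + 1)), (Equiv.Perm.sign π : ℤ) •
      (Finsupp.single (Fin.contractNth j.castSucc (· * ·) (stp f (fun i => π i) p))
        (Finsupp.single (f p)⁻¹ 1) : (Fin n → G) →₀ (G →₀ ℤ)) with hS
    have hne : (j.castSucc : Fin (n + 1)) ≠ j.succ := by
      intro h
      have := congrArg Fin.val h
      simp at this
    have h3 : S = -S := by
      conv_lhs => rw [hS, ← Equiv.sum_comp (Equiv.mulRight (Equiv.swap j.castSucc j.succ))]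
      rw [hS, ← Finset.sum_neg_distrib]
      refine Finset.sum_congr rfl fun π _ => ?_
      have h4 : (fun i => (Equiv.mulRight (Equiv.swap j.castSucc j.succ) π : Equiv.Perm _) i) =
          (fun i => π i) ∘ Equiv.swap j.castSucc j.succ := rfl
      rw [h4, mid_face, Equiv.coe_mulRight, Equiv.Perm.sign_mul, Equiv.Perm.sign_swap hne]
      simp
    have h5 : S = 0 := by
      ext g x
      have h6 := DFunLike.congr_fun (DFunLike.congr_fun h3 g) x
      rw [Finsupp.neg_apply, Finsupp.neg_apply] at h6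
      rw [Finsupp.zero_apply, Finsupp.zero_apply]
      omega
    rw [h5, smul_zero]
  rw [h2, zero_add, ← Finset.smul_sum]
  have h3 : ∑ π : Equiv.Perm (Fin (n + 1)), (Equiv.Perm.sign π : ℤ) •
      elt f (fun j : Fin n => π j.succ) p =
      (-1 : ℤ) ^ n • ∑ π : Equiv.Perm (Fin (n + 1)), (Equiv.Perm.sign π : ℤ) •
        elt f (fun j : Fin n => π j.castSucc) p := by
    conv_rhs => rw [← Equiv.sum_comp (Equiv.mulRight (finRotate (n + 1)))]
    rw [Finset.smul_sum]
    refine Finset.sum_congr rfl fun σ _ => ?_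
    rw [Equiv.coe_mulRight, Equiv.Perm.sign_mul, sign_finRotate]
    have h4 : ∀ i : Fin n, (σ * finRotate (n + 1)) i.castSucc = σ i.succ := by
      intro i
      rw [Equiv.Perm.mul_apply]
      congr 1
      have h5 : (i.castSucc : Fin (n + 1)) = ⟨(i : ℕ), Nat.lt_succ_of_lt i.2⟩ := rfl
      rw [h5, finRotate_of_lt i.2]
      rfl
    simp only [h4]
    rw [smul_smul]
    congr 1
    push_cast
    have h6 : ((-1 : ℤ) ^ n) * ((-1 : ℤ) ^ n) = 1 := by
      rw [← pow_add, ← two_mul, pow_mul]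
      simp
    linear_combination (-(Equiv.Perm.sign σ : ℤ)) * h6
  have h4 : (-1 : ℤ) ^ (n + 1) • ∑ π : Equiv.Perm (Fin (n + 1)), (Equiv.Perm.sign π : ℤ) •
      elt f (fun j : Fin n => π j.castSucc) p = -∑ π : Equiv.Perm (Fin (n + 1)),
        (Equiv.Perm.sign π : ℤ) • elt f (fun j : Fin n => π j.succ) p := by
    rw [h3, pow_succ, mul_neg_one, neg_smul]
  rw [h4, ← sub_eq_add_neg, ← Finset.sum_sub_distrib]
  refine Finset.sum_congr rfl fun π _ => ?_
  rw [smul_sub]

/-! ### boxes -/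
noncomputable def box (m r : ℕ) : Finset (Fin m → ℤ) := Fintype.piFinset fun _ => Finset.Icc (0 : ℤ) r

lemma card_box (m r : ℕ) : (box m r).card = (r + 1) ^ m := by
  unfold box
  rw [Fintype.card_piFinset]
  simp only [Int.card_Icc, Finset.prod_const, Finset.card_univ, Fintype.card_fin]
  congr 1

lemma PathB_tel {A : Type} [AddCommGroup A] (H : ℤ → A) (r : ℕ) :
    ∑ t ∈ Finset.Icc (0 : ℤ) r, (H (t + 1) - H t) = H (r + 1) - H 0 := by
  induction r with
  | zero => simp
  | succ r ih =>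
    have h : Finset.Icc (0 : ℤ) ((r + 1 : ℕ) : ℤ) = insert ((r : ℤ) + 1) (Finset.Icc (0 : ℤ) r) := by
      ext x
      simp only [Finset.mem_Icc, Finset.mem_insert, Nat.cast_add, Nat.cast_one]
      omega
    rw [h, Finset.sum_insert (by simp), ih]
    push_cast
    abel

/-- summation of differences over a box. -/
theorem sum_box_sub {n r : ℕ} (i : Fin (n + 1)) : ∃ U L : Finset (Fin (n + 1) → ℤ),
    U.card ≤ (r + 1) ^ n ∧ L.card ≤ (r + 1) ^ n ∧
    ∀ {A : Type} [AddCommGroup A] (F : (Fin (n + 1) → ℤ) → A),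
      ∑ p ∈ box (n + 1) r, (F (p + ev i) - F p) = ∑ p ∈ U, F p - ∑ p ∈ L, F p := by
  have hinj : ∀ t : ℤ, Function.Injective
      (fun q : Fin n → ℤ => (i.insertNth t q : Fin (n + 1) → ℤ)) := by
    intro t q q' h
    exact Fin.insertNth_right_injective _ h
  refine ⟨(box n r).map ⟨_, hinj ((r : ℤ) + 1)⟩, (box n r).map ⟨_, hinj 0⟩, ?_, ?_, ?_⟩
  · rw [Finset.card_map, card_box]
  · rw [Finset.card_map, card_box]
  · intro A _ F
    rw [Finset.sum_map, Finset.sum_map]
    simp only [Function.Embedding.coeFn_mk]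
    have h1 : ∀ K : (Fin (n + 1) → ℤ) → A, ∑ p ∈ box (n + 1) r, K p =
        ∑ x ∈ Finset.Icc (0 : ℤ) r ×ˢ box n r, K (i.insertNth x.1 x.2) := by
      intro K
      refine Finset.sum_nbij' (fun p => (p i, i.removeNth p)) (fun x => i.insertNth x.1 x.2)
        ?_ ?_ ?_ ?_ ?_
      · intro p hp
        unfold box at hp ⊢
        rw [Fintype.mem_piFinset] at hp
        rw [Finset.mem_product, Fintype.mem_piFinset]
        exact ⟨hp i, fun j => hp _⟩
      · rintro ⟨t, q⟩ hx
        unfold box at hx ⊢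
        rw [Finset.mem_product, Fintype.mem_piFinset] at hx
        rw [Fintype.mem_piFinset]
        intro j
        refine Fin.succAboveCases i ?_ (fun j => ?_) j
        · rw [Fin.insertNth_apply_same]
          exact hx.1
        · rw [Fin.insertNth_apply_succAbove]
          exact hx.2 j
      · intro p _
        exact Fin.insertNth_self_removeNth i p
      · rintro ⟨t, q⟩ _
        simp
      · intro p _
        rw [Fin.insertNth_self_removeNth i p]
    rw [h1, Finset.sum_product_right, ← Finset.sum_sub_distrib]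
    refine Finset.sum_congr rfl fun q _ => ?_
    have h2 := PathB_tel (fun t : ℤ => F (i.insertNth t q)) r
    rw [← h2]
    refine Finset.sum_congr rfl fun t _ => ?_
    have h3 : (i.insertNth t q : Fin (n + 1) → ℤ) + ev i = i.insertNth (t + 1) q := by
      rw [Fin.eq_insertNth_iff]
      constructor
      · simp [ev]
      · funext j
        simp [Fin.removeNth, ev, Fin.succAbove_ne]
    rw [h3]

/-! ### counting -/

open Classical in
/-- sums of unit masses with bounded multiplicity. -/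
theorem sum_single_bound {I : Type} (s : Finset I) (h : I → G) (e : I → ℤ)
    (he : ∀ i ∈ s, |e i| ≤ 1) (N : ℕ) (hN : ∀ x : G, (s.filter fun i => h i = x).card ≤ N)
    (u : G →₀ ℤ) (hu : u = ∑ i ∈ s, Finsupp.single (h i) (e i)) :
    (∀ x, |u x| ≤ N) ∧ ∑ x ∈ u.support, (u x : ℝ) ^ 2 ≤ N * s.card := by
  have h1 : ∀ x, |u x| ≤ ((s.filter fun i => h i = x).card : ℤ) := by
    intro x
    have h2 : u x = ∑ i ∈ s.filter (fun i => h i = x), e i := by
      rw [hu, Finsupp.finsetSum_apply, Finset.sum_filter]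
      exact Finset.sum_congr rfl fun i _ => by rw [Finsupp.single_apply]
    rw [h2]
    refine (Finset.abs_sum_le_sum_abs _ _).trans ?_
    have h3 := Finset.sum_le_card_nsmul (s.filter fun i => h i = x) (fun i => |e i|) 1
      (fun i hi => he i (Finset.mem_filter.1 hi).1)
    simpa using h3
  have h4 : ∀ x, |u x| ≤ N := fun x => (h1 x).trans (by exact_mod_cast hN x)
  refine ⟨h4, ?_⟩
  have h5 : ∀ x ∈ u.support, (u x : ℝ) ^ 2 ≤ N * ((s.filter fun i => h i = x).card : ℝ) := by
    intro x _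
    have e1 : ((|u x| : ℤ) : ℝ) ≤ ((s.filter fun i => h i = x).card : ℝ) := by
      exact_mod_cast h1 x
    have e2 : ((|u x| : ℤ) : ℝ) ≤ (N : ℝ) := by exact_mod_cast h4 x
    have e3 : (u x : ℝ) ^ 2 = ((|u x| : ℤ) : ℝ) * ((|u x| : ℤ) : ℝ) := by
      rw [Int.cast_abs, ← sq, sq_abs]
    rw [e3]
    have e4 : (0 : ℝ) ≤ ((|u x| : ℤ) : ℝ) := by
      rw [Int.cast_abs]
      exact abs_nonneg _
    exact mul_le_mul e2 e1 e4 (by positivity)
  refine (Finset.sum_le_sum h5).trans ?_
  rw [← Finset.mul_sum]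
  refine mul_le_mul_of_nonneg_left ?_ (by positivity)
  have h6 : ∑ x ∈ u.support, (s.filter fun i => h i = x).card ≤ s.card := by
    rw [← Finset.card_biUnion]
    · refine Finset.card_le_card ?_
      intro i hi
      rw [Finset.mem_biUnion] at hi
      obtain ⟨x, _, hx⟩ := hi
      exact (Finset.mem_filter.1 hx).1
    · intro x _ y _ hxy
      refine Finset.disjoint_left.2 ?_
      intro i hi hi'
      exact hxy ((Finset.mem_filter.1 hi).2.symm.trans (Finset.mem_filter.1 hi').2)
  exact_mod_cast h6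

end Pool.Agent.LibQF83
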