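import Pool.Agent.LibQF83.Lip

/-!
The Lipschitz volume cocycle.
-/

set_option autoImplicit false

namespace Pool.Agent.LibQF83

variable {G : Type} [Group G] {m : ℕ}

/-- the product of the coordinate increments. -/
noncomputable def Om (φ : G → Fin m → ℝ) (g : Fin m → G) (x : G) : ℝ :=
  ∏ i : Fin m, (φ (x⁻¹ * Fin.partialProd g i.succ) i - φ (x⁻¹ * Fin.partialProd g i.castSucc) i)

lemma alt_teleR (P : ℕ → ℝ) (m : ℕ) :
    ∑ j ∈ Finset.range m, (-1 : ℝ) ^ (j + 1) * (P j + P (j + 1)) = -P 0 + (-1) ^ m * P m := by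
  induction m with
  | zero => simp
  | succ m ih =>
    rw [Finset.sum_range_succ, ih]
    ring

/-- the alternating sum. -/
lemma alt_sumR (n : ℕ) (V : Fin (n + 1) → Fin n → ℝ) :
    (∏ i : Fin n, V i.succ i) + ∑ j : Fin (n + 1), (-1 : ℝ) ^ ((j : ℕ) + 1) *
      ∏ i : Fin n, (if (i : ℕ) < j then V i.castSucc i else if (i : ℕ) = j then
        V i.castSucc i + V i.succ i else V i.succ i) = 0 := by
  classical
  set P : ℕ → ℝ := fun j => ∏ i : Fin n, (if (i : ℕ) < j then V i.castSucc i else V i.succ i)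
    with hP
  have h0 : P 0 = ∏ i : Fin n, V i.succ i := by
    simp [hP]
  have hlast : ∏ i : Fin n, (if (i : ℕ) < (Fin.last n : Fin (n + 1)) then V i.castSucc i else
      if (i : ℕ) = (Fin.last n : Fin (n + 1)) then V i.castSucc i + V i.succ i else V i.succ i) =
      P n := by
    refine Finset.prod_congr rfl fun i _ => ?_
    rw [Fin.val_last, if_pos i.2, if_pos i.2]
  have hmid : ∀ j : Fin n, ∏ i : Fin n, (if (i : ℕ) < (j.castSucc : Fin (n + 1)) then
      V i.castSucc i else if (i : ℕ) = (j.castSucc : Fin (n + 1)) then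
      V i.castSucc i + V i.succ i else V i.succ i) = P j + P (j + 1) := by
    intro j
    have e1 : ∀ (F : Fin n → ℝ), ∏ i, F i = F j * ∏ i ∈ Finset.univ.erase j, F i := fun F =>
      (Finset.mul_prod_erase _ F (Finset.mem_univ j)).symm
    rw [hP]
    simp only
    rw [e1, e1 (fun i => if (i : ℕ) < (j : ℕ) then V i.castSucc i else V i.succ i),
      e1 (fun i => if (i : ℕ) < (j : ℕ) + 1 then V i.castSucc i else V i.succ i)]
    have e2 : ∏ i ∈ Finset.univ.erase j, (if (i : ℕ) < (j.castSucc : Fin (n + 1)) then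
        V i.castSucc i else if (i : ℕ) = (j.castSucc : Fin (n + 1)) then
        V i.castSucc i + V i.succ i else V i.succ i) =
        ∏ i ∈ Finset.univ.erase j, (if (i : ℕ) < (j : ℕ) then V i.castSucc i else V i.succ i) := by
      refine Finset.prod_congr rfl fun i hi => ?_
      have hne : (i : ℕ) ≠ j := fun h => (Finset.ne_of_mem_erase hi) (Fin.ext h)
      rw [Fin.val_castSucc, if_neg hne]
    have e3 : ∏ i ∈ Finset.univ.erase j, (if (i : ℕ) < (j : ℕ) + 1 then
        V i.castSucc i else V i.succ i) =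
        ∏ i ∈ Finset.univ.erase j, (if (i : ℕ) < (j : ℕ) then V i.castSucc i else V i.succ i) := by
      refine Finset.prod_congr rfl fun i hi => ?_
      have hne : (i : ℕ) ≠ j := fun h => (Finset.ne_of_mem_erase hi) (Fin.ext h)
      by_cases h : (i : ℕ) < j
      · rw [if_pos h, if_pos (by omega)]
      · rw [if_neg h, if_neg (by omega)]
    rw [e2, e3]
    rw [Fin.val_castSucc, if_neg (lt_irrefl _), if_pos rfl, if_neg (lt_irrefl _),
      if_pos (Nat.lt_succ_self _)]
    ring
  rw [Fin.sum_univ_castSucc, hlast]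
  simp only [hmid]
  have h2 : ∑ j : Fin n, (-1 : ℝ) ^ (((j.castSucc : Fin (n + 1)) : ℕ) + 1) * (P j + P (j + 1)) =
      ∑ j ∈ Finset.range n, (-1 : ℝ) ^ (j + 1) * (P j + P (j + 1)) := by
    rw [← Fin.sum_univ_eq_sum_range (fun j => (-1 : ℝ) ^ (j + 1) * (P j + P (j + 1))) n]
    rfl
  rw [h2, alt_teleR, ← h0, Fin.val_last]
  ring

/-- the cocycle identity. -/
theorem Om_cocycle (φ : G → Fin m → ℝ) (g : Fin (m + 1) → G) (x : G) :
    Om φ (fun i : Fin m => g i.succ) ((g 0)⁻¹ * x) + ∑ j : Fin (m + 1), (-1 : ℝ) ^ ((j : ℕ) + 1) *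
      Om φ (Fin.contractNth j (· * ·) g) x = 0 := by
  classical
  have h0 : Om φ (fun i : Fin m => g i.succ) ((g 0)⁻¹ * x) =
      ∏ i : Fin m, (φ (x⁻¹ * Fin.partialProd g i.succ.succ) i -
        φ (x⁻¹ * Fin.partialProd g i.succ.castSucc) i) := by
    refine Finset.prod_congr rfl fun i _ => ?_
    have h1 : ∀ k : Fin (m + 1), ((g 0)⁻¹ * x)⁻¹ * Fin.partialProd (fun i : Fin m => g i.succ) k =
        x⁻¹ * Fin.partialProd g k.succ := by
      intro k
      rw [Fin.partialProd_succ', mul_inv_rev, inv_inv, mul_assoc]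
      rfl
    rw [h1, h1, Fin.succ_castSucc]
  have h1 : ∀ j : Fin (m + 1), Om φ (Fin.contractNth j (· * ·) g) x =
      ∏ i : Fin m, (if (i : ℕ) < j then
        (φ (x⁻¹ * Fin.partialProd g i.castSucc.succ) i -
          φ (x⁻¹ * Fin.partialProd g i.castSucc.castSucc) i) else if (i : ℕ) = j then
        (φ (x⁻¹ * Fin.partialProd g i.castSucc.succ) i -
          φ (x⁻¹ * Fin.partialProd g i.castSucc.castSucc) i) +
        (φ (x⁻¹ * Fin.partialProd g i.succ.succ) i -
          φ (x⁻¹ * Fin.partialProd g i.succ.castSucc) i) else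
        (φ (x⁻¹ * Fin.partialProd g i.succ.succ) i -
          φ (x⁻¹ * Fin.partialProd g i.succ.castSucc) i)) := by
    intro j
    refine Finset.prod_congr rfl fun i _ => ?_
    rw [Fin.partialProd_contractNth, Function.comp_apply, Function.comp_apply]
    rcases lt_trichotomy (i : ℕ) (j : ℕ) with h | h | h
    · rw [if_pos h, Fin.succAbove_of_castSucc_lt _ _ (show i.succ.castSucc < j.succ by
          simp only [Fin.lt_def, Fin.val_castSucc, Fin.val_succ]; omega),
        Fin.succAbove_of_castSucc_lt _ _ (show i.castSucc.castSucc < j.succ by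
          simp only [Fin.lt_def, Fin.val_castSucc, Fin.val_succ]; omega), Fin.succ_castSucc]
    · rw [if_neg (by omega), if_pos h, Fin.succAbove_of_le_castSucc _ _
          (show j.succ ≤ i.succ.castSucc by
            simp only [Fin.le_def, Fin.val_castSucc, Fin.val_succ]; omega),
        Fin.succAbove_of_castSucc_lt _ _ (show i.castSucc.castSucc < j.succ by
          simp only [Fin.lt_def, Fin.val_castSucc, Fin.val_succ]; omega), ← Fin.succ_castSucc]
      ring
    · rw [if_neg (by omega), if_neg (by omega), Fin.succAbove_of_le_castSucc _ _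
          (show j.succ ≤ i.succ.castSucc by
            simp only [Fin.le_def, Fin.val_castSucc, Fin.val_succ]; omega),
        Fin.succAbove_of_le_castSucc _ _ (show j.succ ≤ i.castSucc.castSucc by
          simp only [Fin.le_def, Fin.val_castSucc, Fin.val_succ]; omega), Fin.succ_castSucc]
  rw [h0]
  simp only [h1]
  exact alt_sumR m fun j i => φ (x⁻¹ * Fin.partialProd g j.succ) i -
    φ (x⁻¹ * Fin.partialProd g j.castSucc) i

/-- boundedness. -/
theorem Om_bounded (φ : G → Fin m → ℝ)
    (hφ : ∀ g : G, ∃ C : ℝ, ∀ (x : G) (i : Fin m), |φ (x * g) i - φ x i| ≤ C) (g : Fin m → G) :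
    ∃ C : ℝ, ∀ x, |Om φ g x| ≤ C := by
  have h1 : ∀ i : Fin m, ∃ C : ℝ, ∀ x : G, |φ (x⁻¹ * Fin.partialProd g i.succ) i -
      φ (x⁻¹ * Fin.partialProd g i.castSucc) i| ≤ C := by
    intro i
    obtain ⟨C, hC⟩ := hφ (g i)
    refine ⟨C, fun x => ?_⟩
    have h2 := hC (x⁻¹ * Fin.partialProd g i.castSucc) i
    rwa [mul_assoc, ← Fin.partialProd_succ] at h2
  choose C hC using h1
  refine ⟨∏ i, C i, fun x => ?_⟩
  rw [Om, Finset.abs_prod]
  exact Finset.prod_le_prod (fun i _ => abs_nonneg _) fun i _ => hC i x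

end Pool.Agent.LibQF83
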