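import Pool.Agent.LibQF83.Hom
import Pool.Agent.LibQF83.Om

/-!
Pairing of the chains with values in the asymptotic module with a Lipschitz cocycle.
-/

set_option autoImplicit false

namespace Pool.Agent.LibQF83

open Pool.Agent.LibZIS Filter Topology

/-- the null sequences of real numbers. -/
def nullR : AddSubgroup (ℕ → ℝ) where
  carrier := {s | Tendsto s atTop (𝓝 0)}
  add_mem' := by
    intro s t hs ht
    have h := Tendsto.add hs ht
    rw [add_zero] at h
    exact h
  zero_mem' := tendsto_const_nhds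
  neg_mem' := by
    intro s hs
    have h := Tendsto.neg hs
    rw [neg_zero] at h
    exact h

/-- real sequences modulo null sequences. -/
abbrev QR : Type := (ℕ → ℝ) ⧸ nullR

variable {G B : Type} [Group G] [Group B] (c : CE G B)

omit [Group G] in
lemma pair_sum_add (w : G → ℝ) (u v : G →₀ ℤ) :
    ∑ x ∈ (u + v).support, ((u + v) x : ℝ) * w x =
      ∑ x ∈ u.support, (u x : ℝ) * w x + ∑ x ∈ v.support, (v x : ℝ) * w x := by
  have h := Finsupp.sum_add_index' (f := u) (g := v) (h := fun x (n : ℤ) => (n : ℝ) * w x)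
    (fun x => by simp) (fun x m n => by push_cast; ring)
  exact h

lemma pair_sum_Lt (w : G → ℝ) (g : G) (u : G →₀ ℤ) :
    ∑ x ∈ (Lt g u).support, ((Lt g u) x : ℝ) * w x =
      ∑ x ∈ u.support, (u x : ℝ) * w (g * x) := by
  have h := Finsupp.sum_mapDomain_index (f := (g * ·)) (s := u)
    (h := fun x (n : ℤ) => (n : ℝ) * w x) (fun x => by simp) (fun x m n => by push_cast; ring)
  exact h

/-- the average pairing with a function on the group. -/
noncomputable def avg (w : G → ℝ) : ZS c →+ QR where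
  toFun u := QuotientAddGroup.mk fun r => (∑ x ∈ (u.1 r).support, (u.1 r x : ℝ) * w x) / c.a r
  map_zero' := by
    have h : (fun r => (∑ x ∈ ((0 : ZS c).1 r).support, ((0 : ZS c).1 r x : ℝ) * w x) / c.a r) =
        (0 : ℕ → ℝ) := by
      funext r
      show (∑ x ∈ (0 : G →₀ ℤ).support, ((0 : G →₀ ℤ) x : ℝ) * w x) / c.a r = 0
      rw [Finsupp.support_zero, Finset.sum_empty, zero_div]
    rw [h]
    rfl
  map_add' u v := by
    have h : (fun r => (∑ x ∈ ((u + v).1 r).support, ((u + v).1 r x : ℝ) * w x) / c.a r) =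
        (fun r => (∑ x ∈ (u.1 r).support, (u.1 r x : ℝ) * w x) / c.a r) +
        (fun r => (∑ x ∈ (v.1 r).support, (v.1 r x : ℝ) * w x) / c.a r) := by
      funext r
      show (∑ x ∈ (u.1 r + v.1 r).support, ((u.1 r + v.1 r) x : ℝ) * w x) / c.a r =
        (∑ x ∈ (u.1 r).support, (u.1 r x : ℝ) * w x) / c.a r +
        (∑ x ∈ (v.1 r).support, (v.1 r x : ℝ) * w x) / c.a r
      rw [pair_sum_add, add_div]
    rw [h]
    rfl

omit [Group G] in
lemma pair_abs_le (w : G → ℝ) (C : ℝ) (hC : 0 ≤ C) (hw : ∀ x, |w x| ≤ C) (u : G →₀ ℤ) :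
    |∑ x ∈ u.support, (u x : ℝ) * w x| ≤ C * ∑ x ∈ u.support, (u x : ℝ) ^ 2 := by
  refine (Finset.abs_sum_le_sum_abs _ _).trans ?_
  rw [Finset.mul_sum]
  refine Finset.sum_le_sum fun x _ => ?_
  rw [abs_mul, mul_comm]
  have h1 : |(u x : ℝ)| ≤ (u x : ℝ) ^ 2 := by
    have h2 : |u x| ≤ (u x) ^ 2 := by
      rw [← sq_abs (u x)]
      have h3 : 0 ≤ |u x| := abs_nonneg _
      nlinarith [Int.le_self_sq |u x|]
    exact_mod_cast h2
  exact mul_le_mul (hw x) h1 (abs_nonneg _) hC

lemma avg_ker (w : G → ℝ) (C : ℝ) (hw : ∀ x, |w x| ≤ C) (u : ZS c) (hu : mk c u = 0) :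
    avg c w u = 0 := by
  have hC : 0 ≤ C := (abs_nonneg _).trans (hw 1)
  refine (QuotientAddGroup.eq_zero_iff _).2 ?_
  show Tendsto _ atTop (𝓝 0)
  have h1 := (tendsto_of_mk_eq_zero c u hu).const_mul C
  rw [mul_zero] at h1
  refine squeeze_zero_norm (fun r => ?_) h1
  have ha := c.pos r
  rw [Real.norm_eq_abs, abs_div, abs_of_pos ha, ← mul_div_assoc]
  exact div_le_div_of_nonneg_right (pair_abs_le w C hC hw (u.1 r)) ha.le

/-- the average pairing with a bounded function on the group. -/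
noncomputable def avgM (w : G → ℝ) (hw : ∃ C : ℝ, ∀ x, |w x| ≤ C) : MM c →+ QR :=
  QuotientAddGroup.lift _ (avg c w) fun u hu =>
    avg_ker c w hw.choose hw.choose_spec u ((QuotientAddGroup.eq_zero_iff u).2 hu)

lemma avgM_mk (w : G → ℝ) (hw : ∃ C : ℝ, ∀ x, |w x| ≤ C) (u : ZS c) :
    avgM c w hw (mk c u) =
      QuotientAddGroup.mk fun r => (∑ x ∈ (u.1 r).support, (u.1 r x : ℝ) * w x) / c.a r := rfl

/-- the functional on the chains. -/
noncomputable def Lam {m : ℕ} (φ : G → Fin m → ℝ)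
    (hφ : ∀ g : G, ∃ C : ℝ, ∀ (x : G) (i : Fin m), |φ (x * g) i - φ x i| ≤ C) :
    ((Fin m → G) →₀ MM c) →ₗ[ℤ] QR :=
  (Finsupp.liftAddHom fun g => avgM c (Om φ g) (Om_bounded φ hφ g)).toIntLinearMap

lemma Lam_single {m : ℕ} (φ : G → Fin m → ℝ)
    (hφ : ∀ g : G, ∃ C : ℝ, ∀ (x : G) (i : Fin m), |φ (x * g) i - φ x i| ≤ C)
    (g : Fin m → G) (a : MM c) :
    Lam c φ hφ (Finsupp.single g a) = avgM c (Om φ g) (Om_bounded φ hφ g) a :=
  Finsupp.liftAddHom_apply_single _ _ _

/-- the pairing as a function of the weight. -/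
noncomputable def pairT (u : ZS c) : (G → ℝ) →+ QR where
  toFun w := QuotientAddGroup.mk fun r => (∑ x ∈ (u.1 r).support, (u.1 r x : ℝ) * w x) / c.a r
  map_zero' := by
    have h : (fun r => (∑ x ∈ (u.1 r).support, (u.1 r x : ℝ) * (0 : G → ℝ) x) / c.a r) =
        (0 : ℕ → ℝ) := by
      funext r
      simp
    rw [h]
    rfl
  map_add' v w := by
    have h : (fun r => (∑ x ∈ (u.1 r).support, (u.1 r x : ℝ) * (v + w) x) / c.a r) =
        (fun r => (∑ x ∈ (u.1 r).support, (u.1 r x : ℝ) * v x) / c.a r) +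
        (fun r => (∑ x ∈ (u.1 r).support, (u.1 r x : ℝ) * w x) / c.a r) := by
      funext r
      show (∑ x ∈ (u.1 r).support, (u.1 r x : ℝ) * (v x + w x)) / c.a r =
        (∑ x ∈ (u.1 r).support, (u.1 r x : ℝ) * v x) / c.a r +
        (∑ x ∈ (u.1 r).support, (u.1 r x : ℝ) * w x) / c.a r
      rw [← add_div, ← Finset.sum_add_distrib]
      simp only [mul_add]
    rw [h]
    rfl

/-- the functional vanishes on boundaries. -/
theorem Lam_d {m : ℕ} (φ : G → Fin m → ℝ)
    (hφ : ∀ g : G, ∃ C : ℝ, ∀ (x : G) (i : Fin m), |φ (x * g) i - φ x i| ≤ C)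
    (y : (Fin (m + 1) → G) →₀ MM c) :
    Lam c φ hφ (groupHomology.inhomogeneousChains.d (RM c) m y) = 0 := by
  induction y using Finsupp.induction_linear with
  | zero => rw [map_zero, map_zero]
  | add x y hx hy => rw [map_add, map_add, hx, hy, add_zero]
  | single g a =>
    obtain ⟨u, rfl⟩ := mk_surj c a
    have h1 := groupHomology.inhomogeneousChains.d_single (A := RM c) m g (mk c u)
    rw [h1, map_add, map_sum]
    have h3 : ∀ j : Fin (m + 1), Lam c φ hφ ((-1 : ℤ) ^ ((j : ℕ) + 1) •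
        (Finsupp.single (Fin.contractNth j (· * ·) g) (mk c u) : (Fin m → G) →₀ MM c)) =
        pairT c u (fun x => (-1 : ℝ) ^ ((j : ℕ) + 1) *
          Om φ (Fin.contractNth j (· * ·) g) x) := by
      intro j
      rw [map_smul, Lam_single, avgM_mk]
      have h4 : (fun x => (-1 : ℝ) ^ ((j : ℕ) + 1) * Om φ (Fin.contractNth j (· * ·) g) x) =
          ((-1 : ℤ) ^ ((j : ℕ) + 1)) • Om φ (Fin.contractNth j (· * ·) g) := by
        funext x
        rw [Pi.smul_apply, zsmul_eq_mul]
        push_cast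
        rfl
      rw [h4, map_zsmul]
      rfl
    have h4 : Lam c φ hφ (Finsupp.single (fun i => g i.succ)
        ((RM c).ρ (g 0)⁻¹ (mk c u)) : (Fin m → G) →₀ MM c) =
        pairT c u (fun x => Om φ (fun i : Fin m => g i.succ) ((g 0)⁻¹ * x)) := by
      have h5 : (RM c).ρ (g 0)⁻¹ (mk c u) = mk c (LtZ c (g 0)⁻¹ u) := repM_mk c _ _
      rw [h5, Lam_single, avgM_mk]
      show (QuotientAddGroup.mk _ : QR) = QuotientAddGroup.mk _
      congr 1
      funext r
      rw [LtZ_apply, pair_sum_Lt]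
    have h5 : (∑ j : Fin (m + 1), Lam c φ hφ ((-1 : ℤ) ^ ((j : ℕ) + 1) •
        (Finsupp.single (Fin.contractNth j (· * ·) g) (mk c u) : (Fin m → G) →₀ MM c))) =
        ∑ j : Fin (m + 1), pairT c u (fun x => (-1 : ℝ) ^ ((j : ℕ) + 1) *
          Om φ (Fin.contractNth j (· * ·) g) x) := Finset.sum_congr rfl fun j _ => h3 j
    refine (congrArg₂ (· + ·) h4 h5).trans ?_
    rw [← map_sum, ← map_add]
    have h6 : (fun x => Om φ (fun i : Fin m => g i.succ) ((g 0)⁻¹ * x)) +
        ∑ j : Fin (m + 1), (fun x => (-1 : ℝ) ^ ((j : ℕ) + 1) *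
          Om φ (Fin.contractNth j (· * ·) g) x) = 0 := by
      funext x
      rw [Pi.add_apply, Finset.sum_apply]
      exact Om_cocycle φ g x
    rw [h6, map_zero]

/-- a cycle detected by a functional which vanishes on boundaries gives a homology class. -/
theorem nontrivial_of_cycle' (M : Rep.{0} ℤ G) (n : ℕ)
    (z : (Fin n → G) →₀ M) (hz : ∀ m (h : n = m + 1),
      groupHomology.inhomogeneousChains.d M m (h ▸ z) = 0) {Q : Type} [AddCommGroup Q]
    (F : ((Fin n → G) →₀ M) →ₗ[ℤ] Q)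
    (hF : ∀ y : (Fin (n + 1) → G) →₀ M, F (groupHomology.inhomogeneousChains.d M n y) = 0)
    (hFz : F z ≠ 0) : Nontrivial (groupHomology M n) := by
  by_contra hcon
  rw [not_nontrivial_iff_subsingleton] at hcon
  have h0 : CategoryTheory.Limits.IsZero (groupHomology M n) :=
    ModuleCat.isZero_of_subsingleton _
  have h1 : (groupHomology.inhomogeneousChains M).ExactAt n :=
    (HomologicalComplex.exactAt_iff_isZero_homology _ _).2 h0
  have hex : ∃ y : (Fin (n + 1) → G) →₀ M, groupHomology.inhomogeneousChains.d M n y = z := by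
    cases n with
    | zero =>
      rw [HomologicalComplex.exactAt_iff' _ 1 0 0 (by simp) (by simp),
        CategoryTheory.ShortComplex.moduleCat_exact_iff] at h1
      obtain ⟨y, hy⟩ := h1 z (by
        have : (groupHomology.inhomogeneousChains M).d 0 0 = 0 :=
          HomologicalComplex.shape _ _ _ (by simp)
        show ((groupHomology.inhomogeneousChains M).d 0 0) z = 0
        rw [this]
        rfl)
      refine ⟨y, ?_⟩
      rw [← hy, ← groupHomology.inhomogeneousChains.d_def]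
      rfl
    | succ m =>
      rw [HomologicalComplex.exactAt_iff' _ (m + 2) (m + 1) m (by simp) (by simp),
        CategoryTheory.ShortComplex.moduleCat_exact_iff] at h1
      obtain ⟨y, hy⟩ := h1 z (by
        show ((groupHomology.inhomogeneousChains M).d (m + 1) m) z = 0
        rw [groupHomology.inhomogeneousChains.d_def]
        exact hz m rfl)
      refine ⟨y, ?_⟩
      rw [← hy, ← groupHomology.inhomogeneousChains.d_def]
      rfl
  obtain ⟨y, hy⟩ := hex
  exact hFz (by rw [← hy]; exact hF y)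

end Pool.Agent.LibQF83
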