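import Pool.Agent.LibQF83.Pair

/-!
The homology class of a quasi-flat.
-/

set_option autoImplicit false

namespace Pool.Agent.LibQF83

open Pool.Agent.LibZIS Filter Topology

variable {G : Type} [Group G] {m : ℕ}

/-- the coarse embedding attached to a quasi-flat. -/
noncomputable def ceQF {f : (Fin m → ℤ) → G} {φ : G → Fin m → ℝ} {η : ℝ} (h : QF f φ η) :
    CE G (Multiplicative (Fin m → ℤ)) where
  f b := f (Multiplicative.toAdd b)
  a r := ((r : ℝ) + 1) ^ m
  pos r := by positivity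
  steps b := h.steps (Multiplicative.toAdd b)
  inj g := h.fin g

/-- the image of the box of side `r + 1`. -/
noncomputable def zr (f : (Fin m → ℤ) → G) (r : ℕ) : (Fin m → G) →₀ (G →₀ ℤ) :=
  ∑ p ∈ box m r, ∑ π : Equiv.Perm (Fin m), (Equiv.Perm.sign π : ℤ) • elt f (fun i => π i) p

section

variable {f : (Fin m → ℤ) → G} {φ : G → Fin m → ℝ} {η : ℝ} (h : QF f φ η)

include h in
open Classical in
/-- bounded multiplicity. -/
lemma exists_mult : ∃ N : ℕ, ∀ (s : Finset (Fin m → ℤ)) (x : G),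
    (s.filter fun p => (f p)⁻¹ = x).card ≤ N := by
  refine ⟨(h.fin 1).toFinset.card, fun s x => ?_⟩
  rcases (s.filter fun p => (f p)⁻¹ = x).eq_empty_or_nonempty with he | ⟨p0, hp0⟩
  · rw [he, Finset.card_empty]
    exact Nat.zero_le _
  · rw [Finset.mem_filter] at hp0
    refine Finset.card_le_card_of_injOn (fun p => p - p0) (fun p hp => ?_)
      (fun p _ q _ hpq => sub_left_injective hpq)
    have hp1 := (Finset.mem_filter.1 (Finset.mem_coe.1 hp)).2
    rw [Finset.mem_coe, Set.Finite.mem_toFinset]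
    refine ⟨p0, ?_⟩
    have h1 : f p = f p0 := by
      rw [← inv_inj, hp1, hp0.2]
    rw [add_sub_cancel, h1, inv_mul_cancel]

lemma pv_step {n : ℕ} (d : Fin n → Fin m) (p : Fin m → ℤ) (i : Fin n) :
    pv d p ((i : ℕ) + 1) = pv d p i + ev (d i) := by
  classical
  unfold pv
  rw [add_assoc]
  congr 1
  rw [← Finset.add_sum_erase _ _ (Finset.mem_univ i), if_pos (Nat.lt_succ_self _), add_comm]
  congr 1
  rw [← Finset.add_sum_erase Finset.univ (fun j : Fin n => if (j : ℕ) < (i : ℕ) then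
    (ev (d j) : Fin m → ℤ) else 0) (Finset.mem_univ i), if_neg (lt_irrefl _), zero_add]
  refine Finset.sum_congr rfl fun j hj => ?_
  have hne : (j : ℕ) ≠ i := fun hh => (Finset.ne_of_mem_erase hj) (Fin.ext hh)
  by_cases h1 : (j : ℕ) < i
  · rw [if_pos h1, if_pos (by omega)]
  · rw [if_neg h1, if_neg (by omega)]

include h in
/-- the steps of the lattice paths lie in a finite set. -/
lemma exists_stp_finset {n : ℕ} : ∃ T : Finset (Fin n → G), ∀ (d : Fin n → Fin m)
    (p : Fin m → ℤ), stp f d p ∈ T := by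
  classical
  refine ⟨Fintype.piFinset fun _ => Finset.univ.biUnion fun e : Fin m =>
    (h.steps (ev e)).toFinset, fun d p => ?_⟩
  rw [Fintype.mem_piFinset]
  intro i
  rw [Finset.mem_biUnion]
  refine ⟨d i, Finset.mem_univ _, ?_⟩
  rw [Set.Finite.mem_toFinset]
  exact ⟨pv d p i, by rw [stp, pv_step]⟩

/-- assembling a sequence of chains. -/
lemma exists_asm {B : Type} [Group B] (c : CE G B) {n : ℕ} (y : ℕ → ((Fin n → G) →₀ (G →₀ ℤ)))
    (T : Finset (Fin n → G)) (hT : ∀ r, (y r).support ⊆ T)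
    (hy : ∀ g, (fun r => y r g) ∈ ZS c) :
    ∃ Y : (Fin n → G) →₀ ZS c, ∀ g r, (Y g).1 r = y r g := by
  classical
  refine ⟨Finsupp.onFinset T (fun g => ⟨fun r => y r g, hy g⟩) fun g hg => ?_, fun g r => rfl⟩
  by_contra hcon
  refine hg (Subtype.ext (funext fun r => ?_))
  show y r g = 0
  rw [← Finsupp.notMem_support_iff]
  exact fun hh => hcon (hT r hh)

/-- the sequence of the images of the boxes. -/
lemma exists_Z : ∃ Z : (Fin m → G) →₀ ZS (ceQF h), ∀ g r, (Z g).1 r = zr f r g := by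
  classical
  obtain ⟨T, hT⟩ := exists_stp_finset h (n := m)
  obtain ⟨N, hN⟩ := exists_mult h
  have hsum : ∀ r g, zr f r g = ∑ q ∈ box m r ×ˢ (Finset.univ : Finset (Equiv.Perm (Fin m))),
      Finsupp.single (f q.1)⁻¹ (if stp f (fun i => q.2 i) q.1 = g then
        (Equiv.Perm.sign q.2 : ℤ) else 0) := by
    intro r g
    rw [zr, Finsupp.finsetSum_apply, Finset.sum_product]
    refine Finset.sum_congr rfl fun p _ => ?_
    rw [Finsupp.finsetSum_apply]
    refine Finset.sum_congr rfl fun π _ => ?_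
    rw [Finsupp.smul_apply, elt, Finsupp.single_apply]
    split_ifs
    · rw [Finsupp.smul_single, smul_eq_mul, mul_one]
    · rw [smul_zero, Finsupp.single_zero]
  refine exists_asm (ceQF h) (fun r => zr f r) T (fun r g hg => ?_) (fun g => ?_)
  · by_contra hcon
    rw [Finsupp.mem_support_iff] at hg
    refine hg ?_
    rw [hsum]
    refine Finset.sum_eq_zero fun q _ => ?_
    rw [if_neg, Finsupp.single_zero]
    rintro rfl
    exact hcon (hT _ _)
  · have hB : ∀ r, (∀ x, |zr f r g x| ≤ ((N * m.factorial : ℕ) : ℤ)) ∧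
        ∑ x ∈ (zr f r g).support, (zr f r g x : ℝ) ^ 2 ≤ ((N * m.factorial : ℕ) : ℝ) *
          (box m r ×ˢ (Finset.univ : Finset (Equiv.Perm (Fin m)))).card := by
      intro r
      refine sum_single_bound (box m r ×ˢ (Finset.univ : Finset (Equiv.Perm (Fin m))))
        (fun q => (f q.1)⁻¹) (fun q => if stp f (fun i => q.2 i) q.1 = g then
        (Equiv.Perm.sign q.2 : ℤ) else 0) ?_ (N * m.factorial) ?_ _ (hsum r g)
      · rintro q -
        split_ifs
        · rcases Int.units_eq_one_or (Equiv.Perm.sign q.2) with h1 | h1 <;> rw [h1] <;> simp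
        · simp
      · intro x
        have h1 : (box m r ×ˢ (Finset.univ : Finset (Equiv.Perm (Fin m)))).filter
            (fun q => (f q.1)⁻¹ = x) = ((box m r).filter fun p => (f p)⁻¹ = x) ×ˢ
              (Finset.univ : Finset (Equiv.Perm (Fin m))) := by
          ext q
          simp [Finset.mem_filter, Finset.mem_product]
        rw [h1, Finset.card_product, Finset.card_univ, Fintype.card_perm, Fintype.card_fin]
        exact Nat.mul_le_mul_right _ (hN _ _)
    refine mem_ZS_of_bounds (ceQF h) _ {1}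
      (((N * m.factorial : ℕ) : ℝ) * ((m.factorial : ℕ) : ℝ)) (fun r x => ?_) (fun r x hx => ?_)
      (fun r => ?_)
    · have h1 := (hB r).1 x
      have h2 : |(zr f r g x : ℝ)| ≤ ((N * m.factorial : ℕ) : ℝ) := by
        exact_mod_cast h1
      refine h2.trans ?_
      have h3 : (1 : ℝ) ≤ ((m.factorial : ℕ) : ℝ) := by
        exact_mod_cast Nat.factorial_pos m
      exact le_mul_of_one_le_right (Nat.cast_nonneg _) h3
    · by_contra hcon
      refine hx ?_
      rw [hsum, Finsupp.finsetSum_apply]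
      refine Finset.sum_eq_zero fun q _ => ?_
      rw [Finsupp.single_apply, if_neg]
      rintro rfl
      exact hcon ⟨1, Finset.mem_singleton_self _, Multiplicative.ofAdd q.1, by
        rw [one_mul]; rfl⟩
    · refine (hB r).2.trans ?_
      rw [Finset.card_product, Finset.card_univ, Fintype.card_perm, Fintype.card_fin, card_box]
      show _ ≤ _ * ((r : ℝ) + 1) ^ m
      push_cast
      apply le_of_eq
      ring

/-- comparison of the differentials. -/
lemma dd_LtZ {B : Type} [Group B] (c : CE G B) {n : ℕ} (Y : (Fin (n + 1) → G) →₀ ZS c)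
    (g : Fin n → G) (r : ℕ) :
    (dd (LtZ c) n Y g).1 r = dd Lt n (Finsupp.mapRange (fun u : ZS c => u.1 r) rfl Y) g := by
  classical
  induction Y using Finsupp.induction_linear with
  | zero =>
    rw [map_zero, Finsupp.mapRange_zero, map_zero]
    rfl
  | add x y hx hy =>
    rw [map_add, Finsupp.mapRange_add (by intro a b; rfl), map_add, Finsupp.add_apply,
      Finsupp.add_apply, ← hx, ← hy]
    rfl
  | single g' a =>
    rw [Finsupp.mapRange_single, dd_single, dd_single, Finsupp.add_apply, Finsupp.add_apply,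
      Finsupp.finsetSum_apply, Finsupp.finsetSum_apply]
    have e1 : ∀ (x y : ZS c), (x + y).1 r = x.1 r + y.1 r := fun _ _ => rfl
    have e2 : ∀ (F : Fin (n + 1) → ZS c), (∑ j, F j).1 r = ∑ j, (F j).1 r := by
      intro F
      exact map_sum ((Pi.evalAddMonoidHom (fun _ : ℕ => G →₀ ℤ) r).comp (ZS c).subtype) F _
    have e3 : ∀ (g1 g2 : Fin n → G) (b : ZS c), ((Finsupp.single g1 b : (Fin n → G) →₀ ZS c)
        g2).1 r = (Finsupp.single g1 (b.1 r) : (Fin n → G) →₀ (G →₀ ℤ)) g2 := by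
      intro g1 g2 b
      rw [Finsupp.single_apply, Finsupp.single_apply]
      split_ifs
      · rfl
      · rfl
    rw [e1, e2, e3, LtZ_apply]
    congr 1
    refine Finset.sum_congr rfl fun j _ => ?_
    rw [Finsupp.smul_apply, Finsupp.smul_apply, ← e3]
    rfl

/-- comparison with the differential of the standard complex. -/
lemma d_map {B : Type} [Group B] (c : CE G B) {n : ℕ} (Y : (Fin (n + 1) → G) →₀ ZS c) :
    groupHomology.inhomogeneousChains.d (RM c) n
      (Finsupp.mapRange (mk c) (map_zero (QuotientAddGroup.mk' _)) Y : (Fin (n + 1) → G) →₀ MM c) =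
    (Finsupp.mapRange (mk c) (map_zero (QuotientAddGroup.mk' _)) (dd (LtZ c) n Y) :
      (Fin n → G) →₀ MM c) := by
  classical
  let P : ∀ k : ℕ, ((Fin k → G) →₀ ZS c) →+ ((Fin k → G) →₀ MM c) := fun k =>
    Finsupp.mapRange.addMonoidHom (QuotientAddGroup.mk' (toV c).ker)
  have hP : ∀ (k : ℕ) (g : Fin k → G) (a : ZS c), P k (Finsupp.single g a) =
      Finsupp.single g (mk c a) := by
    intro k g a
    exact Finsupp.mapRange_single (hf := map_zero (QuotientAddGroup.mk' (toV c).ker))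
  suffices hs : ∀ Y : (Fin (n + 1) → G) →₀ ZS c,
      groupHomology.inhomogeneousChains.d (RM c) n (P (n + 1) Y) = P n (dd (LtZ c) n Y) from hs Y
  intro Y
  induction Y using Finsupp.induction_linear with
  | zero =>
    have h1 : P (n + 1) 0 = 0 := map_zero _
    have h2 : P n (dd (LtZ c) n 0) = 0 := by
      rw [map_zero (dd (LtZ c) n)]
      exact map_zero _
    rw [h1, h2]
    exact map_zero (groupHomology.inhomogeneousChains.d (RM c) n).hom
  | add x y hx hy =>
    have h1 : P (n + 1) (x + y) = P (n + 1) x + P (n + 1) y := map_add _ _ _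
    have h2 : P n (dd (LtZ c) n (x + y)) = P n (dd (LtZ c) n x) + P n (dd (LtZ c) n y) := by
      rw [map_add (dd (LtZ c) n) x y]
      exact map_add _ _ _
    rw [h1, h2, ← hx, ← hy]
    exact map_add _ _ _
  | single g' a =>
    rw [hP, dd_single, map_add, map_sum, hP]
    refine (groupHomology.inhomogeneousChains.d_single (A := RM c) n g' (mk c a)).trans ?_
    congr 1
    refine Finset.sum_congr rfl fun j _ => ?_
    rw [map_zsmul, hP]

end

/-- the boundary of the image of a box, as a sum of unit masses. -/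
lemma dd_zr {n : ℕ} (f : (Fin (n + 1) → ℤ) → G) (r : ℕ) (g : Fin n → G) :
    ∃ U : Equiv.Perm (Fin (n + 1)) × Bool → Finset (Fin (n + 1) → ℤ),
      (∀ j, (U j).card ≤ (r + 1) ^ n) ∧
      dd Lt n (zr f r) g = ∑ j : Equiv.Perm (Fin (n + 1)) × Bool, ∑ p ∈ U j,
        Finsupp.single (f p)⁻¹ (if j.2 then (Equiv.Perm.sign j.1 : ℤ) else
          -(Equiv.Perm.sign j.1 : ℤ)) := by
  classical
  choose UU LL hU hL hs using fun i : Fin (n + 1) => sum_box_sub (r := r) i
  have h1 : dd Lt n (zr f r) = ∑ π : Equiv.Perm (Fin (n + 1)), (Equiv.Perm.sign π : ℤ) •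
      (∑ p ∈ UU (π 0), elt f (fun j : Fin n => π j.succ) p -
        ∑ p ∈ LL (π 0), elt f (fun j : Fin n => π j.succ) p) := by
    rw [zr, map_sum]
    rw [Finset.sum_congr rfl fun p _ => dd_cell f p]
    rw [Finset.sum_comm]
    refine Finset.sum_congr rfl fun π _ => ?_
    rw [← Finset.smul_sum]
    congr 1
    exact hs (π 0) (fun p => elt f (fun j : Fin n => π j.succ) p)
  have h2 : ∀ (π : Equiv.Perm (Fin (n + 1))) (S : Finset (Fin (n + 1) → ℤ)),
      (∑ p ∈ S, elt f (fun j : Fin n => π j.succ) p) g =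
        ∑ p ∈ S.filter (fun p => stp f (fun j : Fin n => π j.succ) p = g),
          Finsupp.single (f p)⁻¹ (1 : ℤ) := by
    intro π S
    rw [Finsupp.finset_sum_apply, Finset.sum_filter]
    refine Finset.sum_congr rfl fun p _ => ?_
    rw [elt, Finsupp.single_apply]
  refine ⟨fun j => (if j.2 then UU (j.1 0) else LL (j.1 0)).filter
    (fun p => stp f (fun i : Fin n => j.1 i.succ) p = g), fun j => ?_, ?_⟩
  · refine (Finset.card_filter_le _ _).trans ?_
    split_ifs
    · exact hU _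
    · exact hL _
  · rw [h1, Finsupp.finset_sum_apply, Fintype.sum_prod_type]
    refine Finset.sum_congr rfl fun π _ => ?_
    rw [Fintype.sum_bool]
    rw [Finsupp.smul_apply, Finsupp.sub_apply, h2, h2, smul_sub, Finset.smul_sum, Finset.smul_sum,
      sub_eq_add_neg, ← Finset.sum_neg_distrib]
    simp only [if_true, Bool.false_eq_true, if_false]
    congr 1
    · refine Finset.sum_congr rfl fun p _ => ?_
      rw [Finsupp.smul_single, smul_eq_mul, mul_one]
    · refine Finset.sum_congr rfl fun p _ => ?_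
      rw [Finsupp.smul_single, smul_eq_mul, mul_one, Finsupp.single_neg]

/-- the boundary is a null sequence. -/
theorem bd_null {n : ℕ} {f : (Fin (n + 1) → ℤ) → G} {φ : G → Fin (n + 1) → ℝ} {η : ℝ}
    (h : QF f φ η) (Z : (Fin (n + 1) → G) →₀ ZS (ceQF h))
    (hZ : ∀ g r, (Z g).1 r = zr f r g) (g : Fin n → G) :
    mk (ceQF h) (dd (LtZ (ceQF h)) n Z g) = 0 := by
  classical
  obtain ⟨N, hN⟩ := exists_mult h
  have hmr : ∀ r, Finsupp.mapRange (fun u : ZS (ceQF h) => u.1 r) rfl Z = zr f r := by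
    intro r
    refine Finsupp.ext fun g' => ?_
    rw [Finsupp.mapRange_apply]
    exact hZ g' r
  set J : ℕ := Fintype.card (Equiv.Perm (Fin (n + 1)) × Bool) with hJ
  have key : ∀ r, (∑ x ∈ ((dd (LtZ (ceQF h)) n Z g).1 r).support,
      ((dd (LtZ (ceQF h)) n Z g).1 r x : ℝ) ^ 2) ≤ (J * N : ℕ) * ((J * (r + 1) ^ n : ℕ) : ℝ) := by
    intro r
    rw [dd_LtZ, hmr]
    obtain ⟨U, hU, hd⟩ := dd_zr f r g
    set s : Finset (Σ _ : Equiv.Perm (Fin (n + 1)) × Bool, (Fin (n + 1) → ℤ)) :=
      Finset.univ.sigma U with hs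
    have hu : dd Lt n (zr f r) g = ∑ i ∈ s, Finsupp.single (f i.2)⁻¹
        (if i.1.2 then (Equiv.Perm.sign i.1.1 : ℤ) else -(Equiv.Perm.sign i.1.1 : ℤ)) := by
      rw [hd, hs, Finset.sum_sigma]
    have hcard : s.card ≤ J * (r + 1) ^ n := by
      rw [hs, Finset.card_sigma]
      refine (Finset.sum_le_sum fun j _ => hU j).trans ?_
      rw [Finset.sum_const, Finset.card_univ, smul_eq_mul]
    have hb := (sum_single_bound s (fun i => (f i.2)⁻¹)
      (fun i => if i.1.2 then (Equiv.Perm.sign i.1.1 : ℤ) else -(Equiv.Perm.sign i.1.1 : ℤ))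
      (fun i _ => ?_) (J * N) (fun x => ?_) _ hu).2
    · refine hb.trans ?_
      have : (s.card : ℝ) ≤ ((J * (r + 1) ^ n : ℕ) : ℝ) := by exact_mod_cast hcard
      exact mul_le_mul_of_nonneg_left this (by positivity)
    · show _
      rcases Int.units_eq_one_or (Equiv.Perm.sign i.1.1) with h1 | h1 <;> rw [h1] <;>
        split_ifs <;> simp
    · have h1 : s.filter (fun i => (f i.2)⁻¹ = x) =
          Finset.univ.sigma fun j => (U j).filter fun p => (f p)⁻¹ = x := by
        ext i
        simp [hs, Finset.mem_sigma]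
      rw [h1, Finset.card_sigma]
      refine (Finset.sum_le_sum fun j _ => hN (U j) x).trans ?_
      rw [Finset.sum_const, Finset.card_univ, smul_eq_mul]
  refine mk_eq_zero _ _ ?_
  have hlim : Tendsto (fun r : ℕ => ((J * N : ℕ) : ℝ) * (J : ℝ) * (1 / ((r : ℝ) + 1))) atTop
      (𝓝 0) := by
    have := tendsto_one_div_add_atTop_nhds_zero_nat (𝕜 := ℝ)
    simpa using this.const_mul (((J * N : ℕ) : ℝ) * (J : ℝ))
  refine squeeze_zero (fun r => ?_) (fun r => ?_) hlim
  · have h1 := (ceQF h).pos r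
    exact div_nonneg (Finset.sum_nonneg fun _ _ => by positivity) h1.le
  · have h1 := (ceQF h).pos r
    rw [div_le_iff₀ h1]
    refine (key r).trans ?_
    show _ ≤ _ * ((r : ℝ) + 1) ^ (n + 1)
    have h2 : (0 : ℝ) < (r : ℝ) + 1 := by positivity
    push_cast
    rw [pow_succ]
    apply le_of_eq
    field_simp

/-- products of perturbed numbers. -/
lemma abs_prod_sub_prod {ι : Type} (s : Finset ι) (a b : ι → ℝ) (t : ℝ) (ht : 0 ≤ t)
    (ha : ∀ i ∈ s, |a i| ≤ 1) (hb : ∀ i ∈ s, |b i - a i| ≤ t) :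
    |∏ i ∈ s, b i - ∏ i ∈ s, a i| ≤ (1 + t) ^ s.card - 1 := by
  classical
  induction s using Finset.induction_on with
  | empty => simp
  | @insert i s hi ih =>
    rw [Finset.prod_insert hi, Finset.prod_insert hi, Finset.card_insert_of_notMem hi]
    have h1 := ih (fun j hj => ha j (Finset.mem_insert_of_mem hj))
      (fun j hj => hb j (Finset.mem_insert_of_mem hj))
    have h2 : |∏ j ∈ s, a j| ≤ 1 := by
      rw [Finset.abs_prod]
      exact Finset.prod_le_one (fun _ _ => abs_nonneg _)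
        (fun j hj => ha j (Finset.mem_insert_of_mem hj))
    have h3 := ha i (Finset.mem_insert_self _ _)
    have h4 := hb i (Finset.mem_insert_self _ _)
    have h5 : |b i| ≤ 1 + t := by
      calc |b i| = |a i + (b i - a i)| := by congr 1; ring
        _ ≤ |a i| + |b i - a i| := abs_add_le _ _
        _ ≤ 1 + t := add_le_add h3 h4
    calc |b i * ∏ j ∈ s, b j - a i * ∏ j ∈ s, a j|
        = |b i * (∏ j ∈ s, b j - ∏ j ∈ s, a j) + (b i - a i) * ∏ j ∈ s, a j| := by
          congr 1; ring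
      _ ≤ |b i * (∏ j ∈ s, b j - ∏ j ∈ s, a j)| + |(b i - a i) * ∏ j ∈ s, a j| := abs_add_le _ _
      _ = |b i| * |∏ j ∈ s, b j - ∏ j ∈ s, a j| + |b i - a i| * |∏ j ∈ s, a j| := by
          rw [abs_mul, abs_mul]
      _ ≤ (1 + t) * ((1 + t) ^ s.card - 1) + t * 1 := by
          refine add_le_add (mul_le_mul h5 h1 (abs_nonneg _) (by linarith))
            (mul_le_mul h4 h2 (abs_nonneg _) ht)
      _ = (1 + t) ^ (s.card + 1) - 1 := by ring

lemma pv_succ {n : ℕ} (d : Fin n → Fin m) (p : Fin m → ℤ) (i : Fin n) :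
    pv d p ((i : ℕ) + 1) = pv d p i + ev (d i) := by
  classical
  unfold pv
  rw [add_assoc]
  congr 1
  have h1 : ∀ j : Fin n, (if (j : ℕ) < (i : ℕ) + 1 then (ev (d j) : Fin m → ℤ) else 0) =
      (if (j : ℕ) < i then ev (d j) else 0) + if j = i then ev (d i) else 0 := by
    intro j
    rcases lt_trichotomy (j : ℕ) (i : ℕ) with h | h | h
    · rw [if_pos (by omega), if_pos h, if_neg (fun h' => by rw [h'] at h; omega), add_zero]
    · have : j = i := Fin.ext h
      subst this
      rw [if_pos (by omega), if_neg (by omega), if_pos rfl, zero_add]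
    · rw [if_neg (by omega), if_neg (by omega), if_neg (fun h' => by rw [h'] at h; omega),
        add_zero]
  rw [Finset.sum_congr rfl fun j _ => h1 j, Finset.sum_add_distrib, Finset.sum_ite_eq' Finset.univ i,
    if_pos (Finset.mem_univ _)]

/-- the value of the pairing at a point. -/
theorem sum_Om_ge {f : (Fin m → ℤ) → G} {φ : G → Fin m → ℝ} {η : ℝ} (h : QF f φ η)
    (hη : (m.factorial : ℝ) * ((1 + 2 * η) ^ m - 1) ≤ 1 / 2) (hη0 : 0 ≤ η) (p : Fin m → ℤ) :
    1 / 2 ≤ ∑ π : Equiv.Perm (Fin m), ((Equiv.Perm.sign π : ℤ) : ℝ) *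
      Om φ (stp f (fun i => π i) p) (f p)⁻¹ := by
  classical
  set a : Equiv.Perm (Fin m) → Fin m → ℝ := fun π i => if π i = i then 1 else 0 with ha
  have hOm : ∀ π : Equiv.Perm (Fin m), |Om φ (stp f (fun i => π i) p) (f p)⁻¹ - ∏ i, a π i| ≤
      (1 + 2 * η) ^ m - 1 := by
    intro π
    have h1 := abs_prod_sub_prod (Finset.univ : Finset (Fin m)) (a π)
      (fun i => φ ((f p)⁻¹⁻¹ * Fin.partialProd (stp f (fun i => π i) p) i.succ) i -
        φ ((f p)⁻¹⁻¹ * Fin.partialProd (stp f (fun i => π i) p) i.castSucc) i) (2 * η)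
      (by linarith) (fun i _ => by rw [ha]; simp only; split_ifs <;> simp) (fun i _ => ?_)
    · rw [Finset.card_univ, Fintype.card_fin] at h1
      exact h1
    · show _
      rw [partialProd_stp, partialProd_stp]
      have h2 : ((i.succ : Fin (m + 1)) : ℕ) = (i : ℕ) + 1 := Fin.val_succ i
      have h3 : ((i.castSucc : Fin (m + 1)) : ℕ) = (i : ℕ) := Fin.val_castSucc i
      rw [h2, h3, pv_succ]
      have h4 := h.inv (pv (fun i => π i) p i + ev (π i)) i
      have h5 := h.inv (pv (fun i => π i) p i) i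
      have h6 : (((pv (fun i => π i) p (i : ℕ) + ev (π i)) i : ℤ) : ℝ) =
          ((pv (fun i => π i) p (i : ℕ) i : ℤ) : ℝ) + a π i := by
        rw [Pi.add_apply, ha, ev]
        push_cast
        congr 1
        by_cases hπ : π i = i
        · simp only [if_pos hπ]
          rw [hπ, Pi.single_eq_same]
          norm_num
        · simp only [if_neg hπ]
          rw [Pi.single_eq_of_ne (fun h' => hπ h'.symm)]
          norm_num
      rw [h6] at h4
      rw [abs_le] at h4 h5 ⊢
      constructor <;> linarith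
  have h1 : ∏ i, a 1 i = 1 := by
    refine Finset.prod_eq_one fun i _ => ?_
    rw [ha]; simp
  have h2 : ∀ π : Equiv.Perm (Fin m), π ≠ 1 → ∏ i, a π i = 0 := by
    intro π hπ
    obtain ⟨i, hi⟩ : ∃ i, π i ≠ i := by
      by_contra hcon
      push Not at hcon
      exact hπ (Equiv.ext hcon)
    refine Finset.prod_eq_zero (Finset.mem_univ i) ?_
    rw [ha]
    simp only [if_neg hi]
  have h3 : ∑ π : Equiv.Perm (Fin m), ((Equiv.Perm.sign π : ℤ) : ℝ) * ∏ i, a π i = 1 := by
    rw [Finset.sum_eq_single 1]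
    · rw [h1]; simp
    · intro π _ hπ
      rw [h2 π hπ, mul_zero]
    · intro h'
      exact absurd (Finset.mem_univ _) h'
  have h4 : |∑ π : Equiv.Perm (Fin m), ((Equiv.Perm.sign π : ℤ) : ℝ) *
      Om φ (stp f (fun i => π i) p) (f p)⁻¹ -
      ∑ π : Equiv.Perm (Fin m), ((Equiv.Perm.sign π : ℤ) : ℝ) * ∏ i, a π i| ≤ 1 / 2 := by
    rw [← Finset.sum_sub_distrib]
    refine (Finset.abs_sum_le_sum_abs _ _).trans ?_
    refine le_trans (Finset.sum_le_sum fun π _ => ?_) (b := ∑ _π : Equiv.Perm (Fin m),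
      ((1 + 2 * η) ^ m - 1)) ?_
    · rw [← mul_sub, abs_mul]
      have h5 : |((Equiv.Perm.sign π : ℤ) : ℝ)| = 1 := by
        rcases Int.units_eq_one_or (Equiv.Perm.sign π) with h6 | h6 <;> rw [h6] <;> simp
      rw [h5, one_mul]
      exact hOm π
    · rw [Finset.sum_const, Finset.card_univ, Fintype.card_perm, Fintype.card_fin, nsmul_eq_mul]
      exact hη
  rw [h3, abs_le] at h4
  linarith [h4.1]

/-- the total pairing of a chain with the cocycle. -/
noncomputable def Psi (φ : G → Fin m → ℝ) : ((Fin m → G) →₀ (G →₀ ℤ)) →+ ℝ :=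
  Finsupp.liftAddHom fun g => Finsupp.liftAddHom fun x =>
    (AddMonoidHom.mulRight (Om φ g x)).comp (Int.castAddHom ℝ)

lemma Psi_single (φ : G → Fin m → ℝ) (g : Fin m → G) (u : G →₀ ℤ) :
    Psi φ (Finsupp.single g u) = ∑ x ∈ u.support, (u x : ℝ) * Om φ g x := by
  rw [Psi, Finsupp.liftAddHom_apply_single, Finsupp.liftAddHom_apply, Finsupp.sum]
  rfl

lemma Psi_elt (f : (Fin m → ℤ) → G) (φ : G → Fin m → ℝ) (d : Fin m → Fin m) (p : Fin m → ℤ) :
    Psi φ (elt f d p) = Om φ (stp f d p) (f p)⁻¹ := by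
  rw [elt, Psi, Finsupp.liftAddHom_apply_single, Finsupp.liftAddHom_apply_single]
  show ((1 : ℤ) : ℝ) * _ = _
  rw [Int.cast_one, one_mul]

/-- the functional in terms of the sequence of pairings. -/
lemma Lam_mapRange {B : Type} [Group B] (c : CE G B) (φ : G → Fin m → ℝ)
    (hφ : ∀ g : G, ∃ C : ℝ, ∀ (x : G) (i : Fin m), |φ (x * g) i - φ x i| ≤ C)
    (Y : (Fin m → G) →₀ ZS c) :
    Lam c φ hφ (Finsupp.mapRange (mk c) (map_zero (QuotientAddGroup.mk' _)) Y) =
      QuotientAddGroup.mk fun r =>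
        Psi φ (Finsupp.mapRange (fun u : ZS c => u.1 r) rfl Y) / c.a r := by
  induction Y using Finsupp.induction_linear with
  | zero =>
    rw [Finsupp.mapRange_zero, map_zero]
    symm
    have h1 : (fun r => Psi φ (Finsupp.mapRange (fun u : ZS c => u.1 r) rfl
        (0 : (Fin m → G) →₀ ZS c)) / c.a r) = (0 : ℕ → ℝ) := by
      funext r
      rw [Finsupp.mapRange_zero, map_zero, zero_div]
      rfl
    rw [h1]
    rfl
  | add Y Y' hY hY' =>
    have h1 : Finsupp.mapRange (mk c) (map_zero (QuotientAddGroup.mk' _)) (Y + Y') =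
        Finsupp.mapRange (mk c) (map_zero (QuotientAddGroup.mk' _)) Y +
        Finsupp.mapRange (mk c) (map_zero (QuotientAddGroup.mk' _)) Y' :=
      Finsupp.mapRange_add (fun _ _ => rfl) _ _
    rw [h1, map_add, hY, hY', ← QuotientAddGroup.mk_add]
    congr 1
    funext r
    have h2 : Finsupp.mapRange (fun u : ZS c => u.1 r) rfl (Y + Y') =
        Finsupp.mapRange (fun u : ZS c => u.1 r) rfl Y +
        Finsupp.mapRange (fun u : ZS c => u.1 r) rfl Y' :=
      Finsupp.mapRange_add (fun _ _ => rfl) _ _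
    rw [h2, map_add, add_div]
    rfl
  | single g u =>
    rw [Finsupp.mapRange_single]
    have h1 : Lam c φ hφ (Finsupp.single g (mk c u)) =
        avgM c (Om φ g) (Om_bounded φ hφ g) (mk c u) := by
      show Finsupp.liftAddHom _ _ = _
      rw [Finsupp.liftAddHom_apply_single]
    rw [h1, avgM_mk]
    congr 1
    funext r
    rw [Finsupp.mapRange_single, Psi_single]

/-- the pairing does not vanish. -/
theorem Lam_ne {f : (Fin m → ℤ) → G} {φ : G → Fin m → ℝ} {η : ℝ} (h : QF f φ η)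
    (hη : (m.factorial : ℝ) * ((1 + 2 * η) ^ m - 1) ≤ 1 / 2) (hη0 : 0 ≤ η)
    (Z : (Fin m → G) →₀ ZS (ceQF h)) (hZ : ∀ g r, (Z g).1 r = zr f r g) :
    Lam (ceQF h) φ h.lip
      (Finsupp.mapRange (mk (ceQF h)) (map_zero (QuotientAddGroup.mk' _)) Z) ≠ 0 := by
  intro h0
  rw [Lam_mapRange] at h0
  have hlim := (QuotientAddGroup.eq_zero_iff _).1 h0
  have h1 : ∀ r, 1 / 2 ≤ Psi φ (Finsupp.mapRange (fun u : ZS (ceQF h) => u.1 r) rfl Z) /
      (ceQF h).a r := by
    intro r
    have hmr : Finsupp.mapRange (fun u : ZS (ceQF h) => u.1 r) rfl Z = zr f r := by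
      refine Finsupp.ext fun g' => ?_
      rw [Finsupp.mapRange_apply]
      exact hZ g' r
    rw [hmr, le_div_iff₀ ((ceQF h).pos r), zr, map_sum]
    have h2 : ∀ p ∈ box m r, 1 / 2 ≤ Psi φ (∑ π : Equiv.Perm (Fin m),
        (Equiv.Perm.sign π : ℤ) • elt f (fun i => π i) p) := by
      intro p _
      rw [map_sum]
      refine (sum_Om_ge h hη hη0 p).trans (le_of_eq ?_)
      refine Finset.sum_congr rfl fun π _ => ?_
      rw [map_zsmul, Psi_elt, zsmul_eq_mul]
    have h3 := Finset.sum_le_sum h2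
    rw [Finset.sum_const, card_box, nsmul_eq_mul] at h3
    refine le_trans (le_of_eq ?_) h3
    show 1 / 2 * ((r : ℝ) + 1) ^ m = _
    push_cast
    ring
  have h2 : Tendsto (fun r => Psi φ (Finsupp.mapRange (fun u : ZS (ceQF h) => u.1 r) rfl Z) /
      (ceQF h).a r) atTop (𝓝 0) := hlim
  have h3 := ge_of_tendsto' h2 h1
  norm_num at h3

/-- the homology of the asymptotic module. -/
theorem nontrivial_homology {f : (Fin m → ℤ) → G} {φ : G → Fin m → ℝ} {η : ℝ} (h : QF f φ η)
    (hη : (m.factorial : ℝ) * ((1 + 2 * η) ^ m - 1) ≤ 1 / 2) (hη0 : 0 ≤ η) :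
    Nontrivial (groupHomology (RM (ceQF h)) m) := by
  obtain ⟨Z, hZ⟩ := exists_Z h
  refine nontrivial_of_cycle' (RM (ceQF h)) m
    (Finsupp.mapRange (mk (ceQF h)) (map_zero (QuotientAddGroup.mk' _)) Z) ?_
    (Lam (ceQF h) φ h.lip) (Lam_d (ceQF h) φ h.lip) (Lam_ne h hη hη0 Z hZ)
  rintro n rfl
  show groupHomology.inhomogeneousChains.d (RM (ceQF h)) n
    (Finsupp.mapRange (mk (ceQF h)) (map_zero (QuotientAddGroup.mk' _)) Z) = 0
  rw [d_map]
  refine Finsupp.ext fun g => ?_
  rw [Finsupp.mapRange_apply]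
  exact bd_null h Z hZ g

end Pool.Agent.LibQF83
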