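import Pool.Agent.LibQF83.Seq
import Pool.Agent.LibQF83.Path

/-!
Integer valued concentrated sequences, their chains, and the definitions used for the homology
class of a quasi-flat.
-/

set_option autoImplicit false

namespace Pool.Agent.LibQF83

open Pool.Agent.LibZIS Filter Topology

variable {G B : Type} [Group G] [Group B] (c : CE G B)

/-! ### the asymptotic module -/

/-- integer valued concentrated sequences. -/
def ZS : AddSubgroup (ℕ → G →₀ ℤ) where
  carrier := {u | ∃ v : BB G, Loc c v ∧ ∀ r x, v r x * (√(c.a r) : ℝ) = (u r x : ℤ)}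
  add_mem' := by
    rintro u u' ⟨v, hv, h⟩ ⟨v', hv', h'⟩
    refine ⟨v + v', hv.add c hv', fun r x => ?_⟩
    show (v r x + v' r x) * _ = ((u r x + u' r x : ℤ) : ℂ)
    rw [add_mul, h, h']
    push_cast
    rfl
  zero_mem' := ⟨0, (locS c).zero_mem, fun r x => by
    show (0 : ℂ) * _ = ((0 : ℤ) : ℂ)
    simp⟩
  neg_mem' := by
    rintro u ⟨v, hv, h⟩
    refine ⟨-v, (locS c).neg_mem hv, fun r x => ?_⟩
    show (-(v r x)) * _ = ((-(u r x) : ℤ) : ℂ)
    rw [neg_mul, h]
    push_cast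
    rfl

lemma sqrt_ne (r : ℕ) : ((√(c.a r) : ℝ) : ℂ) ≠ 0 := by
  exact_mod_cast (Real.sqrt_pos.2 (c.pos r)).ne'

/-- the rescaled sequence. -/
noncomputable def rsc (u : ZS c) : BB G := u.2.choose

lemma rsc_loc (u : ZS c) : Loc c (rsc c u) := u.2.choose_spec.1

lemma rsc_apply (u : ZS c) (r : ℕ) (x : G) : rsc c u r x * (√(c.a r) : ℝ) = (u.1 r x : ℤ) :=
  u.2.choose_spec.2 r x

lemma rsc_eq {u : ZS c} {v : BB G} (h : ∀ r x, v r x * (√(c.a r) : ℝ) = (u.1 r x : ℤ)) :
    rsc c u = v := by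
  refine lp.ext (funext fun r => lp.ext (funext fun x => ?_))
  exact mul_right_cancel₀ (sqrt_ne c r) ((rsc_apply c u r x).trans (h r x).symm)

/-- the map to the asymptotic Banach space. -/
noncomputable def toV : ZS c →+ V c where
  toFun u := cl c (rsc c u) (rsc_loc c u)
  map_zero' := by
    have h : rsc c (0 : ZS c) = 0 := rsc_eq c fun r x => by
      show (0 : ℂ) * _ = ((0 : ℤ) : ℂ)
      simp
    refine (cl_eq_iff c _ ((locS c).zero_mem)).2 ?_
    rw [h]
    simp
  map_add' u v := by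
    have h : rsc c (u + v) = rsc c u + rsc c v := rsc_eq c fun r x => by
      show (rsc c u r x + rsc c v r x) * _ = ((u.1 r x + v.1 r x : ℤ) : ℂ)
      rw [add_mul, rsc_apply, rsc_apply]
      push_cast
      rfl
    rw [cl_add]
    refine (cl_eq_iff c _ _).2 ?_
    rw [h]
    simp

/-- the asymptotic module. -/
abbrev MM : Type := ZS c ⧸ (toV c).ker

/-- the class of an integer valued sequence. -/
noncomputable def mk (u : ZS c) : MM c := QuotientAddGroup.mk u

lemma mk_surj (x : MM c) : ∃ u, mk c u = x := QuotientAddGroup.mk_surjective x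

/-- a sequence of finitely supported functions with suitable bounds. -/
lemma mem_ZS_of_bounds (u : ℕ → G →₀ ℤ) (K : Finset G) (C : ℝ)
    (h1 : ∀ r x, |(u r x : ℝ)| ≤ C) (h2 : ∀ r x, u r x ≠ 0 → x ∈ KS c K)
    (h3 : ∀ r, ∑ x ∈ (u r).support, (u r x : ℝ) ^ 2 ≤ C * c.a r) : u ∈ ZS c := by
  have hC : 0 ≤ C := (abs_nonneg _).trans (h1 0 1)
  set w : ℕ → G → ℂ := fun r x => (u r x : ℂ) / ((√(c.a r) : ℝ) : ℂ) with hw
  have hw0 : ∀ r, ∀ x ∉ (u r).support, ‖w r x‖ ^ 2 = 0 := by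
    intro r x hx
    rw [Finsupp.notMem_support_iff] at hx
    simp [hw, hx]
  have hw2 : ∀ r x, ‖w r x‖ ^ 2 = (u r x : ℝ) ^ 2 / c.a r := by
    intro r x
    have e1 : ‖(u r x : ℂ)‖ = |(u r x : ℝ)| := by
      exact Complex.norm_intCast _
    rw [hw]
    simp only
    rw [norm_div, e1, Complex.norm_real, Real.norm_eq_abs, abs_of_nonneg (Real.sqrt_nonneg _),
      div_pow, sq_abs, Real.sq_sqrt (c.pos r).le]
  have hwb : ∀ r, (Summable fun x => ‖w r x‖ ^ 2) ∧ ∑' x, ‖w r x‖ ^ 2 ≤ (C + 1) ^ 2 := by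
    intro r
    refine ⟨summable_of_ne_finset_zero (s := (u r).support) (hw0 r), ?_⟩
    rw [tsum_eq_sum (s := (u r).support) (hw0 r)]
    calc ∑ x ∈ (u r).support, ‖w r x‖ ^ 2 = (∑ x ∈ (u r).support, (u r x : ℝ) ^ 2) / c.a r := by
          rw [Finset.sum_div]
          exact Finset.sum_congr rfl fun x _ => hw2 r x
      _ ≤ C := by rw [div_le_iff₀ (c.pos r)]; exact h3 r
      _ ≤ (C + 1) ^ 2 := by nlinarith
  refine ⟨mkB w (C + 1) hwb (by linarith), fun ε hε => ⟨K, C, mkB w (C + 1) hwb (by linarith),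
    fun r x => ⟨?_, fun hx => h2 r x fun h0 => hx ?_⟩, ?_⟩, fun r x => ?_⟩
  · rw [mkB_apply]
    have e1 : ‖(u r x : ℂ)‖ = |(u r x : ℝ)| := by
      exact Complex.norm_intCast _
    rw [hw]
    simp only
    rw [norm_div, e1, Complex.norm_real, Real.norm_eq_abs, abs_of_nonneg (Real.sqrt_nonneg _),
      div_mul_cancel₀ _ (Real.sqrt_pos.2 (c.pos r)).ne']
    exact h1 r x
  · rw [mkB_apply, hw]
    simp only
    rw [h0]
    simp
  · refine Eventually.of_forall fun r => ?_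
    rw [sub_self, norm_zero]
    exact hε.le
  · rw [mkB_apply, hw]
    simp only
    rw [div_mul_cancel₀ _ (sqrt_ne c r)]

/-- the norm of the rescaled sequence. -/
lemma norm_rsc (u : ZS c) (r : ℕ) : ‖rsc c u r‖ ^ 2 =
    (∑ x ∈ (u.1 r).support, (u.1 r x : ℝ) ^ 2) / c.a r := by
  have h1 : ∀ x, ‖rsc c u r x‖ ^ 2 = (u.1 r x : ℝ) ^ 2 / c.a r := by
    intro x
    have h2 := rsc_apply c u r x
    have h3 : rsc c u r x = (u.1 r x : ℂ) / ((√(c.a r) : ℝ) : ℂ) := by
      rw [eq_div_iff (sqrt_ne c r)]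
      exact h2
    have e1 : ‖(u.1 r x : ℂ)‖ = |(u.1 r x : ℝ)| := by
      exact Complex.norm_intCast _
    rw [h3, norm_div, e1, Complex.norm_real, Real.norm_eq_abs, abs_of_nonneg (Real.sqrt_nonneg _),
      div_pow, sq_abs, Real.sq_sqrt (c.pos r).le]
  rw [Raw.norm_sq_eq, tsum_eq_sum (s := (u.1 r).support) (fun x hx => ?_), Finset.sum_div]
  · exact Finset.sum_congr rfl fun x _ => h1 x
  · rw [Finsupp.notMem_support_iff] at hx
    rw [h1, hx]
    simp

/-- the kernel. -/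
lemma mem_ker_iff (u : ZS c) : u ∈ (toV c).ker ↔ Tendsto (fun r => ‖rsc c u r‖) atTop (𝓝 0) := by
  rw [AddMonoidHom.mem_ker]
  have h0 : (0 : V c) = cl c 0 (locS c).zero_mem := rfl
  show cl c (rsc c u) (rsc_loc c u) = 0 ↔ _
  rw [h0, cl_eq_iff]
  have h1 : (fun r => ‖rsc c u r - (0 : BB G) r‖) = fun r => ‖rsc c u r‖ := by
    funext r
    congr 1
    exact sub_zero _
  rw [h1]

lemma mk_eq_zero_iff (u : ZS c) : mk c u = 0 ↔
    Tendsto (fun r => ‖rsc c u r‖) atTop (𝓝 0) := by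
  rw [← mem_ker_iff]
  exact QuotientAddGroup.eq_zero_iff u

/-- null sequences. -/
lemma mk_eq_zero (u : ZS c) (h : Tendsto (fun r => (∑ x ∈ (u.1 r).support, (u.1 r x : ℝ) ^ 2) /
    c.a r) atTop (𝓝 0)) : mk c u = 0 := by
  rw [mk_eq_zero_iff]
  have h1 : (fun r => ‖rsc c u r‖) = fun r => √((∑ x ∈ (u.1 r).support, (u.1 r x : ℝ) ^ 2) /
      c.a r) := by
    funext r
    rw [← norm_rsc, Real.sqrt_sq (norm_nonneg _)]
  rw [h1]
  have h2 := (Real.continuous_sqrt.tendsto 0).comp h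
  rw [Real.sqrt_zero] at h2
  exact h2

/-- null sequences. -/
lemma tendsto_of_mk_eq_zero (u : ZS c) (h : mk c u = 0) :
    Tendsto (fun r => (∑ x ∈ (u.1 r).support, (u.1 r x : ℝ) ^ 2) / c.a r) atTop (𝓝 0) := by
  rw [mk_eq_zero_iff] at h
  have h1 : (fun r => (∑ x ∈ (u.1 r).support, (u.1 r x : ℝ) ^ 2) / c.a r) =
      fun r => ‖rsc c u r‖ ^ 2 := by
    funext r
    rw [norm_rsc]
  rw [h1]
  simpa using h.pow 2

/-- the translation of bounded sequences. -/
noncomputable def trB (g : G) (u : BB G) : BB G :=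
  ⟨fun r => Raw.tr g (u r), memℓp_infty ⟨‖u‖, by
    rintro _ ⟨r, rfl⟩
    show ‖(Raw.tr g (u r) : Raw.L2 G)‖ ≤ ‖u‖
    rw [Raw.norm_tr]
    exact bb_apply_le u r⟩⟩

lemma trB_apply (g : G) (u : BB G) (r : ℕ) : trB g u r = Raw.tr g (u r) := rfl

lemma trB_apply' (g : G) (u : BB G) (r : ℕ) (x : G) : trB g u r x = u r (g⁻¹ * x) := rfl

lemma Loc.trB {u : BB G} (hu : Loc c u) (g : G) : Loc c (trB g u) := by
  classical
  intro ε hε
  obtain ⟨K, C, u', hu', h⟩ := hu ε hε
  refine ⟨K.image (g * ·), C, LibQF83.trB g u', fun r x => ⟨?_, fun hx => ?_⟩, ?_⟩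
  · rw [trB_apply']
    exact (hu' r _).1
  · rw [trB_apply'] at hx
    exact KS_mul c g ((hu' r _).2 hx)
  · filter_upwards [h] with r hr
    rw [trB_apply, trB_apply, ← map_sub, Raw.norm_tr]
    exact hr

/-- the translation of integer valued sequences. -/
noncomputable def LtZ (g : G) : ZS c →+ ZS c where
  toFun u := ⟨fun r => Lt g (u.1 r), by
    obtain ⟨v, hv, h⟩ := u.2
    refine ⟨trB g v, hv.trB c g, fun r x => ?_⟩
    rw [trB_apply', Lt_apply]
    exact h r _⟩
  map_zero' := by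
    apply Subtype.ext
    funext r
    exact map_zero (Lt g)
  map_add' u v := by
    apply Subtype.ext
    funext r
    exact map_add (Lt g) _ _

lemma LtZ_apply (g : G) (u : ZS c) (r : ℕ) : (LtZ c g u).1 r = Lt g (u.1 r) := rfl

lemma rsc_LtZ (g : G) (u : ZS c) : rsc c (LtZ c g u) = trB g (rsc c u) := by
  refine rsc_eq c fun r x => ?_
  rw [trB_apply', LtZ_apply, Lt_apply]
  exact rsc_apply c u r _

/-- the action on the asymptotic module. -/
noncomputable def actM (g : G) : MM c →+ MM c :=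
  QuotientAddGroup.map _ _ (LtZ c g) (by
    intro u hu
    rw [AddSubgroup.mem_comap, mem_ker_iff, rsc_LtZ]
    rw [mem_ker_iff] at hu
    refine hu.congr fun r => ?_
    rw [trB_apply, Raw.norm_tr])

lemma actM_mk (g : G) (u : ZS c) : actM c g (mk c u) = mk c (LtZ c g u) := rfl

lemma LtZ_one (u : ZS c) : LtZ c 1 u = u := by
  apply Subtype.ext
  funext r
  rw [LtZ_apply]
  ext x
  rw [Lt_apply, inv_one, one_mul]

lemma LtZ_mul (g h : G) (u : ZS c) : LtZ c (g * h) u = LtZ c g (LtZ c h u) := by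
  apply Subtype.ext
  funext r
  rw [LtZ_apply, LtZ_apply, LtZ_apply]
  ext x
  rw [Lt_apply, Lt_apply, Lt_apply, mul_inv_rev, mul_assoc]

/-- the representation on the asymptotic module. -/
noncomputable def repM : Representation ℤ G (MM c) where
  toFun g := (actM c g).toIntLinearMap
  map_one' := by
    refine LinearMap.ext fun y => ?_
    obtain ⟨u, rfl⟩ := mk_surj c y
    show actM c 1 (mk c u) = mk c u
    rw [actM_mk, LtZ_one]
  map_mul' g h := by
    refine LinearMap.ext fun y => ?_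
    obtain ⟨u, rfl⟩ := mk_surj c y
    show actM c (g * h) (mk c u) = actM c g (actM c h (mk c u))
    rw [actM_mk, actM_mk, actM_mk, LtZ_mul]

lemma repM_mk (g : G) (u : ZS c) : repM c g (mk c u) = mk c (LtZ c g u) := rfl

/-- the asymptotic module as an object. -/
noncomputable abbrev RM : Rep.{0} ℤ G := Rep.of (repM c)

end Pool.Agent.LibQF83
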