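import Pool.Agent.LibQF83.Weak
import Pool.Agent.LibQF83.Hom

/-!
Cohomology of the asymptotic Banach space.
-/

set_option autoImplicit false

namespace Pool.Agent.LibQF83

open Pool.Agent.LibZIS Pool.Agent.LibCod83 Filter Topology

universe v

variable {G B : Type} [Group G] [Group B] {c : CE G B}

/-- null sequences. -/
def Nul (u : BB G) : Prop := Tendsto (fun r => ‖u r‖) atTop (𝓝 0)

omit [Group G] in
lemma Nul.add {u v : BB G} (hu : Nul u) (hv : Nul v) : Nul (u + v) := by
  refine squeeze_zero (fun _ => norm_nonneg _) (fun r => norm_add_le (u r) (v r)) ?_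
  simpa using Tendsto.add hu hv

omit [Group G] in
lemma Nul.smul {u : BB G} (hu : Nul u) (z : ℂ) : Nul (z • u) := by
  have h : (fun r => ‖(z • u : BB G) r‖) = fun r => ‖z‖ * ‖u r‖ := by
    funext r
    exact norm_smul z (u r)
  rw [Nul, h]
  simpa using hu.const_mul ‖z‖

omit [Group G] in
lemma Nul.neg {u : BB G} (hu : Nul u) : Nul (-u) := by
  have h : (fun r => ‖(-u : BB G) r‖) = fun r => ‖u r‖ := by
    funext r
    exact norm_neg (u r)
  rw [Nul, h]
  exact hu

omit [Group G] in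
lemma Nul.of_le {u v : BB G} (hu : Nul u) (h : ∀ r x, ‖v r x‖ ≤ ‖u r x‖) : Nul v :=
  squeeze_zero (fun _ => norm_nonneg _) (fun r => norm_le_of_le (h r)) hu

lemma Nul.trB {u : BB G} (hu : Nul u) (g : G) : Nul (trB g u) := by
  refine Tendsto.congr (fun r => ?_) hu
  rw [trB_apply, Raw.norm_tr]

lemma Nul.loc {u : BB G} (hu : Nul u) : Loc c u := Loc.of_tendsto c hu

lemma cl_eq_iff' {u v : BB G} (hu : Loc c u) (hv : Loc c v) :
    cl c u hu = cl c v hv ↔ Nul (u - v) := cl_eq_iff c hu hv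

lemma cl_eq_zero_iff {u : BB G} (hu : Loc c u) : cl c u hu = 0 ↔ Nul u := by
  have h0 : Loc c (0 : BB G) := (locS c).zero_mem
  have h3 : (0 : V c) = cl c 0 h0 := rfl
  rw [h3, cl_eq_iff', sub_zero]

lemma Loc.sub {u v : BB G} (hu : Loc c u) (hv : Loc c v) : Loc c (u - v) :=
  (locS c).sub_mem hu hv

lemma cl_sub {u v : BB G} (hu : Loc c u) (hv : Loc c v) :
    cl c u hu - cl c v hv = cl c (u - v) (hu.sub hv) := rfl

variable (c) in
/-- the trivial cocycle. -/
noncomputable def triv : ACoc c where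
  σ := fun _ _ _ => 1
  norm := fun _ _ _ => norm_one
  δ := fun _ _ _ => 0
  lim := fun _ _ => by
    simp only [norm_zero]
    exact tendsto_const_nhds
  mul := fun _ _ r x => by
    rw [mul_one, sub_self, norm_zero]
    positivity

lemma opB_triv (g : G) (u : BB G) : opB (triv c) g u = trB g u := by
  refine lp.ext (funext fun r => lp.ext (funext fun x => ?_))
  rw [opB_apply, opL_apply, trB_apply']
  exact one_mul _

variable {E : Type v} [TopologicalSpace E] [PathConnectedSpace E]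
  [MulAction G E] [ContinuousConstSMul G E]

/-- degree one, twisted coefficients. -/
theorem exists_cob1 (hB : Amenable B) (hfree : ∀ (g : G) (e : E), g • e = e → g = 1)
    (h0 : ¬ Nontrivial (Hgy (lam G) E 0)) (h1 : ¬ Nontrivial (Hgy (lam G) E 1))
    (s : ACoc c) (b : G → BB G) (hb : ∀ g, Loc c (b g))
    (hbc : ∀ g h, Nul (b (g * h) - (b g + opB s g (b h)))) :
    ∃ v : BB G, Loc c v ∧ ∀ g, Nul (b g - (opB s g v - v)) := by
  obtain ⟨R, hR⟩ := exists_rep s hB
  let _ : Module (Cr G) (V c) := Module.compHom (V c) R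
  have hsm : ∀ (g : G) (v : V c), lam G g • v = R (lam G g) v := fun g v => rfl
  obtain ⟨v, hv⟩ := coboundary_of_trivial (lam G) hfree h0 h1 (fun g => cl c (b g) (hb g))
    (fun g h => by
      rw [hsm, hR, cl_add, cl_eq_iff']
      exact hbc g h)
  obtain ⟨w, hw, rfl⟩ := cl_surj c v
  refine ⟨w, hw, fun g => ?_⟩
  have h2 := hv g
  rw [hsm, hR, cl_sub, cl_eq_iff'] at h2
  exact h2

/-- degree two. -/
theorem exists_cob2 (hB : Amenable B) (hfree : ∀ (g : G) (e : E), g • e = e → g = 1)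
    (hE : H1Zero E) (h0 : ¬ Nontrivial (Hgy (lam G) E 0)) (h1 : ¬ Nontrivial (Hgy (lam G) E 1))
    (h2 : ¬ Nontrivial (Hgy (lam G) E 2))
    (b : G → G → BB G) (hb : ∀ g h, Loc c (b g h))
    (hbc : ∀ g h k, Nul (trB g (b h k) - b (g * h) k + b g (h * k) - b g h)) :
    ∃ v : G → BB G, (∀ g, Loc c (v g)) ∧
      ∀ g h, Nul (b g h - (trB g (v h) - v (g * h) + v g)) := by
  obtain ⟨R, hR⟩ := exists_rep (triv c) hB
  let _ : Module (Cr G) (V c) := Module.compHom (V c) R
  have hsm : ∀ (g : G) (u : BB G) (hu : Loc c u), lam G g • cl c u hu =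
      cl c (trB g u) (hu.trB c g) := by
    intro g u hu
    have h3 : lam G g • cl c u hu = R (lam G g) (cl c u hu) := rfl
    rw [h3, hR]
    congr 1
    exact opB_triv g u
  obtain ⟨v, hv⟩ := coboundary2_of_trivial (lam G) hfree hE h0 h1 h2
    (fun g h => cl c (b g h) (hb g h)) (fun g h k => by
      rw [hsm, cl_sub, cl_add, cl_sub, cl_eq_zero_iff]
      exact hbc g h k)
  choose w hw hw' using fun g => cl_surj c (v g)
  refine ⟨w, hw, fun g h => ?_⟩
  have h3 := hv g h
  rw [← hw' g, ← hw' h, ← hw' (g * h), hsm, cl_sub, cl_add, cl_eq_iff'] at h3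
  exact h3

omit [PathConnectedSpace E] in
/-- invariant sequences. -/
theorem nul_of_invariant (hB : Amenable B) (x0 : E) (h0 : ¬ Nontrivial (Hgy (lam G) E 0))
    {v : BB G} (hv : Loc c v) (hinv : ∀ g, Nul (trB g v - v)) : Nul v := by
  obtain ⟨R, hR⟩ := exists_rep (triv c) hB
  let _ : Module (Cr G) (V c) := Module.compHom (V c) R
  have h1 : cl c v hv = 0 := by
    refine invariant_zero_of_module (lam G) x0 h0 _ fun g => ?_
    have h3 : lam G g • cl c v hv = R (lam G g) (cl c v hv) := rfl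
    rw [h3, hR, cl_eq_iff', opB_triv]
    exact hinv g
  exact (cl_eq_zero_iff hv).1 h1

end Pool.Agent.LibQF83
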