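import Pool.Agent.LibQF83.Cob

/-!
Sequences of functions dominated by concentrated or by null sequences.
-/

set_option autoImplicit false

namespace Pool.Agent.LibQF83

open Pool.Agent.LibZIS Pool.Agent.LibCod83 Filter Topology

universe v

variable {G B : Type} [Group G] [Group B] (c : CE G B)

/-- domination by a concentrated sequence. -/
def DL {F : Type} [SeminormedAddCommGroup F] (n : ℕ → G → F) : Prop :=
  ∃ w : BB G, Loc c w ∧ ∀ r x, ‖n r x‖ ≤ √(c.a r) * ‖w r x‖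

/-- domination by a null sequence. -/
def DN {F : Type} [SeminormedAddCommGroup F] (n : ℕ → G → F) : Prop :=
  ∃ w : BB G, Nul w ∧ ∀ r x, ‖n r x‖ ≤ √(c.a r) * ‖w r x‖

variable {c} {F F' : Type} [SeminormedAddCommGroup F] [SeminormedAddCommGroup F']

lemma DN.dl {n : ℕ → G → F} (h : DN c n) : DL c n :=
  let ⟨w, hw, h1⟩ := h
  ⟨w, hw.loc, h1⟩

omit [Group G] in
lemma exists_absN {u : BB G} (hu : Nul u) : ∃ v : BB G, Nul v ∧ ∀ r x, v r x = (‖u r x‖ : ℝ) := by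
  obtain ⟨v, hv⟩ := exists_dom u (fun r x => ((‖u r x‖ : ℝ) : ℂ)) (fun r x => by simp)
  refine ⟨v, hu.of_le fun r x => ?_, hv⟩
  rw [hv]
  simp

lemma DL.add {n n' : ℕ → G → F} (h : DL c n) (h' : DL c n') :
    DL c (fun r x => n r x + n' r x) := by
  obtain ⟨w, hw, h1⟩ := h
  obtain ⟨w', hw', h1'⟩ := h'
  obtain ⟨v, hv, e⟩ := exists_abs c hw
  obtain ⟨v', hv', e'⟩ := exists_abs c hw'
  refine ⟨v + v', hv.add c hv', fun r x => ?_⟩
  have h2 : (v + v') r x = v r x + v' r x := rfl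
  rw [h2, e, e', ← Complex.ofReal_add, Complex.norm_real, Real.norm_eq_abs,
    abs_of_nonneg (by positivity), mul_add]
  exact (norm_add_le _ _).trans (add_le_add (h1 r x) (h1' r x))

lemma DN.add {n n' : ℕ → G → F} (h : DN c n) (h' : DN c n') :
    DN c (fun r x => n r x + n' r x) := by
  obtain ⟨w, hw, h1⟩ := h
  obtain ⟨w', hw', h1'⟩ := h'
  obtain ⟨v, hv, e⟩ := exists_absN hw
  obtain ⟨v', hv', e'⟩ := exists_absN hw'
  refine ⟨v + v', hv.add hv', fun r x => ?_⟩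
  have h2 : (v + v') r x = v r x + v' r x := rfl
  rw [h2, e, e', ← Complex.ofReal_add, Complex.norm_real, Real.norm_eq_abs,
    abs_of_nonneg (by positivity), mul_add]
  exact (norm_add_le _ _).trans (add_le_add (h1 r x) (h1' r x))

lemma DL.of_le {n : ℕ → G → F} {n' : ℕ → G → F'} (h : DL c n) (C : ℝ)
    (hn : ∀ r x, ‖n' r x‖ ≤ C * ‖n r x‖) : DL c n' := by
  obtain ⟨w, hw, h1⟩ := h
  refine ⟨((|C| : ℝ) : ℂ) • w, hw.smul c _, fun r x => ?_⟩
  have h2 : (((|C| : ℝ) : ℂ) • w) r x = ((|C| : ℝ) : ℂ) * w r x := rfl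
  rw [h2, norm_mul, Complex.norm_real, Real.norm_eq_abs, abs_abs]
  calc ‖n' r x‖ ≤ C * ‖n r x‖ := hn r x
    _ ≤ |C| * ‖n r x‖ := mul_le_mul_of_nonneg_right (le_abs_self C) (norm_nonneg _)
    _ ≤ |C| * (√(c.a r) * ‖w r x‖) := mul_le_mul_of_nonneg_left (h1 r x) (abs_nonneg _)
    _ = √(c.a r) * (|C| * ‖w r x‖) := by ring

lemma DN.of_le {n : ℕ → G → F} {n' : ℕ → G → F'} (h : DN c n) (C : ℝ)
    (hn : ∀ r x, ‖n' r x‖ ≤ C * ‖n r x‖) : DN c n' := by
  obtain ⟨w, hw, h1⟩ := h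
  refine ⟨((|C| : ℝ) : ℂ) • w, hw.smul _, fun r x => ?_⟩
  have h2 : (((|C| : ℝ) : ℂ) • w) r x = ((|C| : ℝ) : ℂ) * w r x := rfl
  rw [h2, norm_mul, Complex.norm_real, Real.norm_eq_abs, abs_abs]
  calc ‖n' r x‖ ≤ C * ‖n r x‖ := hn r x
    _ ≤ |C| * ‖n r x‖ := mul_le_mul_of_nonneg_right (le_abs_self C) (norm_nonneg _)
    _ ≤ |C| * (√(c.a r) * ‖w r x‖) := mul_le_mul_of_nonneg_left (h1 r x) (abs_nonneg _)
    _ = √(c.a r) * (|C| * ‖w r x‖) := by ring

lemma DL.neg {n : ℕ → G → F} (h : DL c n) : DL c (fun r x => -n r x) :=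
  h.of_le 1 fun r x => by rw [norm_neg, one_mul]

lemma DN.neg {n : ℕ → G → F} (h : DN c n) : DN c (fun r x => -n r x) :=
  h.of_le 1 fun r x => by rw [norm_neg, one_mul]

lemma DL.sub {n n' : ℕ → G → F} (h : DL c n) (h' : DL c n') :
    DL c (fun r x => n r x - n' r x) := by
  simpa only [sub_eq_add_neg] using h.add h'.neg

lemma DN.sub {n n' : ℕ → G → F} (h : DN c n) (h' : DN c n') :
    DN c (fun r x => n r x - n' r x) := by
  simpa only [sub_eq_add_neg] using h.add h'.neg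

lemma DL.trans {n : ℕ → G → F} (h : DL c n) (g : G) : DL c (fun r x => n r (g⁻¹ * x)) := by
  obtain ⟨w, hw, h1⟩ := h
  exact ⟨trB g w, hw.trB c g, fun r x => h1 r (g⁻¹ * x)⟩

lemma DN.trans {n : ℕ → G → F} (h : DN c n) (g : G) : DN c (fun r x => n r (g⁻¹ * x)) := by
  obtain ⟨w, hw, h1⟩ := h
  exact ⟨trB g w, hw.trB g, fun r x => h1 r (g⁻¹ * x)⟩

lemma DL.of_loc {w : BB G} (hw : Loc c w) : DL c (fun r x => ((√(c.a r) : ℝ) : ℂ) * w r x) :=
  ⟨w, hw, fun r x => by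
    rw [norm_mul, Complex.norm_real, Real.norm_eq_abs, abs_of_nonneg (Real.sqrt_nonneg _)]⟩

lemma DN.of_nul {w : BB G} (hw : Nul w) : DN c (fun r x => ((√(c.a r) : ℝ) : ℂ) * w r x) :=
  ⟨w, hw, fun r x => by
    rw [norm_mul, Complex.norm_real, Real.norm_eq_abs, abs_of_nonneg (Real.sqrt_nonneg _)]⟩

lemma norm_div_sqrt_le {n : ℂ} {w : ℂ} {r : ℕ} (h : ‖n‖ ≤ √(c.a r) * ‖w‖) :
    ‖n / ((√(c.a r) : ℝ) : ℂ)‖ ≤ ‖w‖ := by
  have h6 := Real.sqrt_pos.2 (c.pos r)
  rw [norm_div, Complex.norm_real, Real.norm_eq_abs, abs_of_pos h6, div_le_iff₀ h6, mul_comm]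
  exact h

lemma DL.exists_loc {n : ℕ → G → ℂ} (h : DL c n) :
    ∃ w : BB G, Loc c w ∧ ∀ r x, ((√(c.a r) : ℝ) : ℂ) * w r x = n r x := by
  obtain ⟨w, hw, h1⟩ := h
  obtain ⟨v, hv, e⟩ := LibQF83.exists_loc c hw (fun r x => n r x / ((√(c.a r) : ℝ) : ℂ))
    (fun r x => norm_div_sqrt_le (h1 r x))
  refine ⟨v, hv, fun r x => ?_⟩
  rw [e]
  exact mul_div_cancel₀ _ (sqrt_ne c r)

lemma DN.exists_nul {n : ℕ → G → ℂ} (h : DN c n) :
    ∃ w : BB G, Nul w ∧ ∀ r x, ((√(c.a r) : ℝ) : ℂ) * w r x = n r x := by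
  obtain ⟨w, hw, h1⟩ := h
  obtain ⟨v, e⟩ := exists_dom w (fun r x => n r x / ((√(c.a r) : ℝ) : ℂ))
    (fun r x => norm_div_sqrt_le (h1 r x))
  refine ⟨v, hw.of_le fun r x => ?_, fun r x => ?_⟩
  · rw [e]
    exact norm_div_sqrt_le (h1 r x)
  · rw [e]
    exact mul_div_cancel₀ _ (sqrt_ne c r)

/-- the bounded sequence of a null dominated function is null. -/
lemma nul_of_dn {n : ℕ → G → ℂ} (h : DN c n) {w : BB G}
    (hw : ∀ r x, ((√(c.a r) : ℝ) : ℂ) * w r x = n r x) : Nul w := by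
  obtain ⟨v, hv, e⟩ := h.exists_nul
  have h1 : w = v := by
    refine lp.ext (funext fun r => lp.ext (funext fun x => ?_))
    exact mul_left_cancel₀ (sqrt_ne c r) ((hw r x).trans (e r x).symm)
  rw [h1]
  exact hv

/-! ### integer valued sequences -/

lemma dl_int (u : ZS c) : DL c (fun r x => ((u.1 r x : ℤ) : ℝ)) :=
  ⟨rsc c u, rsc_loc c u, fun r x => by
    have h := congrArg norm (rsc_apply c u r x)
    rw [norm_mul, Complex.norm_real, Complex.norm_intCast, Real.norm_eq_abs, abs_of_nonneg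
      (Real.sqrt_nonneg _)] at h
    rw [Real.norm_eq_abs, ← h, mul_comm]⟩

lemma mk_eq_zero_iff_dn (u : ZS c) : mk c u = 0 ↔ DN c (fun r x => ((u.1 r x : ℤ) : ℝ)) := by
  rw [mk_eq_zero_iff]
  constructor
  · intro h
    refine ⟨rsc c u, h, fun r x => ?_⟩
    have h := congrArg norm (rsc_apply c u r x)
    rw [norm_mul, Complex.norm_real, Complex.norm_intCast, Real.norm_eq_abs, abs_of_nonneg
      (Real.sqrt_nonneg _)] at h
    rw [Real.norm_eq_abs, ← h, mul_comm]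
  · intro h
    have h1 : DN c (fun r x => ((u.1 r x : ℤ) : ℂ)) := h.of_le 1 fun r x => by
      rw [Complex.norm_intCast, Real.norm_eq_abs, one_mul]
    refine nul_of_dn h1 fun r x => ?_
    rw [mul_comm]
    exact rsc_apply c u r x

/-- integer valued functions dominated by concentrated sequences. -/
lemma exists_ZS {n : ℕ → G → ℝ} (h : DL c n) (hint : ∀ r x, ∃ k : ℤ, n r x = k) :
    ∃ m : ZS c, ∀ r x, ((m.1 r x : ℤ) : ℝ) = n r x := by
  have h1 : DL c (fun r x => ((n r x : ℝ) : ℂ)) := h.of_le 1 fun r x => by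
    rw [Complex.norm_real, one_mul]
  obtain ⟨w, hw, e⟩ := h1.exists_loc
  have h2 : ∀ r, Summable fun x => |n r x| ^ 2 := by
    intro r
    refine ((Raw.summable_sq (w r)).mul_left (c.a r)).congr fun x => ?_
    have h3 := congrArg (fun z : ℂ => ‖z‖ ^ 2) (e r x)
    simp only at h3
    rw [norm_mul, mul_pow, Complex.norm_real, Complex.norm_real, Real.norm_eq_abs,
      Real.norm_eq_abs, abs_of_nonneg (Real.sqrt_nonneg _), Real.sq_sqrt (c.pos r).le] at h3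
    exact h3
  choose m hm using fun r => integral_finsupp (n r) (h2 r) (hint r)
  refine ⟨⟨m, w, hw, fun r x => ?_⟩, fun r x => (hm r x).symm⟩
  rw [mul_comm, e, hm]
  simp

/-! ### cohomology -/

/-- a unimodular function which is a cocycle up to null sequences. -/
lemma exists_acoc (σ : G → ℕ → G → ℂ) (norm : ∀ g r x, ‖σ g r x‖ = 1)
    (h : ∀ g h, DN c (fun r x => σ (g * h) r x - σ g r x * σ h r (g⁻¹ * x))) :
    ∃ s : ACoc c, s.σ = σ := by
  choose δ h1 h2 using h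
  exact ⟨⟨σ, norm, fun g h r => δ g h r, h1, h2⟩, rfl⟩

variable {E : Type v} [TopologicalSpace E] [PathConnectedSpace E]
  [MulAction G E] [ContinuousConstSMul G E]

/-- degree one. -/
theorem dcob1 (hB : Amenable B) (hfree : ∀ (g : G) (e : E), g • e = e → g = 1)
    (h0 : ¬ Nontrivial (Hgy (lam G) E 0)) (h1 : ¬ Nontrivial (Hgy (lam G) E 1))
    (s : ACoc c) (n : G → ℕ → G → ℂ) (hn : ∀ g, DL c (n g))
    (hc : ∀ g h, DN c (fun r x => n (g * h) r x - (n g r x + s.σ g r x * n h r (g⁻¹ * x)))) :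
    ∃ v : ℕ → G → ℂ, DL c v ∧
      ∀ g, DN c (fun r x => n g r x - (s.σ g r x * v r (g⁻¹ * x) - v r x)) := by
  choose b hb e using fun g => (hn g).exists_loc
  obtain ⟨v, hv, hv'⟩ := exists_cob1 hB hfree h0 h1 s b hb (fun g h => by
    refine nul_of_dn (hc g h) fun r x => ?_
    have h2 : (b (g * h) - (b g + opB s g (b h))) r x =
      b (g * h) r x - (b g r x + s.σ g r x * b h r (g⁻¹ * x)) := rfl
    rw [h2, ← e, ← e, ← e]
    ring)
  refine ⟨fun r x => ((√(c.a r) : ℝ) : ℂ) * v r x, DL.of_loc hv, fun g => ?_⟩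
  have h3 := DN.of_nul (c := c) (hv' g)
  have h4 : (fun r x => ((√(c.a r) : ℝ) : ℂ) * (b g - (opB s g v - v)) r x) =
      fun r x => n g r x - (s.σ g r x * (((√(c.a r) : ℝ) : ℂ) * v r (g⁻¹ * x)) -
        ((√(c.a r) : ℝ) : ℂ) * v r x) := by
    funext r x
    have h2 : (b g - (opB s g v - v)) r x =
      b g r x - (s.σ g r x * v r (g⁻¹ * x) - v r x) := rfl
    rw [h2, ← e]
    ring
  rw [h4] at h3
  exact h3

/-- degree two. -/
theorem dcob2 (hB : Amenable B) (hfree : ∀ (g : G) (e : E), g • e = e → g = 1)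
    (hE : H1Zero E) (h0 : ¬ Nontrivial (Hgy (lam G) E 0)) (h1 : ¬ Nontrivial (Hgy (lam G) E 1))
    (h2 : ¬ Nontrivial (Hgy (lam G) E 2))
    (n : G → G → ℕ → G → ℂ) (hn : ∀ g h, DL c (n g h))
    (hc : ∀ g h k, DN c (fun r x => n h k r (g⁻¹ * x) - n (g * h) k r x + n g (h * k) r x -
      n g h r x)) :
    ∃ v : G → ℕ → G → ℂ, (∀ g, DL c (v g)) ∧
      ∀ g h, DN c (fun r x => n g h r x - (v h r (g⁻¹ * x) - v (g * h) r x + v g r x)) := by
  choose b hb e using fun g h => (hn g h).exists_loc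
  obtain ⟨v, hv, hv'⟩ := exists_cob2 hB hfree hE h0 h1 h2 b hb (fun g h k => by
    refine nul_of_dn (hc g h k) fun r x => ?_
    have h2 : (trB g (b h k) - b (g * h) k + b g (h * k) - b g h) r x =
      b h k r (g⁻¹ * x) - b (g * h) k r x + b g (h * k) r x - b g h r x := rfl
    rw [h2, ← e, ← e, ← e, ← e]
    ring)
  refine ⟨fun g r x => ((√(c.a r) : ℝ) : ℂ) * v g r x, fun g => DL.of_loc (hv g), fun g h => ?_⟩
  have h3 := DN.of_nul (c := c) (hv' g h)
  have h4 : (fun r x => ((√(c.a r) : ℝ) : ℂ) * (b g h - (trB g (v h) - v (g * h) + v g)) r x) =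
      fun r x => n g h r x - (((√(c.a r) : ℝ) : ℂ) * v h r (g⁻¹ * x) -
        ((√(c.a r) : ℝ) : ℂ) * v (g * h) r x + ((√(c.a r) : ℝ) : ℂ) * v g r x) := by
    funext r x
    have h2 : (b g h - (trB g (v h) - v (g * h) + v g)) r x =
      b g h r x - (v h r (g⁻¹ * x) - v (g * h) r x + v g r x) := rfl
    rw [h2, ← e]
    ring
  rw [h4] at h3
  exact h3

omit [PathConnectedSpace E] in
/-- invariants. -/
theorem dinv (hB : Amenable B) (x0 : E) (h0 : ¬ Nontrivial (Hgy (lam G) E 0))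
    {n : ℕ → G → ℝ} (hn : DL c n) (hinv : ∀ g, DN c (fun r x => n r (g⁻¹ * x) - n r x)) :
    DN c n := by
  have h1 : DL c (fun r x => ((n r x : ℝ) : ℂ)) := hn.of_le 1 fun r x => by
    rw [Complex.norm_real, one_mul]
  obtain ⟨w, hw, e⟩ := h1.exists_loc
  have h2 : Nul w := nul_of_invariant hB x0 h0 hw fun g => by
    have h3 : DN c (fun r x => (((n r (g⁻¹ * x) - n r x : ℝ)) : ℂ)) := (hinv g).of_le 1
      fun r x => by rw [Complex.norm_real, one_mul]
    refine nul_of_dn h3 fun r x => ?_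
    have h4 : (trB g w - w) r x = w r (g⁻¹ * x) - w r x := rfl
    rw [h4, mul_sub, e, e]
    push_cast
    rfl
  have h5 := DN.of_nul (c := c) h2
  refine h5.of_le 1 fun r x => ?_
  rw [e, Complex.norm_real, one_mul]

end Pool.Agent.LibQF83
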