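import Pool.Agent.LibQF83.Op
import Pool.Agent.LibQF83.Ext

/-!
The twisted representation on the asymptotic space is weakly contained in the regular one.
-/

set_option autoImplicit false

namespace Pool.Agent.LibQF83

open Pool.Agent.LibZIS Pool.Agent.LibCod83 Filter Topology

/-! ### the product with the group acting on the first factor -/

/-- the product. -/
def GX (G B : Type) : Type := G × B

variable {G B : Type} [Group G] [Group B]

instance : MulAction G (GX G B) where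
  smul g p := (g * p.1, p.2)
  one_smul p := by
    show ((1 : G) * p.1, p.2) = p
    rw [one_mul]
    rfl
  mul_smul g h p := by
    show ((g * h) * p.1, p.2) = (g * (h * p.1), p.2)
    rw [mul_assoc]

omit [Group B] in
lemma smul_GX (g : G) (p : GX G B) : g • p = (g * p.1, p.2) := rfl

omit [Group B] in
lemma amenable_GX (p : GX G B) : Amenable (MulAction.stabilizer G p) := by
  have h : Finite (MulAction.stabilizer G p) := by
    have h1 : Subsingleton (MulAction.stabilizer G p) := by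
      refine ⟨fun a b => Subtype.ext ?_⟩
      have ha : (a : G) • p = p := a.2
      have hb : (b : G) • p = p := b.2
      have ha' : (a : G) * p.1 = p.1 := congrArg Prod.fst ha
      have hb' : (b : G) * p.1 = p.1 := congrArg Prod.fst hb
      exact mul_right_cancel (ha'.trans hb'.symm)
    infer_instance
  exact amenable_of_finite _

omit [Group G] [Group B] in
lemma pr_summable (u : G → ℂ) (ζ : G → Raw.L2 B) (h : Summable fun x => ‖u x‖ ^ 2 * ‖ζ x‖ ^ 2) :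
    Summable fun p : G × B => ‖u p.1 * ζ p.1 p.2‖ ^ 2 := by
  have e : ∀ x, ∑' q, ‖u x * ζ x q‖ ^ 2 = ‖u x‖ ^ 2 * ‖ζ x‖ ^ 2 := by
    intro x
    rw [Raw.norm_sq_eq, ← tsum_mul_left]
    exact tsum_congr fun q => by rw [norm_mul, mul_pow]
  refine (summable_prod_of_nonneg fun p => by positivity).2 ⟨fun x => ?_, ?_⟩
  · have h1 := (Raw.summable_sq (ζ x)).mul_left (‖u x‖ ^ 2)
    exact h1.congr fun q => by rw [norm_mul, mul_pow]
  · exact h.congr fun x => (e x).symm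

/-- a product function. -/
noncomputable def pr (u : G → ℂ) (ζ : G → Raw.L2 B) (h : Summable fun x => ‖u x‖ ^ 2 * ‖ζ x‖ ^ 2) :
    Raw.L2 (GX G B) :=
  ⟨fun p => u p.1 * ζ p.1 p.2, memℓp_gen (by
    have h2 : Summable fun p : GX G B => ‖u p.1 * ζ p.1 p.2‖ ^ 2 := pr_summable u ζ h
    simpa using h2)⟩

omit [Group G] [Group B] in
lemma pr_apply (u : G → ℂ) (ζ : G → Raw.L2 B) (h : Summable fun x => ‖u x‖ ^ 2 * ‖ζ x‖ ^ 2)
    (p : GX G B) : pr u ζ h p = u p.1 * ζ p.1 p.2 := rfl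

omit [Group G] [Group B] in
lemma norm_pr_sq (u : G → ℂ) (ζ : G → Raw.L2 B) (h : Summable fun x => ‖u x‖ ^ 2 * ‖ζ x‖ ^ 2) :
    ‖pr u ζ h‖ ^ 2 = ∑' x, ‖u x‖ ^ 2 * ‖ζ x‖ ^ 2 := by
  have e : ∀ x, ∑' q, ‖u x * ζ x q‖ ^ 2 = ‖u x‖ ^ 2 * ‖ζ x‖ ^ 2 := by
    intro x
    rw [Raw.norm_sq_eq, ← tsum_mul_left]
    exact tsum_congr fun q => by rw [norm_mul, mul_pow]
  have h1 : ‖pr u ζ h‖ ^ 2 = ∑' p : G × B, ‖u p.1 * ζ p.1 p.2‖ ^ 2 := Raw.norm_sq_eq (pr u ζ h)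
  rw [h1, (pr_summable u ζ h).tsum_prod]
  exact tsum_congr e

omit [Group G] [Group B] in
lemma wl_summable (ξ : G → Raw.L2 B) (hξ : ∀ x, ‖ξ x‖ ≤ 1) (u : Raw.L2 G) :
    Summable fun x => ‖u x‖ ^ 2 * ‖ξ x‖ ^ 2 := by
  refine Summable.of_nonneg_of_le (fun _ => by positivity) (fun x => ?_) (Raw.summable_sq u)
  have h1 : ‖ξ x‖ ^ 2 ≤ 1 := by
    have := hξ x
    have := norm_nonneg (ξ x)
    nlinarith
  calc ‖u x‖ ^ 2 * ‖ξ x‖ ^ 2 ≤ ‖u x‖ ^ 2 * 1 := by gcongr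
    _ = ‖u x‖ ^ 2 := mul_one _

/-- the lift by a field of vectors. -/
noncomputable def Wl (ξ : G → Raw.L2 B) (hξ : ∀ x, ‖ξ x‖ ≤ 1) : Raw.L2 G →ₗ[ℂ] Raw.L2 (GX G B) where
  toFun u := pr (fun x => u x) ξ (wl_summable ξ hξ u)
  map_add' u v := by
    ext p
    show (u p.1 + v p.1) * ξ p.1 p.2 = u p.1 * ξ p.1 p.2 + v p.1 * ξ p.1 p.2
    ring
  map_smul' z u := by
    ext p
    show (z * u p.1) * ξ p.1 p.2 = z * (u p.1 * ξ p.1 p.2)
    ring

omit [Group G] [Group B] in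
lemma Wl_apply (ξ : G → Raw.L2 B) (hξ : ∀ x, ‖ξ x‖ ≤ 1) (u : Raw.L2 G) (p : GX G B) :
    Wl ξ hξ u p = u p.1 * ξ p.1 p.2 := rfl

omit [Group G] [Group B] in
lemma norm_Wl (ξ : G → Raw.L2 B) (hξ : ∀ x, ‖ξ x‖ ≤ 1) (u : Raw.L2 G)
    (hu : ∀ x, u x ≠ 0 → ‖ξ x‖ = 1) : ‖Wl ξ hξ u‖ = ‖u‖ := by
  have h1 : ‖Wl ξ hξ u‖ ^ 2 = ‖u‖ ^ 2 := by
    have h2 : ‖Wl ξ hξ u‖ ^ 2 = ∑' x, ‖u x‖ ^ 2 * ‖ξ x‖ ^ 2 :=
      norm_pr_sq _ _ (wl_summable ξ hξ u)
    rw [h2, Raw.norm_sq_eq]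
    refine tsum_congr fun x => ?_
    by_cases h : u x = 0
    · rw [h, norm_zero]; ring
    · rw [hu x h]; ring
  exact (sq_eq_sq₀ (norm_nonneg _) (norm_nonneg _)).1 h1

variable {c : CE G B} (s : ACoc c)

/-- the defect of the lift. -/
lemma norm_defect_le (ξ : G → Raw.L2 B) (hξ : ∀ x, ‖ξ x‖ ≤ 1) (u : Raw.L2 G) (g : G) (r : ℕ)
    {t : ℝ} (ht : 0 ≤ t) (F : G → ℝ) (hF : Summable F) (hFt : ∑' x, F x ≤ t ^ 2)
    (h : ∀ x, ‖u (g⁻¹ * x)‖ ^ 2 * ‖s.σ g r x • ξ x - ξ (g⁻¹ * x)‖ ^ 2 ≤ F x) :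
    ‖Wl ξ hξ (opL s g r u) - Raw.tr g (Wl ξ hξ u)‖ ≤ t := by
  have hs : Summable fun x => ‖u (g⁻¹ * x)‖ ^ 2 * ‖s.σ g r x • ξ x - ξ (g⁻¹ * x)‖ ^ 2 :=
    Summable.of_nonneg_of_le (fun _ => by positivity) h hF
  have h1 : Wl ξ hξ (opL s g r u) - Raw.tr g (Wl ξ hξ u) =
      pr (fun x => u (g⁻¹ * x)) (fun x => s.σ g r x • ξ x - ξ (g⁻¹ * x)) hs := by
    ext p
    show (s.σ g r p.1 * u (g⁻¹ * p.1)) * ξ p.1 p.2 - u (g⁻¹ * p.1) * ξ (g⁻¹ * p.1) p.2 =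
      u (g⁻¹ * p.1) * (s.σ g r p.1 * ξ p.1 p.2 - ξ (g⁻¹ * p.1) p.2)
    ring
  refine le_of_sq_le_sq ?_ ht
  rw [h1, norm_pr_sq]
  exact (hs.tsum_le_tsum h hF).trans hFt

/-- the inequality with a field of vectors. -/
lemma norm_core (φ : MonoidAlgebra ℂ G) (r : ℕ) (u : Raw.L2 G) (ξ : G → Raw.L2 B)
    (hξ : ∀ x, ‖ξ x‖ ≤ 1) (hu : ∀ x, u x ≠ 0 → ‖ξ x‖ = 1)
    (hP : ∀ g ∈ φ.coeff.support, ∀ x, u (g⁻¹ * x) ≠ 0 → ‖ξ x‖ = 1) (t : ℝ)
    (ht : ∀ g ∈ φ.coeff.support, ‖Wl ξ hξ (opL s g r u) - Raw.tr g (Wl ξ hξ u)‖ ≤ t) :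
    ‖∑ g ∈ φ.coeff.support, φ.coeff g • opL s g r u‖ ≤
      ‖Raw.T G G φ‖ * ‖u‖ + (∑ g ∈ φ.coeff.support, ‖φ.coeff g‖) * t := by
  set P : Raw.L2 G := ∑ g ∈ φ.coeff.support, φ.coeff g • opL s g r u with hPdef
  have h1 : ‖Wl ξ hξ P‖ = ‖P‖ := by
    refine norm_Wl ξ hξ P fun x hx => ?_
    have h2 : P x = ∑ g ∈ φ.coeff.support, φ.coeff g * (s.σ g r x * u (g⁻¹ * x)) := by
      have h3 : ((∑ g ∈ φ.coeff.support, φ.coeff g • opL s g r u : Raw.L2 G) : ∀ _ : G, ℂ) =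
          ∑ g ∈ φ.coeff.support, ((φ.coeff g • opL s g r u : Raw.L2 G) : ∀ _ : G, ℂ) :=
        map_sum (lp.coeFnAddMonoidHom (fun _ : G => ℂ) 2) _ _
      rw [hPdef, h3, Finset.sum_apply]
      rfl
    rw [h2] at hx
    obtain ⟨g, hg, hgx⟩ := Finset.exists_ne_zero_of_sum_ne_zero hx
    exact hP g hg x (right_ne_zero_of_mul (right_ne_zero_of_mul hgx))
  have h2 : Wl ξ hξ P - Raw.T G (GX G B) φ (Wl ξ hξ u) =
      ∑ g ∈ φ.coeff.support, φ.coeff g • (Wl ξ hξ (opL s g r u) - Raw.tr g (Wl ξ hξ u)) := by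
    rw [Raw.T_apply, hPdef, map_sum, ← Finset.sum_sub_distrib]
    refine Finset.sum_congr rfl fun g _ => ?_
    rw [map_smul, smul_sub]
  have h3 : ‖Wl ξ hξ P - Raw.T G (GX G B) φ (Wl ξ hξ u)‖ ≤
      (∑ g ∈ φ.coeff.support, ‖φ.coeff g‖) * t := by
    rw [h2, Finset.sum_mul]
    refine (norm_sum_le _ _).trans (Finset.sum_le_sum fun g hg => ?_)
    rw [norm_smul]
    exact mul_le_mul_of_nonneg_left (ht g hg) (norm_nonneg _)
  have h4 : ‖Raw.T G (GX G B) φ (Wl ξ hξ u)‖ ≤ ‖Raw.T G G φ‖ * ‖u‖ := by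
    refine (ContinuousLinearMap.le_opNorm _ _).trans ?_
    rw [norm_Wl ξ hξ u hu]
    exact mul_le_mul_of_nonneg_right (Raw.norm_T_le amenable_GX φ) (norm_nonneg _)
  have h5 : Wl ξ hξ P = Raw.T G (GX G B) φ (Wl ξ hξ u) +
    (Wl ξ hξ P - Raw.T G (GX G B) φ (Wl ξ hξ u)) := by abel
  rw [← h1, h5]
  exact (norm_add_le _ _).trans (add_le_add h4 h3)

/-! ### the field of vectors -/

section field

variable (c)

/-- the coarse inverse. -/
noncomputable def rh [Nonempty B] (K : Finset G) (x : G) : B :=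
  open Classical in if h : ∃ p : B, ∃ k ∈ K, x = k * (c.f p)⁻¹ then h.choose else Classical.arbitrary B

lemma rh_spec [Nonempty B] (K : Finset G) {x : G} (hx : x ∈ KS c K) :
    ∃ k ∈ K, x = k * (c.f (rh c K x))⁻¹ := by
  classical
  obtain ⟨k, hk, p, hp⟩ := hx
  have h : ∃ p : B, ∃ k ∈ K, x = k * (c.f p)⁻¹ := ⟨p, k, hk, hp⟩
  rw [rh, dif_pos h]
  exact h.choose_spec

/-- the coarse inverse is coarsely Lipschitz. -/
lemma exists_D (K : Finset G) (g : G) : ∃ D : Finset B, ∀ x y : G, x ∈ KS c K → y ∈ KS c K →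
    y = g⁻¹ * x → (rh c K y)⁻¹ * rh c K x ∈ D ∧ (rh c K x)⁻¹ * rh c K y ∈ D := by
  classical
  have h1 : ∀ a : G, ∃ D : Finset B, ∀ p d, (c.f p)⁻¹ * c.f (p * d) = a → d ∈ D := by
    intro a
    refine ⟨(c.inj a).toFinset, fun p d hd => ?_⟩
    rw [Set.Finite.mem_toFinset]
    exact ⟨p, hd⟩
  choose D hD using h1
  refine ⟨(K ×ˢ K).biUnion (fun k => D (k.1⁻¹ * g * k.2) ∪ D (k.1⁻¹ * g⁻¹ * k.2)),
    fun x y hx hy hxy => ?_⟩
  obtain ⟨k, hk, hkx⟩ := rh_spec c K hx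
  obtain ⟨l, hl, hly⟩ := rh_spec c K hy
  set p := rh c K x with hp
  set q := rh c K y with hq
  have h2 : (c.f p)⁻¹ * c.f q = k⁻¹ * g * l := by
    have h3 : g * l * (c.f q)⁻¹ = k * (c.f p)⁻¹ := by
      rw [← hkx, mul_assoc, ← hly, hxy, mul_inv_cancel_left]
    have h4 : (c.f p)⁻¹ = k⁻¹ * (g * l * (c.f q)⁻¹) := by rw [h3]; group
    rw [h4]
    group
  have h2' : (c.f q)⁻¹ * c.f p = l⁻¹ * g⁻¹ * k := by
    have := congrArg Inv.inv h2
    simpa [mul_assoc] using this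
  constructor
  · rw [Finset.mem_biUnion]
    refine ⟨(l, k), Finset.mk_mem_product hl hk, Finset.mem_union_right _ (hD _ q _ ?_)⟩
    rw [mul_inv_cancel_left]
    exact h2'
  · rw [Finset.mem_biUnion]
    refine ⟨(k, l), Finset.mk_mem_product hk hl, Finset.mem_union_left _ (hD _ p _ ?_)⟩
    rw [mul_inv_cancel_left]
    exact h2

/-- the neighbours. -/
lemma exists_H (K : Finset G) (Φ : Finset B) : ∃ H : Finset G, ∀ x : G, x ∈ KS c K →
    ∀ b ∈ Φ, x * c.f (rh c K x * b) ∈ H := by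
  classical
  refine ⟨(K ×ˢ Φ).biUnion fun k => ((c.steps k.2).toFinset.image (k.1 * ·)), fun x hx b hb => ?_⟩
  obtain ⟨k, hk, hkx⟩ := rh_spec c K hx
  rw [Finset.mem_biUnion]
  refine ⟨(k, b), Finset.mk_mem_product hk hb, Finset.mem_image.2
    ⟨(c.f (rh c K x))⁻¹ * c.f (rh c K x * b), ?_, ?_⟩⟩
  · rw [Set.Finite.mem_toFinset]
    exact ⟨rh c K x, rfl⟩
  · show k * ((c.f (rh c K x))⁻¹ * c.f (rh c K x * b)) = _
    rw [← mul_assoc, ← hkx]

end field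

section vec

variable (K : Finset G) (Φ : Finset B) (r : ℕ)

open Classical in
/-- the box around a point. -/
noncomputable def bx (K : Finset G) (Φ : Finset B) (c : CE G B) (x : G) : Finset B :=
  Φ.image (rh c K x * ·)

lemma card_bx (x : G) : (bx K Φ c x).card = Φ.card := by
  classical
  exact Finset.card_image_of_injective _ (mul_right_injective _)

lemma mem_bx (x : G) (q : B) : q ∈ bx K Φ c x ↔ (rh c K x)⁻¹ * q ∈ Φ := by
  classical
  rw [bx, Finset.mem_image]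
  constructor
  · rintro ⟨b, hb, rfl⟩
    rwa [inv_mul_cancel_left]
  · intro h
    exact ⟨_, h, mul_inv_cancel_left _ _⟩

open Classical in
/-- the field of vectors. -/
noncomputable def vf (x : G) : Raw.L2 B :=
  if x ∈ KS c K then ∑ q ∈ bx K Φ c x, lp.single 2 q
    ((((√(Φ.card : ℝ))⁻¹ : ℝ) : ℂ) * (starRingEnd ℂ) (s.σ (x * c.f q) r x)) else 0

lemma vf_apply (x : G) (hx : x ∈ KS c K) (q : B) : vf s K Φ r x q =
    open Classical in if q ∈ bx K Φ c x then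
      (((√(Φ.card : ℝ))⁻¹ : ℝ) : ℂ) * (starRingEnd ℂ) (s.σ (x * c.f q) r x) else 0 := by
  classical
  rw [vf, if_pos hx, Raw.lpsum_apply]

lemma norm_term (g x : G) : ‖(((√(Φ.card : ℝ))⁻¹ : ℝ) : ℂ) * (starRingEnd ℂ) (s.σ g r x)‖ ^ 2 =
    (Φ.card : ℝ)⁻¹ := by
  rw [norm_mul, RCLike.norm_conj, s.norm, mul_one, Complex.norm_real, Real.norm_eq_abs, sq_abs,
    inv_pow, Real.sq_sqrt (Nat.cast_nonneg _)]

lemma norm_vf (hΦ : Φ.Nonempty) (x : G) (hx : x ∈ KS c K) : ‖vf s K Φ r x‖ = 1 := by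
  classical
  have h1 : ‖vf s K Φ r x‖ ^ 2 = 1 := by
    rw [vf, if_pos hx, Raw.norm_lpsum_sq]
    simp only [norm_term]
    rw [Finset.sum_const, card_bx, nsmul_eq_mul]
    exact mul_inv_cancel₀ (Nat.cast_ne_zero.2 (Finset.card_ne_zero.2 hΦ))
  have h2 := norm_nonneg (vf s K Φ r x)
  nlinarith

lemma norm_vf_le (hΦ : Φ.Nonempty) (x : G) : ‖vf s K Φ r x‖ ≤ 1 := by
  classical
  by_cases hx : x ∈ KS c K
  · exact (norm_vf s K Φ r hΦ x hx).le
  · rw [vf, if_neg hx, norm_zero]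
    exact zero_le_one

open Classical in
lemma card_bx_sdiff (x y : G) : ((bx K Φ c x \ bx K Φ c y).card : ℝ) ≤
    ((Φ.filter fun b => ((rh c K y)⁻¹ * rh c K x) * b ∉ Φ).card : ℝ) := by
  have h1 : bx K Φ c x \ bx K Φ c y ⊆
      (Φ.filter fun b => ((rh c K y)⁻¹ * rh c K x) * b ∉ Φ).image (rh c K x * ·) := by
    intro q hq
    rw [Finset.mem_sdiff, mem_bx, mem_bx] at hq
    refine Finset.mem_image.2 ⟨(rh c K x)⁻¹ * q, Finset.mem_filter.2 ⟨hq.1, ?_⟩,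
      mul_inv_cancel_left _ _⟩
    rw [mul_assoc, mul_inv_cancel_left]
    exact hq.2
  exact_mod_cast (Finset.card_le_card h1).trans Finset.card_image_le

open Classical in
/-- almost equivariance of the field. -/
lemma norm_vf_sub (hΦ : Φ.Nonempty) (g x : G) (hx : x ∈ KS c K) (hy : g⁻¹ * x ∈ KS c K)
    (H : Finset G) (hH : ∀ x : G, x ∈ KS c K → ∀ b ∈ Φ, x * c.f (rh c K x * b) ∈ H) {ε : ℝ}
    (h1 : ((Φ.filter fun b => ((rh c K (g⁻¹ * x))⁻¹ * rh c K x) * b ∉ Φ).card : ℝ) ≤ ε * Φ.card)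
    (h2 : ((Φ.filter fun b => ((rh c K x)⁻¹ * rh c K (g⁻¹ * x)) * b ∉ Φ).card : ℝ) ≤ ε * Φ.card) :
    ‖s.σ g r x • vf s K Φ r x - vf s K Φ r (g⁻¹ * x)‖ ^ 2 ≤
      2 * ε + ∑ h ∈ H, c.a r * ‖s.δ g h r x‖ ^ 2 := by
  set y := g⁻¹ * x with hydef
  set Fx := bx K Φ c x with hFx
  set Fy := bx K Φ c y with hFy
  set κ : ℝ := (Φ.card : ℝ)⁻¹ with hκ
  have hΦ0 : (0 : ℝ) < Φ.card := by exact_mod_cast Finset.card_pos.2 hΦ
  have hκ0 : 0 ≤ κ := by positivity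
  set D : Raw.L2 B := s.σ g r x • vf s K Φ r x - vf s K Φ r y with hD
  have hDq : ∀ q, D q = s.σ g r x * vf s K Φ r x q - vf s K Φ r y q := fun q => rfl
  set M : ℝ := ∑ h ∈ H, c.a r * ‖s.δ g h r x‖ ^ 2 with hM
  have hM0 : 0 ≤ M := Finset.sum_nonneg fun h _ => mul_nonneg (c.pos r).le (by positivity)
  have hzero : ∀ q, q ∉ Fx ∪ Fy → ‖D q‖ ^ 2 = 0 := by
    intro q hq
    rw [Finset.mem_union, not_or] at hq
    rw [hDq, vf_apply s K Φ r x hx, vf_apply s K Φ r y hy, if_neg hq.1, if_neg hq.2]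
    simp
  have hterm : ∀ q ∈ Fx ∪ Fy, ‖D q‖ ^ 2 ≤ (if q ∈ Fx \ Fy then κ else 0) +
      (if q ∈ Fy \ Fx then κ else 0) + (if q ∈ Fy then κ * M else 0) := by
    intro q _
    rw [hDq, vf_apply s K Φ r x hx, vf_apply s K Φ r y hy]
    by_cases q1 : q ∈ Fx <;> by_cases q2 : q ∈ Fy
    · rw [if_pos q1, if_pos q2, if_neg (by simp [q2]), if_neg (by simp [q1]), if_pos q2, zero_add,
        zero_add]
      have e1 : s.σ g r x * ((((√(Φ.card : ℝ))⁻¹ : ℝ) : ℂ) * (starRingEnd ℂ) (s.σ (x * c.f q) r x)) -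
          (((√(Φ.card : ℝ))⁻¹ : ℝ) : ℂ) * (starRingEnd ℂ) (s.σ (y * c.f q) r y) =
          (((√(Φ.card : ℝ))⁻¹ : ℝ) : ℂ) * (s.σ g r x * (starRingEnd ℂ) (s.σ (x * c.f q) r x) -
            (starRingEnd ℂ) (s.σ (y * c.f q) r y)) := by ring
      have e2 : x * c.f q = g * (y * c.f q) := by
        rw [hydef, ← mul_assoc, mul_inv_cancel_left]
      set h := y * c.f q with hh
      have hhH : h ∈ H := by
        have := hH y hy _ ((mem_bx K Φ y q).1 q2)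
        rwa [mul_inv_cancel_left] at this
      have e3 : ‖s.σ g r x * (starRingEnd ℂ) (s.σ (x * c.f q) r x) - (starRingEnd ℂ) (s.σ h r y)‖ =
          ‖s.σ (g * h) r x - s.σ g r x * s.σ h r y‖ := by
        rw [e2]
        have n1 : (starRingEnd ℂ) (s.σ (g * h) r x) * s.σ (g * h) r x = 1 := by
          rw [← Complex.normSq_eq_conj_mul_self, Complex.normSq_eq_norm_sq, s.norm]
          simp
        have n2 : (starRingEnd ℂ) (s.σ h r y) * s.σ h r y = 1 := by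
          rw [← Complex.normSq_eq_conj_mul_self, Complex.normSq_eq_norm_sq, s.norm]
          simp
        have e4 : s.σ g r x * (starRingEnd ℂ) (s.σ (g * h) r x) - (starRingEnd ℂ) (s.σ h r y) =
            -((starRingEnd ℂ) (s.σ (g * h) r x) * (starRingEnd ℂ) (s.σ h r y)) *
              (s.σ (g * h) r x - s.σ g r x * s.σ h r y) := by
          linear_combination (-(s.σ g r x * (starRingEnd ℂ) (s.σ (g * h) r x))) * n2 +
            (starRingEnd ℂ) (s.σ h r y) * n1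
        rw [e4, norm_mul, norm_neg, norm_mul, RCLike.norm_conj, RCLike.norm_conj, s.norm, s.norm]
        ring
      rw [e1, norm_mul, mul_pow, e3, Complex.norm_real, Real.norm_eq_abs, sq_abs, inv_pow,
        Real.sq_sqrt hΦ0.le]
      have e5 := s.mul g h r x
      have e6 : ‖s.σ (g * h) r x - s.σ g r x * s.σ h r y‖ ^ 2 ≤ c.a r * ‖s.δ g h r x‖ ^ 2 := by
        calc ‖s.σ (g * h) r x - s.σ g r x * s.σ h r y‖ ^ 2 ≤ (√(c.a r) * ‖s.δ g h r x‖) ^ 2 := by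
              gcongr
          _ = c.a r * ‖s.δ g h r x‖ ^ 2 := by rw [mul_pow, Real.sq_sqrt (c.pos r).le]
      have e7 : c.a r * ‖s.δ g h r x‖ ^ 2 ≤ M :=
        Finset.single_le_sum (f := fun h => c.a r * ‖s.δ g h r x‖ ^ 2)
          (fun h _ => mul_nonneg (c.pos r).le (by positivity)) hhH
      exact mul_le_mul_of_nonneg_left (e6.trans e7) hκ0
    · rw [if_pos q1, if_neg q2, if_pos (Finset.mem_sdiff.2 ⟨q1, q2⟩), if_neg (by simp [q1]),
        if_neg q2, sub_zero, norm_mul, s.norm, one_mul, norm_term]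
      linarith
    · rw [if_neg q1, if_pos q2, if_neg (by simp [q1]), if_pos (Finset.mem_sdiff.2 ⟨q2, q1⟩),
        if_pos q2, mul_zero, zero_sub, norm_neg, norm_term]
      nlinarith [mul_nonneg hκ0 hM0]
    · rw [if_neg q1, if_neg q2, if_neg (by simp [q1]), if_neg (by simp [q2]), if_neg q2]
      simp
  have hsum : ‖D‖ ^ 2 = ∑ q ∈ Fx ∪ Fy, ‖D q‖ ^ 2 := by
    rw [Raw.norm_sq_eq]
    exact tsum_eq_sum hzero
  rw [hsum]
  refine (Finset.sum_le_sum hterm).trans ?_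
  rw [Finset.sum_add_distrib, Finset.sum_add_distrib, ← Finset.sum_filter, ← Finset.sum_filter,
    ← Finset.sum_filter, Finset.sum_const, Finset.sum_const, Finset.sum_const, nsmul_eq_mul,
    nsmul_eq_mul, nsmul_eq_mul]
  have k1 : (((Fx ∪ Fy).filter fun q => q ∈ Fx \ Fy).card : ℝ) ≤ ε * Φ.card := by
    have : (Fx ∪ Fy).filter (fun q => q ∈ Fx \ Fy) ⊆ Fx \ Fy := fun q hq =>
      (Finset.mem_filter.1 hq).2
    refine le_trans (by exact_mod_cast Finset.card_le_card this) ((card_bx_sdiff K Φ x y).trans h1)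
  have k2 : (((Fx ∪ Fy).filter fun q => q ∈ Fy \ Fx).card : ℝ) ≤ ε * Φ.card := by
    have : (Fx ∪ Fy).filter (fun q => q ∈ Fy \ Fx) ⊆ Fy \ Fx := fun q hq =>
      (Finset.mem_filter.1 hq).2
    refine le_trans (by exact_mod_cast Finset.card_le_card this) ((card_bx_sdiff K Φ y x).trans h2)
  have k3 : (((Fx ∪ Fy).filter fun q => q ∈ Fy).card : ℝ) ≤ Φ.card := by
    have : (Fx ∪ Fy).filter (fun q => q ∈ Fy) ⊆ Fy := fun q hq => (Finset.mem_filter.1 hq).2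
    have h3 := Finset.card_le_card this
    rw [hFy, card_bx] at h3
    exact_mod_cast h3
  have m1 : ε * Φ.card * κ = ε := by rw [hκ, mul_assoc, mul_inv_cancel₀ hΦ0.ne', mul_one]
  have m3 : (Φ.card : ℝ) * (κ * M) = M := by
    rw [← mul_assoc, hκ, mul_inv_cancel₀ hΦ0.ne', one_mul]
  have l1 := mul_le_mul_of_nonneg_right k1 hκ0
  have l2 := mul_le_mul_of_nonneg_right k2 hκ0
  have l3 := mul_le_mul_of_nonneg_right k3 (mul_nonneg hκ0 hM0)
  rw [m1] at l1 l2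
  rw [m3] at l3
  linarith

end vec

end Pool.Agent.LibQF83
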