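import Pool.Agent.LibCod83.Low

/-!
Lipschitz extensions: a quasi-isometric embedding of `ℤᵐ` has a Lipschitz left inverse.
-/

set_option autoImplicit false

namespace Pool.Agent.LibQF83

variable {G : Type} [Group G] {m : ℕ}

/-- a map `f : ℤᵐ → G` with a Lipschitz left inverse `φ`, up to an error `η`. -/
structure QF (f : (Fin m → ℤ) → G) (φ : G → Fin m → ℝ) (η : ℝ) : Prop where
  steps : ∀ b : Fin m → ℤ, (Set.range fun p => (f p)⁻¹ * f (p + b)).Finite
  lip : ∀ g : G, ∃ C : ℝ, ∀ (x : G) (i : Fin m), |φ (x * g) i - φ x i| ≤ C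
  inv : ∀ p i, |φ (f p) i - p i| ≤ η

/-- the steps in all directions. -/
lemma steps_all (f : (Fin m → ℤ) → G)
    (hf : ∀ i : Fin m, (Set.range fun p => (f p)⁻¹ * f (p + Pi.single i 1)).Finite)
    (b : Fin m → ℤ) : (Set.range fun p => (f p)⁻¹ * f (p + b)).Finite := by
  classical
  let H : AddSubgroup (Fin m → ℤ) :=
    { carrier := {b | (Set.range fun p => (f p)⁻¹ * f (p + b)).Finite}
      zero_mem' := by
        refine (Set.finite_singleton (1 : G)).subset ?_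
        rintro _ ⟨p, rfl⟩
        simp
      add_mem' := by
        intro b c hb hc
        refine (Set.Finite.mul hb hc).subset ?_
        rintro _ ⟨p, rfl⟩
        refine Set.mem_mul.2 ⟨(f p)⁻¹ * f (p + b), ⟨p, rfl⟩,
          (f (p + b))⁻¹ * f (p + b + c), ⟨p + b, rfl⟩, ?_⟩
        change (f p)⁻¹ * f (p + b) * ((f (p + b))⁻¹ * f (p + b + c)) = (f p)⁻¹ * f (p + (b + c))
        rw [← add_assoc]
        group
      neg_mem' := by
        intro b hb
        refine (Set.Finite.inv hb).subset ?_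
        rintro _ ⟨p, rfl⟩
        rw [Set.mem_inv]
        refine ⟨p + -b, ?_⟩
        simp only [neg_add_cancel_right]
        group }
  have h1 : b = ∑ i, (b i) • (Pi.single i 1 : Fin m → ℤ) := by
    funext j
    rw [Finset.sum_apply]
    simp [Pi.single_apply]
  have h2 : b ∈ H := by
    rw [h1]
    exact AddSubgroup.sum_mem H fun i _ => AddSubgroup.zsmul_mem H (hf i) (b i)
  exact h2

/-- McShane extension. -/
lemma exists_lip (f : (Fin m → ℤ) → G) (l : G → ℝ) (hl : ∀ g h, l (g * h) ≤ l g + l h)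
    (hf : ∀ p q i, |((p i : ℤ) : ℝ) - q i| ≤ l ((f p)⁻¹ * f q)) :
    ∃ (φ : G → Fin m → ℝ) (D : ℝ), (∀ g : G, ∃ C : ℝ, ∀ (x : G) (i : Fin m),
      |φ (x * g) i - φ x i| ≤ C) ∧ ∀ p i, |φ (f p) i - p i| ≤ D := by
  have hbdd : ∀ (x : G) (i : Fin m), BddBelow (Set.range fun p : Fin m → ℤ =>
      ((p i : ℤ) : ℝ) + l ((f p)⁻¹ * x)) := by
    intro x i
    refine ⟨-l (x⁻¹ * f 0), ?_⟩
    rintro _ ⟨p, rfl⟩
    have h1 := hf p 0 i
    have h2 := hl ((f p)⁻¹ * x) (x⁻¹ * f 0)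
    have h3 : (f p)⁻¹ * x * (x⁻¹ * f 0) = (f p)⁻¹ * f 0 := by group
    rw [h3] at h2
    have h4 := neg_abs_le (((p i : ℤ) : ℝ) - ((0 : Fin m → ℤ) i : ℤ))
    have h5 : (((0 : Fin m → ℤ) i : ℤ) : ℝ) = 0 := by simp
    rw [h5, sub_zero] at h4 h1
    change -l (x⁻¹ * f 0) ≤ ((p i : ℤ) : ℝ) + l ((f p)⁻¹ * x)
    linarith
  refine ⟨fun x i => ⨅ p : Fin m → ℤ, (((p i : ℤ) : ℝ) + l ((f p)⁻¹ * x)), l 1, ?_, ?_⟩
  · have key : ∀ (g x : G) (i : Fin m),
        (⨅ p : Fin m → ℤ, (((p i : ℤ) : ℝ) + l ((f p)⁻¹ * (x * g)))) ≤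
        (⨅ p : Fin m → ℤ, (((p i : ℤ) : ℝ) + l ((f p)⁻¹ * x))) + l g := by
      intro g x i
      rw [← sub_le_iff_le_add]
      refine le_ciInf fun p => ?_
      rw [sub_le_iff_le_add]
      refine (ciInf_le (hbdd (x * g) i) p).trans ?_
      have h1 := hl ((f p)⁻¹ * x) g
      rw [mul_assoc] at h1
      linarith
    intro g
    refine ⟨max (l g) (l g⁻¹), fun x i => ?_⟩
    have h1 := key g x i
    have h2 := key g⁻¹ (x * g) i
    rw [mul_inv_cancel_right] at h2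
    rw [abs_le]
    have h3 := le_max_left (l g) (l g⁻¹)
    have h4 := le_max_right (l g) (l g⁻¹)
    constructor
    · simp only
      linarith
    · simp only
      linarith
  · intro p i
    have h1 : (⨅ q : Fin m → ℤ, (((q i : ℤ) : ℝ) + l ((f q)⁻¹ * f p))) ≤ p i + l 1 := by
      refine (ciInf_le (hbdd (f p) i) p).trans ?_
      rw [inv_mul_cancel]
    have h2 : ((p i : ℤ) : ℝ) ≤ ⨅ q : Fin m → ℤ, (((q i : ℤ) : ℝ) + l ((f q)⁻¹ * f p)) := by
      refine le_ciInf fun q => ?_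
      have h3 := hf q p i
      have h4 := neg_abs_le (((q i : ℤ) : ℝ) - p i)
      linarith
    rw [abs_le]
    constructor
    · simp only
      have h5 := hl 1 1
      rw [mul_one] at h5
      linarith
    · simp only
      linarith

/-- dilation. -/
theorem exists_QF (f : (Fin m → ℤ) → G)
    (hs : ∀ i : Fin m, (Set.range fun p => (f p)⁻¹ * f (p + Pi.single i 1)).Finite)
    (l : G → ℝ) (hl : ∀ g h, l (g * h) ≤ l g + l h)
    (hf : ∀ p q i, |((p i : ℤ) : ℝ) - q i| ≤ l ((f p)⁻¹ * f q)) (η : ℝ) (hη : 0 < η) :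
    ∃ (f' : (Fin m → ℤ) → G) (φ' : G → Fin m → ℝ), QF f' φ' η := by
  obtain ⟨φ, D, h1, h2⟩ := exists_lip f l hl hf
  obtain ⟨n, hn⟩ := exists_nat_gt (D / η)
  rw [div_lt_iff₀ hη] at hn
  have hN : (0 : ℝ) < (n : ℝ) + 1 := by positivity
  refine ⟨fun p => f (((n + 1 : ℕ) : ℤ) • p), fun x i => φ x i / ((n : ℝ) + 1), ?_, ?_, ?_⟩
  · intro b
    refine (steps_all f hs (((n + 1 : ℕ) : ℤ) • b)).subset ?_
    rintro _ ⟨p, rfl⟩
    refine ⟨((n + 1 : ℕ) : ℤ) • p, ?_⟩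
    simp only [smul_add]
  · intro g
    obtain ⟨C, hC⟩ := h1 g
    refine ⟨C / ((n : ℝ) + 1), fun x i => ?_⟩
    rw [← sub_div, abs_div, abs_of_pos hN]
    exact div_le_div_of_nonneg_right (hC x i) hN.le
  · intro p i
    have h3 := h2 (((n + 1 : ℕ) : ℤ) • p) i
    have h4 : (((((n + 1 : ℕ) : ℤ) • p) i : ℤ) : ℝ) = ((n : ℝ) + 1) * p i := by
      rw [Pi.smul_apply, smul_eq_mul]
      push_cast
      ring
    rw [h4] at h3
    have h5 : φ (f (((n + 1 : ℕ) : ℤ) • p)) i / ((n : ℝ) + 1) - p i =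
        (φ (f (((n + 1 : ℕ) : ℤ) • p)) i - ((n : ℝ) + 1) * p i) / ((n : ℝ) + 1) := by
      field_simp
    rw [h5, abs_div, abs_of_pos hN, div_le_iff₀ hN]
    refine h3.trans ?_
    nlinarith

/-- the fibres are bounded. -/
lemma QF.fin {f : (Fin m → ℤ) → G} {φ : G → Fin m → ℝ} {η : ℝ} (h : QF f φ η) (g : G) :
    {d : Fin m → ℤ | ∃ p, (f p)⁻¹ * f (p + d) = g}.Finite := by
  obtain ⟨C, hC⟩ := h.lip g
  obtain ⟨K, hK⟩ := exists_nat_gt (C + 2 * η)
  refine (Set.finite_Icc (fun _ : Fin m => -(K : ℤ)) (fun _ => (K : ℤ))).subset ?_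
  rintro d ⟨p, hp⟩
  have hf : f (p + d) = f p * g := by rw [← hp]; group
  have key : ∀ i, |((d i : ℤ) : ℝ)| < K := by
    intro i
    have h1 := h.inv p i
    have h2 := h.inv (p + d) i
    have h3 := hC (f p) i
    rw [hf] at h2
    have h4 : (((p + d) i : ℤ) : ℝ) = p i + d i := by
      rw [Pi.add_apply]
      push_cast
      ring
    rw [h4] at h2
    rw [abs_le] at h1 h2 h3
    rw [abs_lt]
    constructor <;> linarith [h1.1, h1.2, h2.1, h2.2, h3.1, h3.2]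
  rw [Set.mem_Icc]
  constructor
  · intro i
    have h1 := (abs_lt.1 (key i)).1
    have h2 : -(K : ℤ) < d i := by exact_mod_cast h1
    exact h2.le
  · intro i
    have h1 := (abs_lt.1 (key i)).2
    have h2 : d i < (K : ℤ) := by exact_mod_cast h1
    exact h2.le

end Pool.Agent.LibQF83
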