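import Pool.Agent.LibQF83.Coh
import Pool.Agent.LibQF83.Cyc

/-!
Quasi-flats of codimension at most two in Poincaré duality groups.
-/

set_option autoImplicit false

namespace Pool.Agent.LibQF83

open Pool.Agent.LibZIS Pool.Agent.LibCod83 Filter Topology

universe v

variable {G : Type} [Group G] {E : Type v} [TopologicalSpace E] [PathConnectedSpace E]
  [MulAction G E] [ContinuousConstSMul G E]

/-- a small constant. -/
lemma exists_eta (m : ℕ) : ∃ η : ℝ, 0 < η ∧ (m.factorial : ℝ) * ((1 + 2 * η) ^ m - 1) ≤ 1 / 2 := by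
  have h1 : Tendsto (fun η : ℝ => (m.factorial : ℝ) * ((1 + 2 * η) ^ m - 1)) (𝓝[>] 0)
      (𝓝 ((m.factorial : ℝ) * ((1 + 2 * 0) ^ m - 1))) := by
    refine Tendsto.mono_left ?_ nhdsWithin_le_nhds
    exact Continuous.tendsto (by fun_prop) 0
  have h2 : (m.factorial : ℝ) * ((1 + 2 * 0) ^ m - 1) = 0 := by simp
  rw [h2] at h1
  have h3 := (h1.eventually (gt_mem_nhds (show (0 : ℝ) < 1 / 2 by norm_num))).and
    self_mem_nhdsWithin
  obtain ⟨η, h4, h5⟩ := h3.exists
  exact ⟨η, h5, h4.le⟩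

/-- quasi-flats of codimension at most two. -/
theorem main (hfree : ∀ (g : G) (e : E), g • e = e → g = 1) (hE : H1Zero E) (m k : ℕ) (hk : k ≤ 2)
    (hG : ∀ M : Rep.{0} ℤ G, Nonempty (groupCohomology M k ≅ groupHomology M m)) (l : G → ℝ) (hl : ∀ g h, l (g * h) ≤ l g + l h)
    (f : (Fin m → ℤ) → G)
    (hf : ∀ i : Fin m, (Set.range fun p => (f p)⁻¹ * f (p + Pi.single i 1)).Finite)
    (hfl : ∀ p q i, |((p i : ℤ) : ℝ) - q i| ≤ l ((f p)⁻¹ * f q)) :
    ∃ i, i ≤ k ∧ Nontrivial (Hgy (lam G) E i) := by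
  by_contra hcon
  push Not at hcon
  have H : ∀ i, i ≤ k → ¬ Nontrivial (Hgy (lam G) E i) := fun i hi => by
    have := hcon i hi
    rwa [not_nontrivial_iff_subsingleton]
  obtain ⟨η, hη0, hη⟩ := exists_eta m
  obtain ⟨f', φ, hQ⟩ := exists_QF f hf l hl hfl η hη0
  have h1 : Nontrivial (groupHomology (RM (ceQF hQ)) m) := nontrivial_homology hQ hη hη0.le
  obtain ⟨e⟩ := hG (RM (ceQF hQ))
  have h3 : Nontrivial (groupCohomology (RM (ceQF hQ)) k) := by
    have e' : groupCohomology (RM (ceQF hQ)) k ≃ groupHomology (RM (ceQF hQ)) m :=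
      e.toLinearEquiv.toEquiv
    exact e'.nontrivial
  exact coh (amenable_zn m) hfree hE k hk H h3

end Pool.Agent.LibQF83
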