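import Pool.Agent.LibQF83.Seq

/-!
Twisted translations of concentrated sequences by approximate unimodular cocycles.
-/

set_option autoImplicit false

namespace Pool.Agent.LibQF83

open Pool.Agent.LibZIS Pool.Agent.LibCod83 Filter Topology

variable {G B : Type} [Group G] [Group B]

/-- an approximate unimodular cocycle. -/
structure ACoc (c : CE G B) where
  /-- the values -/
  σ : G → ℕ → G → ℂ
  norm : ∀ g r x, ‖σ g r x‖ = 1
  /-- the error -/
  δ : G → G → ℕ → Raw.L2 G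
  lim : ∀ g h, Tendsto (fun r => ‖δ g h r‖) atTop (𝓝 0)
  mul : ∀ g h r x, ‖σ (g * h) r x - σ g r x * σ h r (g⁻¹ * x)‖ ≤ √(c.a r) * ‖δ g h r x‖

variable {c : CE G B} (s : ACoc c)

/-- the twisted translation. -/
noncomputable def opL (g : G) (r : ℕ) : Raw.L2 G →L[ℂ] Raw.L2 G :=
  (mulU (s.σ g r) (s.norm g r)).toContinuousLinearMap * Raw.tr g

lemma opL_apply (g : G) (r : ℕ) (ξ : Raw.L2 G) (x : G) :
    opL s g r ξ x = s.σ g r x * ξ (g⁻¹ * x) := rfl

lemma norm_opL (g : G) (r : ℕ) (ξ : Raw.L2 G) : ‖opL s g r ξ‖ = ‖ξ‖ := by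
  have h1 : ‖opL s g r ξ‖ = ‖(Raw.tr g ξ : Raw.L2 G)‖ :=
    (mulU (s.σ g r) (s.norm g r)).norm_map (Raw.tr g ξ)
  rw [h1, Raw.norm_tr]

/-- the twisted translation of sequences. -/
noncomputable def opB (g : G) : BB G →ₗ[ℂ] BB G where
  toFun u := ⟨fun r => opL s g r (u r), memℓp_infty ⟨‖u‖, by
    rintro _ ⟨r, rfl⟩
    show ‖opL s g r (u r)‖ ≤ ‖u‖
    rw [norm_opL]
    exact bb_apply_le u r⟩⟩
  map_add' u v := by
    refine lp.ext (funext fun r => ?_)
    exact map_add (opL s g r) (u r) (v r)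
  map_smul' z u := by
    refine lp.ext (funext fun r => ?_)
    exact map_smul (opL s g r) z (u r)

lemma opB_apply (g : G) (u : BB G) (r : ℕ) : opB s g u r = opL s g r (u r) := rfl

lemma Bd.op [DecidableEq G] {K : Finset G} {C : ℝ} {u : BB G} (hu : Bd c K C u) (g : G) :
    Bd c (K.image (g * ·)) C (opB s g u) := by
  intro r x
  rw [opB_apply, opL_apply]
  constructor
  · rw [norm_mul, s.norm, one_mul]
    exact (hu r _).1
  · intro h
    exact KS_mul c g ((hu r _).2 (right_ne_zero_of_mul h))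

lemma Loc.op {u : BB G} (hu : Loc c u) (g : G) : Loc c (opB s g u) := by
  classical
  intro ε hε
  obtain ⟨K, C, u', hu', h1⟩ := hu ε hε
  refine ⟨_, C, opB s g u', hu'.op s g, ?_⟩
  filter_upwards [h1] with r hr
  rw [opB_apply, opB_apply, ← map_sub, norm_opL]
  exact hr

/-- the twisted translation of concentrated sequences. -/
noncomputable def opS (g : G) : locS c →ₗ[ℂ] locS c :=
  ((opB s g).comp (locS c).subtype).codRestrict (locS c) fun u => Loc.op s u.2 g

lemma opS_null (g : G) : nul c ≤ (nul c).comap (opS s g) := by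
  intro u hu
  show Tendsto (fun r => ‖opL s g r (u.1 r)‖) atTop (𝓝 0)
  simp only [norm_opL]
  exact hu

/-- the twisted translation on the asymptotic space. -/
noncomputable def opV (g : G) : V c →L[ℂ] V c :=
  (Submodule.mapQ (nul c) (nul c) (opS s g) (opS_null s g)).mkContinuous 1 (by
    intro v
    obtain ⟨u, hu, rfl⟩ := cl_surj c v
    rw [one_mul]
    refine le_of_forall_pos_le_add fun ε hε => ?_
    have h1 : (nul c).mapQ (nul c) (opS s g) (opS_null s g) (cl c u hu) =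
      cl c (opB s g u) (hu.op s g) := rfl
    rw [h1]
    refine norm_cl_le c _ (by positivity) ?_
    filter_upwards [eventually_le c hu hε] with r hr
    rw [opB_apply, norm_opL]
    exact hr)

lemma opV_cl (g : G) {u : BB G} (hu : Loc c u) :
    opV s g (cl c u hu) = cl c (opB s g u) (hu.op s g) := rfl

/-- density. -/
lemma tendsto_of_bd (T : ℕ → (Raw.L2 G →L[ℂ] Raw.L2 G)) (D : ℝ) (hD : 0 ≤ D)
    (hT : ∀ r ξ, ‖T r ξ‖ ≤ D * ‖ξ‖)
    (h : ∀ (K : Finset G) (C : ℝ) (u : BB G), Bd c K C u →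
      Tendsto (fun r => ‖T r (u r)‖) atTop (𝓝 0)) {u : BB G} (hu : Loc c u) :
    Tendsto (fun r => ‖T r (u r)‖) atTop (𝓝 0) := by
  rw [tendsto_order]
  refine ⟨fun a ha => Eventually.of_forall fun r => lt_of_lt_of_le ha (norm_nonneg _),
    fun ε hε => ?_⟩
  obtain ⟨K, C, u', hu', h1⟩ := hu (ε / (2 * (D + 1))) (by positivity)
  filter_upwards [h1, (h K C u' hu').eventually (gt_mem_nhds (half_pos hε))] with r h2 h3
  have h4 : T r (u r) = T r (u r - u' r) + T r (u' r) := by rw [map_sub]; abel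
  have h5 := hT r (u r - u' r)
  have h6 : D * ‖u r - u' r‖ ≤ ε / 2 := by
    calc D * ‖u r - u' r‖ ≤ (D + 1) * (ε / (2 * (D + 1))) := by gcongr; linarith
      _ = ε / 2 := by field_simp
  rw [h4]
  exact lt_of_le_of_lt (norm_add_le _ _) (by linarith)

/-- twisted translations compose up to null sequences. -/
lemma tendsto_defect (g h : G) {u : BB G} (hu : Loc c u) :
    Tendsto (fun r => ‖opL s (g * h) r (u r) - opL s g r (opL s h r (u r))‖) atTop (𝓝 0) := by
  refine tendsto_of_bd (c := c) (fun r => opL s (g * h) r - opL s g r * opL s h r) 2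
    (by norm_num) (fun r ξ => ?_) (fun K C v hv => ?_) hu
  · refine (norm_sub_le _ _).trans ?_
    show ‖opL s (g * h) r ξ‖ + ‖opL s g r (opL s h r ξ)‖ ≤ 2 * ‖ξ‖
    rw [norm_opL, norm_opL, norm_opL]
    linarith
  · have h1 : Tendsto (fun r => |C| * ‖s.δ g h r‖) atTop (𝓝 0) := by
      simpa using (s.lim g h).const_mul |C|
    refine squeeze_zero (fun _ => norm_nonneg _) (fun r => ?_) h1
    have h2 : |C| * ‖s.δ g h r‖ = ‖((|C| : ℝ) : ℂ) • s.δ g h r‖ := by
      rw [norm_smul, Complex.norm_real, Real.norm_eq_abs, abs_abs]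
    rw [h2]
    refine norm_le_of_le fun x => ?_
    show ‖s.σ (g * h) r x * v r ((g * h)⁻¹ * x) -
      s.σ g r x * (s.σ h r (g⁻¹ * x) * v r (h⁻¹ * (g⁻¹ * x)))‖ ≤ ‖((|C| : ℝ) : ℂ) * s.δ g h r x‖
    have h3 : (g * h)⁻¹ * x = h⁻¹ * (g⁻¹ * x) := by group
    have h3' : s.σ (g * h) r x * v r ((g * h)⁻¹ * x) -
      s.σ g r x * (s.σ h r (g⁻¹ * x) * v r (h⁻¹ * (g⁻¹ * x))) =
      (s.σ (g * h) r x - s.σ g r x * s.σ h r (g⁻¹ * x)) * v r (h⁻¹ * (g⁻¹ * x)) := by
      rw [h3]; ring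
    rw [h3', norm_mul, norm_mul, Complex.norm_real, Real.norm_eq_abs, abs_abs]
    have h4 := s.mul g h r x
    have h5 := (hv r (h⁻¹ * (g⁻¹ * x))).1
    have h6 := Real.sqrt_pos.2 (c.pos r)
    calc ‖s.σ (g * h) r x - s.σ g r x * s.σ h r (g⁻¹ * x)‖ * ‖v r (h⁻¹ * (g⁻¹ * x))‖
        ≤ (√(c.a r) * ‖s.δ g h r x‖) * ‖v r (h⁻¹ * (g⁻¹ * x))‖ := by gcongr
      _ = (‖v r (h⁻¹ * (g⁻¹ * x))‖ * √(c.a r)) * ‖s.δ g h r x‖ := by ring
      _ ≤ |C| * ‖s.δ g h r x‖ := by
        refine mul_le_mul_of_nonneg_right (h5.trans (le_abs_self C)) (norm_nonneg _)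

lemma opV_mul (g h : G) : opV s (g * h) = opV s g * opV s h := by
  refine ContinuousLinearMap.ext fun v => ?_
  obtain ⟨u, hu, rfl⟩ := cl_surj c v
  show opV s (g * h) (cl c u hu) = opV s g (opV s h (cl c u hu))
  rw [opV_cl, opV_cl, opV_cl]
  exact (cl_eq_iff c _ _).2 (tendsto_defect s g h hu)

lemma opV_one : opV s 1 = 1 := by
  refine ContinuousLinearMap.ext fun v => ?_
  obtain ⟨u, hu, rfl⟩ := cl_surj c v
  show opV s 1 (cl c u hu) = cl c u hu
  rw [opV_cl]
  refine (cl_eq_iff c _ _).2 ?_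
  have h1 := tendsto_defect s 1 1 hu
  refine h1.congr fun r => ?_
  rw [mul_one]
  have h2 : opL s 1 r (u r) - opL s 1 r (opL s 1 r (u r)) =
    opL s 1 r (u r - opL s 1 r (u r)) := (map_sub _ _ _).symm
  rw [h2, norm_opL, norm_sub_rev]
  rfl

/-- the twisted representation on the asymptotic space. -/
noncomputable def opHom : G →* (V c →L[ℂ] V c) where
  toFun := opV s
  map_one' := opV_one s
  map_mul' := opV_mul s

end Pool.Agent.LibQF83
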