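import Pool.Agent.LibQF83.Dom

/-!
Vanishing of the cohomology of the asymptotic module in degrees at most two.
-/

set_option autoImplicit false

namespace Pool.Agent.LibQF83

open Pool.Agent.LibZIS Pool.Agent.LibCod83 Filter Topology

universe v

/-- the exponential map is Lipschitz modulo the integers. -/
lemma norm_ex_sub (s t : ℝ) (k : ℤ) : ‖ex s - ex t‖ ≤ 2 * Real.pi * |s - t - k| := by
  have h1 : ex s = ex (s - t - k) * ex t := by
    rw [← ex_add]
    have h2 : s - t - (k : ℝ) + t = s + ((-k : ℤ) : ℝ) := by push_cast; ring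
    rw [h2, ex_add, ex_int, mul_one]
  have h3 : ex s - ex t = (ex (s - t - k) - 1) * ex t := by
    rw [sub_mul, one_mul, ← h1]
  rw [h3, norm_mul, norm_ex, mul_one]
  exact norm_ex_sub_one _

variable {G B : Type} [Group G] [Group B] {c : CE G B}

variable {E : Type v} [TopologicalSpace E] [PathConnectedSpace E]
  [MulAction G E] [ContinuousConstSMul G E]

omit [PathConnectedSpace E] in
/-- degree zero. -/
theorem van0 (hB : Amenable B) (x0 : E) (h0 : ¬ Nontrivial (Hgy (lam G) E 0))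
    (u : ZS c) (hu : ∀ g, DN c (fun r x => ((u.1 r (g⁻¹ * x) : ℤ) : ℝ) - ((u.1 r x : ℤ) : ℝ))) :
    DN c (fun r x => ((u.1 r x : ℤ) : ℝ)) :=
  dinv hB x0 h0 (dl_int u) hu

/-- degree one. -/
theorem van1 (hB : Amenable B) (hfree : ∀ (g : G) (e : E), g • e = e → g = 1)
    (h0 : ¬ Nontrivial (Hgy (lam G) E 0)) (h1 : ¬ Nontrivial (Hgy (lam G) E 1))
    (u : G → ZS c) (hu : ∀ g h, DN c (fun r x => (((u (g * h)).1 r x : ℤ) : ℝ) -
      ((((u g).1 r x : ℤ) : ℝ) + (((u h).1 r (g⁻¹ * x) : ℤ) : ℝ)))) :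
    ∃ m : ZS c, ∀ g, DN c (fun r x => (((u g).1 r x : ℤ) : ℝ) -
      (((m.1 r (g⁻¹ * x) : ℤ) : ℝ) - ((m.1 r x : ℤ) : ℝ))) := by
  obtain ⟨x0⟩ : Nonempty E := inferInstance
  obtain ⟨v, hv, hv'⟩ := dcob1 hB hfree h0 h1 (triv c)
    (fun g r x => (((u g).1 r x : ℤ) : ℂ))
    (fun g => (dl_int (u g)).of_le 1 fun r x => by
      rw [Complex.norm_intCast, Real.norm_eq_abs, one_mul])
    (fun g h => (hu g h).of_le 1 fun r x => by
      rw [one_mul, ← Complex.norm_real]
      refine le_of_eq (congrArg norm ?_)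
      show _ - (_ + 1 * _) = _
      push_cast
      ring)
  set β : ℕ → G → ℝ := fun r x => (v r x).re with hβ
  have hβl : DL c β := hv.of_le 1 fun r x => by
    rw [one_mul]
    exact Complex.abs_re_le_norm _
  have hβ1 : ∀ g, DN c (fun r x => (((u g).1 r x : ℤ) : ℝ) - (β r (g⁻¹ * x) - β r x)) := by
    intro g
    refine (hv' g).of_le 1 fun r x => ?_
    rw [one_mul]
    have h3 := Complex.abs_re_le_norm ((((u g).1 r x : ℤ) : ℂ) -
      ((triv c).σ g r x * v r (g⁻¹ * x) - v r x))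
    refine le_trans (le_of_eq ?_) h3
    rw [Real.norm_eq_abs]
    congr 1
    show _ = (_ - (1 * _ - _) : ℂ).re
    simp [hβ]
  -- the exponential
  have hb : DL c (fun r x => ex (β r x) - 1) := hβl.of_le (2 * Real.pi) fun r x =>
    norm_ex_sub_one _
  have hbr : DN c (fun r x => (ex (β r x) - 1).re) := by
    refine dinv hB x0 h0 (hb.of_le 1 fun r x => by
      rw [one_mul]
      exact Complex.abs_re_le_norm _) fun g => ?_
    refine (hβ1 g).of_le (2 * Real.pi) fun r x => ?_
    have h3 := norm_ex_sub (β r (g⁻¹ * x)) (β r x) ((u g).1 r x)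
    have h4 : |β r (g⁻¹ * x) - β r x - (((u g).1 r x : ℤ) : ℝ)| =
        ‖(((u g).1 r x : ℤ) : ℝ) - (β r (g⁻¹ * x) - β r x)‖ := by
      rw [Real.norm_eq_abs, abs_sub_comm]
    rw [← h4]
    refine le_trans ?_ h3
    have h5 := Complex.abs_re_le_norm (ex (β r (g⁻¹ * x)) - ex (β r x))
    refine le_trans (le_of_eq ?_) h5
    rw [Real.norm_eq_abs]
    congr 1
    simp
  have hbi : DN c (fun r x => (ex (β r x) - 1).im) := by
    refine dinv hB x0 h0 (hb.of_le 1 fun r x => by
      rw [one_mul]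
      exact Complex.abs_im_le_norm _) fun g => ?_
    refine (hβ1 g).of_le (2 * Real.pi) fun r x => ?_
    have h3 := norm_ex_sub (β r (g⁻¹ * x)) (β r x) ((u g).1 r x)
    have h4 : |β r (g⁻¹ * x) - β r x - (((u g).1 r x : ℤ) : ℝ)| =
        ‖(((u g).1 r x : ℤ) : ℝ) - (β r (g⁻¹ * x) - β r x)‖ := by
      rw [Real.norm_eq_abs, abs_sub_comm]
    rw [← h4]
    refine le_trans ?_ h3
    have h5 := Complex.abs_im_le_norm (ex (β r (g⁻¹ * x)) - ex (β r x))
    refine le_trans (le_of_eq ?_) h5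
    rw [Real.norm_eq_abs]
    congr 1
    simp
  have hbn : DN c (fun r x => ‖ex (β r x) - 1‖) := by
    have h3 : DN c (fun r x => |(ex (β r x) - 1).re| + |(ex (β r x) - 1).im|) :=
      (hbr.of_le 1 fun r x => by rw [one_mul, Real.norm_eq_abs, abs_abs, Real.norm_eq_abs]).add
        (hbi.of_le 1 fun r x => by rw [one_mul, Real.norm_eq_abs, abs_abs, Real.norm_eq_abs])
    refine h3.of_le 1 fun r x => ?_
    rw [one_mul, norm_norm, Real.norm_eq_abs, abs_of_nonneg (by positivity)]
    exact Complex.norm_le_abs_re_add_abs_im _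
  -- the logarithm
  choose l hl hl' using fun r x => exists_log (ex (β r x)) (norm_ex _)
  have hln : DN c l := hbn.of_le 1 fun r x => by
    rw [one_mul, norm_norm, Real.norm_eq_abs]
    exact hl' r x
  obtain ⟨m, hm⟩ := exists_ZS (hβl.sub hln.dl) (fun r x => by
    refine exists_int_of_ex_eq_one _ ?_
    rw [sub_eq_add_neg, ex_add, ex_neg, hl]
    apply mul_inv_cancel₀
    rw [← norm_ne_zero_iff, norm_ex]
    exact one_ne_zero)
  refine ⟨m, fun g => ?_⟩
  have h3 := (hβ1 g).add ((hln.trans g).sub hln)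
  refine h3.of_le 1 fun r x => ?_
  rw [one_mul, hm, hm]
  refine le_of_eq (congrArg norm ?_)
  ring

/-- degree two. -/
theorem van2 (hB : Amenable B) (hfree : ∀ (g : G) (e : E), g • e = e → g = 1) (hE : H1Zero E)
    (h0 : ¬ Nontrivial (Hgy (lam G) E 0)) (h1 : ¬ Nontrivial (Hgy (lam G) E 1))
    (h2 : ¬ Nontrivial (Hgy (lam G) E 2))
    (u : G → G → ZS c) (hu : ∀ g h k, DN c (fun r x => (((u h k).1 r (g⁻¹ * x) : ℤ) : ℝ) -
      (((u (g * h) k).1 r x : ℤ) : ℝ) + (((u g (h * k)).1 r x : ℤ) : ℝ) -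
      (((u g h).1 r x : ℤ) : ℝ))) :
    ∃ m : G → ZS c, ∀ g h, DN c (fun r x => (((u g h).1 r x : ℤ) : ℝ) -
      ((((m h).1 r (g⁻¹ * x) : ℤ) : ℝ) - (((m (g * h)).1 r x : ℤ) : ℝ) +
        (((m g).1 r x : ℤ) : ℝ))) := by
  obtain ⟨x0⟩ : Nonempty E := inferInstance
  obtain ⟨v, hv, hv'⟩ := dcob2 hB hfree hE h0 h1 h2
    (fun g h r x => (((u g h).1 r x : ℤ) : ℂ))
    (fun g h => (dl_int (u g h)).of_le 1 fun r x => by
      rw [Complex.norm_intCast, Real.norm_eq_abs, one_mul])
    (fun g h k => (hu g h k).of_le 1 fun r x => by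
      rw [one_mul, ← Complex.norm_real]
      refine le_of_eq (congrArg norm ?_)
      push_cast
      ring)
  set β : G → ℕ → G → ℝ := fun g r x => (v g r x).re with hβ
  have hβl : ∀ g, DL c (β g) := fun g => (hv g).of_le 1 fun r x => by
    rw [one_mul]
    exact Complex.abs_re_le_norm _
  have hβ1 : ∀ g h, DN c (fun r x => (((u g h).1 r x : ℤ) : ℝ) -
      (β h r (g⁻¹ * x) - β (g * h) r x + β g r x)) := by
    intro g h
    refine (hv' g h).of_le 1 fun r x => ?_
    rw [one_mul]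
    have h3 := Complex.abs_re_le_norm ((((u g h).1 r x : ℤ) : ℂ) -
      (v h r (g⁻¹ * x) - v (g * h) r x + v g r x))
    refine le_trans (le_of_eq ?_) h3
    rw [Real.norm_eq_abs]
    congr 1
  -- the unimodular cocycle
  have hσ0 : ∀ g h, DN c (fun r x => ex (β (g * h) r x) - ex (β g r x) * ex (β h r (g⁻¹ * x))) := by
    intro g h
    refine (hβ1 g h).of_le (2 * Real.pi) fun r x => ?_
    rw [← ex_add]
    refine (norm_ex_sub _ _ (-(u g h).1 r x)).trans (le_of_eq ?_)
    rw [Real.norm_eq_abs]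
    congr 2
    push_cast
    ring
  obtain ⟨s, hs⟩ := exists_acoc (c := c) (fun g r x => ex (β g r x)) (fun g r x => norm_ex _) hσ0
  have hσ : ∀ g r x, s.σ g r x = ex (β g r x) := fun g r x => by rw [hs]
  obtain ⟨w', hw', hw1⟩ := dcob1 hB hfree h0 h1 s (fun g r x => ex (β g r x) - 1)
    (fun g => (hβl g).of_le (2 * Real.pi) fun r x => norm_ex_sub_one _)
    (fun g h => (hσ0 g h).of_le 1 fun r x => by
      rw [one_mul, hσ]
      refine le_of_eq (congrArg norm ?_)
      ring)
  set w : ℕ → G → ℂ := fun r x => 1 - w' r x with hw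
  have hw2 : ∀ g, DN c (fun r x => ex (β g r x) * w r (g⁻¹ * x) - w r x) := by
    intro g
    refine (hw1 g).of_le 1 fun r x => ?_
    rw [one_mul, hσ, hw]
    refine le_of_eq (congrArg norm ?_)
    ring
  -- the modulus
  have he : DN c (fun r x => ‖w r x‖ - 1) := by
    refine dinv hB x0 h0 (hw'.of_le 1 fun r x => ?_) fun g => ?_
    · rw [one_mul, Real.norm_eq_abs]
      have h3 := abs_norm_sub_norm_le (w r x) 1
      rw [norm_one] at h3
      refine h3.trans (le_of_eq ?_)
      rw [hw]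
      simp only
      rw [sub_sub_cancel_left, norm_neg]
    · refine (hw2 g).of_le 1 fun r x => ?_
      rw [one_mul, Real.norm_eq_abs]
      have h3 := abs_norm_sub_norm_le (ex (β g r x) * w r (g⁻¹ * x)) (w r x)
      rw [norm_mul, norm_ex, one_mul] at h3
      refine le_trans (le_of_eq ?_) h3
      congr 1
      ring
  set y : ℕ → G → ℂ := fun r x => if w r x = 0 then 1 else w r x / ‖w r x‖ with hy
  have hyn : ∀ r x, ‖y r x‖ = 1 := by
    intro r x
    rw [hy]
    simp only
    split_ifs with h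
    · exact norm_one
    · rw [norm_div, Complex.norm_real, norm_norm]
      exact div_self (norm_ne_zero_iff.2 h)
  have hyw : ∀ r x, ‖y r x - w r x‖ = |‖w r x‖ - 1| := by
    intro r x
    rw [hy]
    simp only
    split_ifs with h
    · rw [h]; simp
    · have h3 : ((‖w r x‖ : ℝ) : ℂ) ≠ 0 := by exact_mod_cast norm_ne_zero_iff.2 h
      have h4 : w r x / ((‖w r x‖ : ℝ) : ℂ) - w r x =
          (w r x / ((‖w r x‖ : ℝ) : ℂ)) * ((1 - ‖w r x‖ : ℝ) : ℂ) := by
        push_cast
        field_simp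
      rw [h4, norm_mul, norm_div, Complex.norm_real, norm_norm,
        div_self (norm_ne_zero_iff.2 h), one_mul, Complex.norm_real, Real.norm_eq_abs,
        abs_sub_comm]
  have hyw' : DN c (fun r x => y r x - w r x) := he.of_le 1 fun r x => by
    rw [hyw, one_mul, Real.norm_eq_abs]
  have hy1 : DL c (fun r x => y r x - 1) := by
    refine (hyw'.dl.sub hw').of_le 1 fun r x => ?_
    rw [one_mul, hw]
    refine le_of_eq (congrArg norm ?_)
    ring
  choose l hl hl' using fun r x => exists_log (y r x) (hyn r x)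
  have hll : DL c l := hy1.of_le 1 fun r x => by
    rw [one_mul, Real.norm_eq_abs]
    exact hl' r x
  -- the approximate coboundary
  have hex : ∀ g r x, ‖ex (β g r x + l r (g⁻¹ * x) - l r x) - 1‖ =
      ‖ex (β g r x) * y r (g⁻¹ * x) - y r x‖ := by
    intro g r x
    have h3 : ex (β g r x + l r (g⁻¹ * x) - l r x) - 1 =
        (ex (β g r x) * y r (g⁻¹ * x) - y r x) * (y r x)⁻¹ := by
      have h4 : y r x ≠ 0 := by
        rw [← norm_ne_zero_iff, hyn]
        exact one_ne_zero
      rw [sub_eq_add_neg (β g r x + l r (g⁻¹ * x)), ex_add, ex_add, ex_neg, hl, hl, sub_mul,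
        mul_inv_cancel₀ h4]
    rw [h3, norm_mul, norm_inv, hyn, inv_one, mul_one]
  have hexn : ∀ g, DN c (fun r x => ex (β g r x + l r (g⁻¹ * x) - l r x) - 1) := by
    intro g
    have h3 : DN c (fun r x => ex (β g r x) * (y r (g⁻¹ * x) - w r (g⁻¹ * x))) :=
      (hyw'.trans g).of_le 1 fun r x => by rw [norm_mul, norm_ex]
    refine ((h3.add (hw2 g)).sub hyw').of_le 1 fun r x => ?_
    rw [hex, one_mul]
    refine le_of_eq (congrArg norm ?_)
    ring
  choose l' hl1 hl2 using fun g r x =>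
    exists_log (ex (β g r x + l r (g⁻¹ * x) - l r x)) (norm_ex _)
  have hln : ∀ g, DN c (l' g) := fun g => (hexn g).of_le 1 fun r x => by
    rw [one_mul, Real.norm_eq_abs]
    exact hl2 g r x
  choose m hm using fun g => exists_ZS
    ((((hβl g).add (hll.trans g)).sub hll).sub (hln g).dl) (fun r x => by
      refine exists_int_of_ex_eq_one _ ?_
      rw [sub_eq_add_neg (β g r x + l r (g⁻¹ * x) - l r x), ex_add, ex_neg, hl1]
      apply mul_inv_cancel₀
      rw [← norm_ne_zero_iff, norm_ex]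
      exact one_ne_zero)
  refine ⟨m, fun g h => ?_⟩
  have h3 := (hβ1 g h).add ((((hln h).trans g).sub (hln (g * h))).add (hln g))
  refine h3.of_le 1 fun r x => ?_
  rw [one_mul, hm, hm, hm]
  refine le_of_eq (congrArg norm ?_)
  rw [mul_inv_rev, mul_assoc]
  ring

end Pool.Agent.LibQF83
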