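import Pool.Agent.LibQF83.Ineq

/-!
The reduced group C*-algebra acts on the asymptotic space through every approximate cocycle.
-/

set_option autoImplicit false

namespace Pool.Agent.LibQF83

open Pool.Agent.LibZIS Pool.Agent.LibCod83 Filter Topology

variable {G B : Type} [Group G] [Group B] {c : CE G B} (s : ACoc c)

/-- the asymptotic inequality for bounded sequences near the image. -/
lemma norm_asym (hB : Amenable B) (φ : MonoidAlgebra ℂ G) {K : Finset G} {C : ℝ} {u : BB G}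
    (hu : Bd c K C u) {η : ℝ} (hη : 0 < η) :
    ∀ᶠ r in atTop, ‖∑ g ∈ φ.coeff.support, φ.coeff g • opL s g r (u r)‖ ≤
      ‖Raw.T G G φ‖ * ‖u r‖ + η := by
  classical
  set S := φ.coeff.support with hS
  -- the region
  let K' : Finset G := K ∪ S.biUnion fun g => K.image (g * ·)
  have hK : ∀ x, x ∈ KS c K → x ∈ KS c K' := fun x hx => KS_mono c Finset.subset_union_left hx
  have hK' : ∀ g ∈ S, ∀ x, g⁻¹ * x ∈ KS c K → x ∈ KS c K' := fun g hg x hx =>
    KS_mono c ((Finset.subset_biUnion_of_mem (fun g => K.image (g * ·)) hg).trans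
      Finset.subset_union_right) (KS_mul c g hx)
  obtain ⟨p0⟩ : Nonempty B := ⟨1⟩
  choose D hD using fun g : G => exists_D c K' g
  -- the parameters
  set A : ℝ := ∑ g ∈ S, ‖φ.coeff g‖ with hA
  have hA0 : 0 ≤ A := Finset.sum_nonneg fun g _ => norm_nonneg _
  set t : ℝ := η / (A + 1) with ht
  have ht0 : 0 < t := by positivity
  set ε : ℝ := t ^ 2 / (4 * (‖u‖ ^ 2 + 1)) with hε
  have hε0 : 0 < ε := by positivity
  obtain ⟨Φ, hΦ, hΦ'⟩ := hB (S.biUnion D) ε hε0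
  obtain ⟨H, hH⟩ := exists_H c K' Φ
  -- eventually the errors are small
  have hlim : Tendsto (fun r => ∑ g ∈ S, ∑ h ∈ H, C ^ 2 * ‖s.δ g h r‖ ^ 2) atTop (𝓝 0) := by
    have h1 : Tendsto (fun r => ∑ g ∈ S, ∑ h ∈ H, C ^ 2 * ‖s.δ g h r‖ ^ 2) atTop
        (𝓝 (∑ g ∈ S, ∑ h ∈ H, C ^ 2 * (0 : ℝ) ^ 2)) :=
      tendsto_finsetSum _ fun g _ => tendsto_finsetSum _ fun h _ =>
        ((s.lim g h).pow 2).const_mul (C ^ 2)
    simpa using h1
  filter_upwards [hlim.eventually (gt_mem_nhds (show 0 < t ^ 2 / 2 by positivity))] with r hr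
  have hξ := norm_vf_le s K' Φ r hΦ
  have hone : ∀ x, x ∈ KS c K' → ‖vf s K' Φ r x‖ = 1 := fun x hx => norm_vf s K' Φ r hΦ x hx
  have hcore := norm_core s φ r (u r) (vf s K' Φ r) hξ (fun x hx => hone x (hK x ((hu r x).2 hx)))
    (fun g hg x hx => hone x (hK' g hg x ((hu r _).2 hx))) t (fun g hg => ?_)
  · refine hcore.trans (add_le_add le_rfl ?_)
    rw [← hA, ht]
    calc A * (η / (A + 1)) ≤ (A + 1) * (η / (A + 1)) := by gcongr; linarith
      _ = η := by field_simp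
  · -- the defect
    have hsh : ∀ (ζ : Raw.L2 G), Summable fun x => ‖ζ (g⁻¹ * x)‖ ^ 2 := fun ζ =>
      (Equiv.mulLeft g⁻¹).summable_iff.2 (Raw.summable_sq ζ)
    have hsh' : ∀ (ζ : Raw.L2 G), ∑' x, ‖ζ (g⁻¹ * x)‖ ^ 2 = ‖ζ‖ ^ 2 := fun ζ => by
      rw [Raw.norm_sq_eq]
      exact (Equiv.mulLeft g⁻¹).tsum_eq (fun x => ‖ζ x‖ ^ 2)
    have hF1 : Summable fun x => 2 * ε * ‖u r (g⁻¹ * x)‖ ^ 2 := (hsh (u r)).mul_left _
    have hF2 : Summable fun x => ∑ h ∈ H, C ^ 2 * ‖s.δ g h r x‖ ^ 2 :=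
      summable_sum fun h _ => (Raw.summable_sq (s.δ g h r)).mul_left _
    refine norm_defect_le s (vf s K' Φ r) hξ (u r) g r ht0.le
      (fun x => 2 * ε * ‖u r (g⁻¹ * x)‖ ^ 2 + ∑ h ∈ H, C ^ 2 * ‖s.δ g h r x‖ ^ 2)
      (hF1.add hF2) ?_ (fun x => ?_)
    · rw [hF1.tsum_add hF2, tsum_mul_left, hsh']
      have e1 : ∑' x, ∑ h ∈ H, C ^ 2 * ‖s.δ g h r x‖ ^ 2 = ∑ h ∈ H, C ^ 2 * ‖s.δ g h r‖ ^ 2 := by
        rw [Summable.tsum_finsetSum fun h _ => (Raw.summable_sq (s.δ g h r)).mul_left _]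
        refine Finset.sum_congr rfl fun h _ => ?_
        rw [tsum_mul_left, ← Raw.norm_sq_eq]
      have e2 : ∑ h ∈ H, C ^ 2 * ‖s.δ g h r‖ ^ 2 ≤
          ∑ g ∈ S, ∑ h ∈ H, C ^ 2 * ‖s.δ g h r‖ ^ 2 :=
        Finset.single_le_sum (f := fun g => ∑ h ∈ H, C ^ 2 * ‖s.δ g h r‖ ^ 2)
          (fun g _ => Finset.sum_nonneg fun h _ => by positivity) hg
      have e3 : 2 * ε * ‖u r‖ ^ 2 ≤ t ^ 2 / 2 := by
        have h1 : ‖u r‖ ^ 2 ≤ ‖u‖ ^ 2 + 1 := by
          have := bb_apply_le u r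
          have : ‖u r‖ ^ 2 ≤ ‖u‖ ^ 2 := by gcongr
          linarith
        calc 2 * ε * ‖u r‖ ^ 2 ≤ 2 * ε * (‖u‖ ^ 2 + 1) := by gcongr
          _ = t ^ 2 / 2 := by rw [hε]; field_simp; ring
      rw [e1]
      linarith
    · by_cases hx0 : u r (g⁻¹ * x) = 0
      · rw [hx0, norm_zero]
        have : 0 ≤ ∑ h ∈ H, C ^ 2 * ‖s.δ g h r x‖ ^ 2 := Finset.sum_nonneg fun h _ => by positivity
        simpa using this
      · have hyK : g⁻¹ * x ∈ KS c K := (hu r _).2 hx0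
        have hy : g⁻¹ * x ∈ KS c K' := hK _ hyK
        have hx : x ∈ KS c K' := hK' g hg x hyK
        obtain ⟨d1, d2⟩ := hD g x (g⁻¹ * x) hx hy rfl
        have hcard : ∀ d ∈ D g, ((Φ.filter fun b => d * b ∉ Φ).card : ℝ) ≤ ε * Φ.card := by
          intro d hd
          have h1 := hΦ' d (Finset.mem_biUnion.2 ⟨g, hg, hd⟩)
          have h2 : ((Φ : Set B) \ {x | d * x ∈ Φ}) = ((Φ.filter fun b => d * b ∉ Φ : Finset B) :
              Set B) := by
            ext b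
            simp
          rw [h2, Set.ncard_coe_finset] at h1
          exact h1
        have hv := norm_vf_sub s K' Φ r hΦ g x hx hy H hH (hcard _ d1) (hcard _ d2)
        have hC : ‖u r (g⁻¹ * x)‖ ^ 2 * c.a r ≤ C ^ 2 := by
          have h1 := (hu r (g⁻¹ * x)).1
          have h2 : ‖u r (g⁻¹ * x)‖ ^ 2 * c.a r = (‖u r (g⁻¹ * x)‖ * √(c.a r)) ^ 2 := by
            rw [mul_pow, Real.sq_sqrt (c.pos r).le]
          rw [h2]
          gcongr
        calc ‖u r (g⁻¹ * x)‖ ^ 2 * ‖s.σ g r x • vf s K' Φ r x - vf s K' Φ r (g⁻¹ * x)‖ ^ 2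
            ≤ ‖u r (g⁻¹ * x)‖ ^ 2 * (2 * ε + ∑ h ∈ H, c.a r * ‖s.δ g h r x‖ ^ 2) := by gcongr
          _ = 2 * ε * ‖u r (g⁻¹ * x)‖ ^ 2 +
              ∑ h ∈ H, (‖u r (g⁻¹ * x)‖ ^ 2 * c.a r) * ‖s.δ g h r x‖ ^ 2 := by
            rw [mul_add, Finset.mul_sum]
            congr 1
            · ring
            · exact Finset.sum_congr rfl fun h _ => by ring
          _ ≤ _ := by
            refine add_le_add le_rfl (Finset.sum_le_sum fun h _ => ?_)
            exact mul_le_mul_of_nonneg_right hC (by positivity)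

/-- the twisted representation on the asymptotic space is weakly contained in the regular one. -/
theorem norm_TW_le (hB : Amenable B) (φ : MonoidAlgebra ℂ G) (v : V c) :
    ‖TW (opHom s) φ v‖ ≤ ‖Raw.T G G φ‖ * ‖v‖ := by
  classical
  obtain ⟨u, hu, rfl⟩ := cl_surj c v
  set S := φ.coeff.support with hS
  set A : ℝ := ∑ g ∈ S, ‖φ.coeff g‖ with hA
  have hA0 : 0 ≤ A := Finset.sum_nonneg fun g _ => norm_nonneg _
  set T := ‖Raw.T G G φ‖ with hT
  have hT0 : 0 ≤ T := norm_nonneg _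
  -- the sequence
  let w : BB G := ∑ g ∈ S, φ.coeff g • opB s g u
  have hw : Loc c w := (locS c).sum_mem fun g _ => (locS c).smul_mem _ (hu.op s g)
  have hwr : ∀ r, w r = ∑ g ∈ S, φ.coeff g • opL s g r (u r) := by
    intro r
    have h3 : ((∑ g ∈ S, φ.coeff g • opB s g u : BB G) : ∀ _ : ℕ, Raw.L2 G) =
        ∑ g ∈ S, ((φ.coeff g • opB s g u : BB G) : ∀ _ : ℕ, Raw.L2 G) :=
      map_sum (lp.coeFnAddMonoidHom (fun _ : ℕ => Raw.L2 G) ⊤) _ _
    show ((∑ g ∈ S, φ.coeff g • opB s g u : BB G) : ∀ _ : ℕ, Raw.L2 G) r = _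
    rw [h3, Finset.sum_apply]
    rfl
  have h1 : TW (opHom s) φ (cl c u hu) = cl c w hw := by
    rw [TW_apply]
    have h2 : cl c w hw = (nul c).mkQ (∑ g ∈ S, φ.coeff g • opS s g ⟨u, hu⟩) := by
      show (nul c).mkQ ⟨w, hw⟩ = _
      congr 1
      apply Subtype.ext
      rw [Submodule.coe_sum]
      rfl
    rw [h2, map_sum]
    refine Finset.sum_congr rfl fun g _ => ?_
    rw [map_smul]
    rfl
  rw [h1]
  refine le_of_forall_pos_le_add fun η hη => ?_
  -- approximation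
  set ε : ℝ := η / (4 * (A + T + 1)) with hε
  have hε0 : 0 < ε := by positivity
  obtain ⟨K, C, u', hu', hu1⟩ := hu ε hε0
  refine norm_cl_le c hw (by positivity) ?_
  filter_upwards [hu1, norm_asym s hB φ hu' (show 0 < η / 4 by positivity),
    eventually_le c hu hε0] with r h2 h3 h4
  rw [hwr]
  have e1 : ∑ g ∈ S, φ.coeff g • opL s g r (u r) =
      ∑ g ∈ S, φ.coeff g • opL s g r (u r - u' r) + ∑ g ∈ S, φ.coeff g • opL s g r (u' r) := by
    rw [← Finset.sum_add_distrib]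
    refine Finset.sum_congr rfl fun g _ => ?_
    rw [← smul_add, ← map_add, sub_add_cancel]
  have e2 : ‖∑ g ∈ S, φ.coeff g • opL s g r (u r - u' r)‖ ≤ A * ε := by
    refine (norm_sum_le _ _).trans ?_
    rw [hA, Finset.sum_mul]
    refine Finset.sum_le_sum fun g _ => ?_
    rw [norm_smul, norm_opL]
    exact mul_le_mul_of_nonneg_left h2 (norm_nonneg _)
  have e3 : ‖u' r‖ ≤ ‖u r‖ + ε := by
    have : u' r = u r - (u r - u' r) := by abel
    rw [this]
    exact (norm_sub_le _ _).trans (by linarith)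
  have e4 : T * ‖u' r‖ ≤ T * ‖cl c u hu‖ + T * (2 * ε) := by
    rw [← mul_add]
    exact mul_le_mul_of_nonneg_left (by linarith) hT0
  have e5 : A * ε + T * (2 * ε) ≤ η / 2 := by
    calc A * ε + T * (2 * ε) ≤ 2 * ((A + T + 1) * ε) := by nlinarith
      _ = η / 2 := by rw [hε]; field_simp; ring
  rw [e1]
  refine (norm_add_le _ _).trans ?_
  linarith

/-- the reduced group C*-algebra acts on the asymptotic space. -/
theorem exists_rep (hB : Amenable B) : ∃ R : Cr G →+* (V c →L[ℂ] V c),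
    ∀ (g : G) (u : BB G) (hu : Loc c u), R (lam G g) (cl c u hu) = cl c (opB s g u) (hu.op s g) := by
  obtain ⟨R, hR⟩ := exists_ext' (ρ := opHom s) (norm_TW_le s hB)
  refine ⟨R, fun g u hu => ?_⟩
  rw [hR]
  rfl

end Pool.Agent.LibQF83
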